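import Pool.Agent.SFB.StmtsT

/-!
# CPP: composite places
-/

set_option autoImplicit false

noncomputable section

namespace Pool.Agent.SFB

open scoped Classical
open Pool.Agent.EN2 Pool.Agent.SRF Pool.Agent.DIS IsLocalRing

theorem cpp_proof : Stmt_CPP := by
  intro K _ O F _ _ c V hV
  have h1 : ∀ f ∈ c.W, (f ∈ cpW c V ↔ c.res f ∈ V) := fun f hf => ⟨fun h => h.2, fun h => ⟨hf, h⟩⟩
  refine ⟨⟨⟨cpW c V, fun a => ⟨fun h => (c.mem_iff a).1 h.1, fun ha => ?_⟩⟩, rfl⟩, fun f hf => ⟨h1 f hf, ?_⟩⟩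
  · refine ⟨(c.mem_iff a).2 ha, ?_⟩
    have h2 := hV (residue O ⟨a, ha⟩)
    rw [c.alg_apply] at h2
    rw [c.res_of_mem ((c.mem_iff a).2 ha)]
    exact h2
  · rw [ValuationSubring.mem_nonunits_iff_or, ValuationSubring.mem_nonunits_iff_or]
    by_cases h0 : c.res f = 0
    · refine ⟨fun _ => Or.inl h0, fun _ => ?_⟩
      have h3 : f ∈ c.W.nonunits := (c.res_eq_zero hf).1 h0
      rw [ValuationSubring.mem_nonunits_iff_or] at h3
      rcases h3 with h3 | h3
      · exact Or.inl h3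
      · exact Or.inr fun h4 => h3 h4.1
    · have hf0 : f ≠ 0 := c.ne_zero_of_res h0
      have h4 : f⁻¹ ∈ c.W := c.inv_mem h0
      rw [h1 _ h4, c.res_inv h0]
      constructor
      · rintro (h | h)
        · exact absurd h hf0
        · exact Or.inr h
      · rintro (h | h)
        · exact absurd h h0
        · exact Or.inr h

end Pool.Agent.SFB
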