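import Pool.Agent.SFB.Defs
import Pool.Agent.EN2.Chain

/-!
# The residue field of a component is finite over the function field of a plane; existence of
maximal monomials

Shared lemmas for the modules on the exact surface.
-/

set_option autoImplicit false

noncomputable section

namespace Pool.Agent.SFB

open scoped Classical
open Pool.Agent.EN2 Pool.Agent.SRF IsLocalRing

namespace FinC_

variable {K : Type} [Field K] {O : ValuationSubring K} {F : Type} [Field F] [Algebra K F]
  {x y : F}

/-- the value of a polynomial with integral coefficients at the residues -/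
theorem eval_res (c : Comp O x y) (A : MvPolynomial (Fin 2) O) :
    MvPolynomial.aeval ![x, y] (MvPolynomial.map (algebraMap O K) A) ∈ c.1.W ∧
    c.1.res (MvPolynomial.aeval ![x, y] (MvPolynomial.map (algebraMap O K) A)) =
      MvPolynomial.aeval ![c.1.res x, c.1.res y] (MvPolynomial.map (residue O) A) := by
  have hx := c.2.memx
  have hy := c.2.memy
  induction A using MvPolynomial.induction_on with
  | C a =>
    rw [MvPolynomial.map_C, MvPolynomial.map_C, MvPolynomial.aeval_C, MvPolynomial.aeval_C]
    exact ⟨c.1.mem_alg a.2, c.1.res_algebraMap a⟩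
  | add p q hp hq =>
    rw [map_add, map_add, map_add, map_add]
    exact ⟨add_mem hp.1 hq.1, by rw [c.1.res_add hp.1 hq.1, hp.2, hq.2]⟩
  | mul_X p i hp =>
    have hi : (![x, y] : Fin 2 → F) i ∈ c.1.W := by
      fin_cases i
      · exact hx
      · exact hy
    have hi2 : c.1.res ((![x, y] : Fin 2 → F) i) =
        (![c.1.res x, c.1.res y] : Fin 2 → ResidueField c.1.W) i := by
      fin_cases i <;> rfl
    rw [map_mul, map_mul, map_mul, map_mul, MvPolynomial.map_X, MvPolynomial.map_X,
      MvPolynomial.aeval_X, MvPolynomial.aeval_X]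
    exact ⟨mul_mem hp.1 hi, by rw [c.1.res_mul hp.1 hi, hp.2, hi2]⟩

/-- scaling of polynomials -/
theorem scale (c : Comp O x y) (A : MvPolynomial (Fin 2) K) (hA : A ≠ 0) :
    ∃ (κ : K) (A' : F), κ ≠ 0 ∧ MvPolynomial.aeval ![x, y] A = algebraMap K F κ * A' ∧
      A' ∈ c.1.W ∧ c.1.res A' ≠ 0 ∧
      c.1.res A' ∈ IntermediateField.adjoin (ResidueField O) {c.1.res x, c.1.res y} := by
  have hs : A.support.Nonempty := by
    rw [Finset.nonempty_iff_ne_empty, Ne, MvPolynomial.support_eq_empty]
    exact hA
  obtain ⟨m1, hm1, hmax⟩ := Finset.exists_max_image A.support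
    (fun m => O.valuation (A.coeff m)) hs
  have hc0 : A.coeff m1 ≠ 0 := MvPolynomial.mem_support_iff.mp hm1
  set κ := A.coeff m1 with hκ
  have hle : ∀ m, κ⁻¹ * A.coeff m ∈ O := by
    intro m
    by_cases hm : m ∈ A.support
    · have h1 := hmax m hm
      rw [← ValuationSubring.valuation_le_one_iff, map_mul, map_inv₀]
      have hv : O.valuation κ ≠ 0 := (Valuation.ne_zero_iff _).mpr hc0
      rw [mul_comm, ← div_eq_mul_inv]
      exact div_le_one_of_le₀ h1 zero_le
    · rw [MvPolynomial.notMem_support_iff.mp hm, mul_zero]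
      exact zero_mem _
  have hrange : MvPolynomial.C κ⁻¹ * A ∈ Set.range (MvPolynomial.map (algebraMap O K)) := by
    rw [MvPolynomial.mem_range_map_iff_coeffs_subset]
    intro a ha
    rw [Finset.mem_coe, MvPolynomial.mem_coeffs_iff] at ha
    obtain ⟨m, -, rfl⟩ := ha
    rw [MvPolynomial.coeff_C_mul]
    exact ⟨⟨_, hle m⟩, rfl⟩
  obtain ⟨A0, hA0⟩ := hrange
  have hA : A = MvPolynomial.C κ * MvPolynomial.map (algebraMap O K) A0 := by
    rw [hA0, ← mul_assoc, ← map_mul, mul_inv_cancel₀ hc0, map_one, one_mul]
  have h1 := eval_res c A0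
  refine ⟨κ, MvPolynomial.aeval ![x, y] (MvPolynomial.map (algebraMap O K) A0), hc0, ?_, h1.1,
    ?_, ?_⟩
  · conv_lhs => rw [hA]
    rw [map_mul, MvPolynomial.aeval_C]
  · rw [h1.2]
    intro h0
    have h2 := c.2.indep
    rw [algebraicIndependent_iff] at h2
    have h3 := h2 _ h0
    have h4 : (MvPolynomial.map (residue O) A0).coeff m1 = 1 := by
      rw [MvPolynomial.coeff_map]
      have h5 : A0.coeff m1 = 1 := by
        have h6 : (MvPolynomial.map (algebraMap O K) A0).coeff m1 = 1 := by
          rw [hA0, MvPolynomial.coeff_C_mul, ← hκ, inv_mul_cancel₀ hc0]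
        rw [MvPolynomial.coeff_map] at h6
        exact Subtype.ext h6
      rw [h5, map_one]
    rw [h3, MvPolynomial.coeff_zero] at h4
    exact zero_ne_one h4
  · rw [h1.2]
    have h2 : ∀ B : MvPolynomial (Fin 2) (ResidueField O),
        MvPolynomial.aeval ![c.1.res x, c.1.res y] B ∈
          IntermediateField.adjoin (ResidueField O) {c.1.res x, c.1.res y} := by
      intro B
      induction B using MvPolynomial.induction_on with
      | C a => rw [MvPolynomial.aeval_C]; exact IntermediateField.algebraMap_mem _ a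
      | add p q hp hq => rw [map_add]; exact add_mem hp hq
      | mul_X p i hp =>
        rw [map_mul, MvPolynomial.aeval_X]
        refine mul_mem hp ?_
        fin_cases i
        · exact IntermediateField.subset_adjoin _ _ (Set.mem_insert _ _)
        · exact IntermediateField.subset_adjoin _ _ (Set.mem_insert_of_mem _ rfl)
    exact h2 _

/-- residues of elements of `K(x, y)` -/
theorem res_mem (c : Comp O x y) {f : F} (hf : f ∈ IntermediateField.adjoin K {x, y})
    (hW : f ∈ c.1.W) :
    c.1.res f ∈ IntermediateField.adjoin (ResidueField O) {c.1.res x, c.1.res y} := by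
  have hset : ({x, y} : Set F) = Set.range ![x, y] := by
    ext t
    simp [or_comm, eq_comm]
  rw [IntermediateField.mem_adjoin_iff_div] at hf
  obtain ⟨r, hr, s, hs, rfl⟩ := hf
  rw [hset, Algebra.adjoin_range_eq_range_aeval] at hr hs
  obtain ⟨A, rfl⟩ := hr
  obtain ⟨B, rfl⟩ := hs
  by_cases hA : A = 0
  · subst hA
    simp
  by_cases hB : B = 0
  · subst hB
    simp
  obtain ⟨κ, A', hκ, hA1, hA2, hA3, hA4⟩ := scale c A hA
  obtain ⟨μ, B', hμ, hB1, hB2, hB3, hB4⟩ := scale c B hB
  have e1 : (MvPolynomial.aeval ![x, y]) A / (MvPolynomial.aeval ![x, y]) B =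
      algebraMap K F (κ / μ) * (A' / B') := by
    rw [hA1, hB1, map_div₀]
    have hμ' : algebraMap K F μ ≠ 0 := by rwa [Ne, map_eq_zero]
    have hB' := c.1.ne_zero_of_res hB3
    field_simp
  change (MvPolynomial.aeval ![x, y]) A / (MvPolynomial.aeval ![x, y]) B ∈ c.1.W at hW
  change c.1.res ((MvPolynomial.aeval ![x, y]) A / (MvPolynomial.aeval ![x, y]) B) ∈ _
  rw [e1] at hW ⊢
  have h2 : A' / B' ∈ c.1.W := c.1.div_mem hA2 hB3
  have h3 : c.1.res (A' / B') = c.1.res A' / c.1.res B' := c.1.res_div hA2 hB3
  have h4 : κ / μ ∈ O := by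
    rw [← c.1.mem_iff]
    have h5 : (A' / B')⁻¹ ∈ c.1.W := c.1.inv_mem (by rw [h3]; exact div_ne_zero hA3 hB3)
    have h6 := mul_mem hW h5
    rwa [mul_assoc, mul_inv_cancel₀ (div_ne_zero (c.1.ne_zero_of_res hA3)
      (c.1.ne_zero_of_res hB3)), mul_one] at h6
  rw [c.1.res_mul (c.1.mem_alg h4) h2, h3, c.1.res_algebraMap ⟨_, h4⟩]
  exact mul_mem (IntermediateField.algebraMap_mem _ _) (div_mem hA4 hB4)

/-- the fundamental inequality -/
theorem fund (c : Comp O x y) (hs : IsSurf K x y) (S : Finset (ResidueField c.1.W))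
    (hS : LinearIndependent
      (IntermediateField.adjoin (ResidueField O) ({c.1.res x, c.1.res y} :
        Set (ResidueField c.1.W))) (fun i : S => (i : ResidueField c.1.W))) :
    S.card ≤ Module.finrank (IntermediateField.adjoin K {x, y}) F := by
  have := hs.fin
  have hlift : ∀ a : ResidueField c.1.W, ∃ f ∈ c.1.W, c.1.res f = a := by
    intro a
    obtain ⟨f, rfl⟩ := residue_surjective a
    exact ⟨f, f.2, c.1.res_of_mem f.2⟩
  choose f hf1 hf2 using hlift
  have hli : LinearIndependent (IntermediateField.adjoin K {x, y}) (fun i : S => f i) := by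
    rw [Fintype.linearIndependent_iff]
    intro e he
    by_contra hne
    push Not at hne
    obtain ⟨i1, hi1⟩ := hne
    obtain ⟨i0, -, hmax⟩ := Finset.exists_max_image Finset.univ
      (fun i => c.1.W.valuation ((e i : IntermediateField.adjoin K {x, y}) : F))
      ⟨i1, Finset.mem_univ _⟩
    have h0 : ((e i0 : IntermediateField.adjoin K {x, y}) : F) ≠ 0 := by
      intro h0
      have h1 := hmax i1 (Finset.mem_univ _)
      rw [h0, map_zero] at h1
      have h2 : ((e i1 : IntermediateField.adjoin K {x, y}) : F) = 0 := by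
        have h3 := le_antisymm h1 zero_le
        rwa [map_eq_zero] at h3
      exact hi1 (Subtype.ext h2)
    have hbW : ∀ i, ((e i / e i0 : IntermediateField.adjoin K {x, y}) : F) ∈ c.1.W := by
      intro i
      rw [← ValuationSubring.valuation_le_one_iff]
      have h1 := hmax i (Finset.mem_univ _)
      have h2 : ((e i / e i0 : IntermediateField.adjoin K {x, y}) : F) =
        (e i : F) / (e i0 : F) := rfl
      rw [h2, map_div₀]
      exact div_le_one_of_le₀ h1 zero_le
    have hsum : ∑ i : S, ((e i / e i0 : IntermediateField.adjoin K {x, y}) : F) * f i = 0 := by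
      have h1 : ∑ i : S, ((e i / e i0 : IntermediateField.adjoin K {x, y}) : F) * f i =
          (e i0 : F)⁻¹ * ∑ i : S, e i • f i := by
        rw [Finset.mul_sum]
        refine Finset.sum_congr rfl fun i _ => ?_
        have h2 : ((e i / e i0 : IntermediateField.adjoin K {x, y}) : F) =
          (e i : F) / (e i0 : F) := rfl
        rw [h2, Algebra.smul_def]
        change (e i : F) / (e i0 : F) * f i = (e i0 : F)⁻¹ * ((e i : F) * f i)
        rw [div_eq_inv_mul, mul_assoc]
      rw [h1, he, mul_zero]
    have hres : ∀ s : Finset S, c.1.res (∑ i ∈ s,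
        ((e i / e i0 : IntermediateField.adjoin K {x, y}) : F) * f i) =
        ∑ i ∈ s, c.1.res ((e i / e i0 : IntermediateField.adjoin K {x, y}) : F) *
          (i : ResidueField c.1.W) := by
      intro s
      induction s using Finset.induction_on with
      | empty => rw [Finset.sum_empty, Finset.sum_empty, c.1.res_zero]
      | insert a s ha ih =>
        rw [Finset.sum_insert ha, Finset.sum_insert ha, c.1.res_add
          (mul_mem (hbW a) (hf1 a)) (sum_mem fun i _ => mul_mem (hbW i) (hf1 i)), ih,
          c.1.res_mul (hbW a) (hf1 a), hf2]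
    have h3 := hres Finset.univ
    rw [hsum, c.1.res_zero] at h3
    rw [Fintype.linearIndependent_iff] at hS
    have h4 := hS (fun i => ⟨c.1.res ((e i / e i0 : IntermediateField.adjoin K {x, y}) : F),
      res_mem c (e i / e i0).2 (hbW i)⟩) (by
        rw [← h3.symm]
        refine Finset.sum_congr rfl fun i _ => ?_
        rw [Algebra.smul_def]
        rfl) i0
    have h5 : c.1.res ((e i0 / e i0 : IntermediateField.adjoin K {x, y}) : F) = 0 :=
      congrArg Subtype.val h4
    have h6 : ((e i0 / e i0 : IntermediateField.adjoin K {x, y}) : F) = 1 := by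
      have h2 : ((e i0 / e i0 : IntermediateField.adjoin K {x, y}) : F) =
        (e i0 : F) / (e i0 : F) := rfl
      rw [h2, div_self h0]
    rw [h6, c.1.res_one] at h5
    exact one_ne_zero h5
  have h7 := hli.fintype_card_le_finrank
  simpa using h7

theorem fin_xy (c : Comp O x y) (hs : IsSurf K x y) :
    FiniteDimensional (IntermediateField.adjoin (ResidueField O)
      ({c.1.res x, c.1.res y} : Set (ResidueField c.1.W))) (ResidueField c.1.W) := by
  have h := rank_le (R := IntermediateField.adjoin (ResidueField O)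
      ({c.1.res x, c.1.res y} : Set (ResidueField c.1.W))) (M := ResidueField c.1.W)
      (fun S hS => fund c hs S hS)
  exact Module.rank_lt_aleph0_iff.mp (h.trans_lt (Cardinal.natCast_lt_aleph0))

theorem top_adjoin {k Ω : Type} [Field k] [Field Ω] [Algebra k Ω] (A E : IntermediateField k Ω)
    (S : Set Ω) (hA : A ≤ (IntermediateField.adjoin E S).restrictScalars k) {ι : Type} [Fintype ι]
    (B : Module.Basis ι A Ω) (hB : ∀ i, B i ∈ S) : IntermediateField.adjoin E S = ⊤ := by
  rw [eq_top_iff]
  intro t _
  have h1 := B.sum_repr t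
  rw [← h1]
  refine sum_mem fun i _ => ?_
  have h2 : (B.repr t i) • B i = ((B.repr t i : A) : Ω) * B i := rfl
  rw [h2]
  refine mul_mem ?_ (IntermediateField.subset_adjoin _ _ (hB i))
  have h4 : ((B.repr t i : A) : Ω) ∈ (IntermediateField.adjoin E S).restrictScalars k :=
    hA (B.repr t i).2
  rwa [IntermediateField.mem_restrictScalars] at h4

theorem transfer0 {k Ω : Type} [Field k] [Field Ω] [Algebra k Ω] (A : IntermediateField k Ω)
    (T : Set Ω) (hT : T.Finite) (hA : A = IntermediateField.adjoin k T)
    (hfin : FiniteDimensional A Ω) (E : IntermediateField k Ω) (hE : Algebra.IsAlgebraic E Ω) :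
    FiniteDimensional E Ω := by
  let B := Module.finBasis A Ω
  let S : Set Ω := T ∪ Set.range B
  have hSf : Finite S := (hT.union (Set.finite_range B)).to_subtype
  have h1 : FiniteDimensional E (IntermediateField.adjoin E S) :=
    IntermediateField.finiteDimensional_adjoin
      (fun x _ => (Algebra.IsAlgebraic.isAlgebraic x).isIntegral)
  have h2 : IntermediateField.adjoin E S = ⊤ := by
    refine top_adjoin A E S ?_ B (fun i => Or.inr ⟨i, rfl⟩)
    rw [hA, IntermediateField.adjoin_le_iff]
    intro u hu
    exact IntermediateField.subset_adjoin E S (Or.inl hu)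
  rw [h2] at h1
  exact Module.Finite.equiv (IntermediateField.topEquiv (F := E) (E := Ω)).toLinearEquiv

theorem transfer {k Ω : Type} [Field k] [Field Ω] [Algebra k Ω] (a b : Fin 2 → Ω)
    (ha : AlgebraicIndependent k a)
    (hfin : FiniteDimensional (IntermediateField.adjoin k (Set.range a)) Ω)
    (hb : AlgebraicIndependent k b) :
    FiniteDimensional (IntermediateField.adjoin k (Set.range b)) Ω := by
  have halg : Algebra.IsAlgebraic (IntermediateField.adjoin k (Set.range a)) Ω := inferInstance
  rw [IntermediateField.isAlgebraic_adjoin_iff_top] at halg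
  have hta : IsTranscendenceBasis k a := ha.isTranscendenceBasis_iff_isAlgebraic.mpr halg
  have htb : IsTranscendenceBasis k b :=
    hb.isTranscendenceBasis_of_trdeg_le_of_finite hta.cardinalMk_eq_trdeg.ge
  exact transfer0 _ (Set.range a) (Set.finite_range a) rfl hfin _ htb.isAlgebraic_field

end FinC_

/-- The residue field of a component is finite over the function field of every plane. -/
theorem finC {K : Type} [Field K] {O : ValuationSubring K} {F : Type} [Field F] [Algebra K F]
    {x y : F} (hs : IsSurf K x y) (c : Comp O x y) (σ : Fin 3 → ResidueField c.1.W)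
    (hσ : IsPl (ResidueField O) σ) :
    FiniteDimensional (PF (ResidueField O) σ) (ResidueField c.1.W) := by
  have h1 := FinC_.fin_xy c hs
  have e1 : ({c.1.res x, c.1.res y} : Set (ResidueField c.1.W)) =
      Set.range ![c.1.res x, c.1.res y] := by
    ext t
    simp [or_comm]
  rw [e1] at h1
  have h2 := FinC_.transfer _ _ c.2.indep h1 hσ.indep
  have e2 : ({σ 1 / σ 0, σ 2 / σ 0} : Set (ResidueField c.1.W)) =
      Set.range ![σ 1 / σ 0, σ 2 / σ 0] := by
    ext t
    simp [or_comm]
  unfold PF
  rw [e2]
  exact h2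

namespace FinC_

end FinC_

/-- the brackets do not vanish -/
theorem pk_ne {k Ω : Type} [Field k] [Field Ω] [Algebra k Ω] {u v : Ω}
    (h : AlgebraicIndependent k ![u, v]) (j : Fin 10) : pk u v j ≠ 0 := by
  have hu : Transcendental k u := h.transcendental 0
  have hv : Transcendental k v := h.transcendental 1
  have u0 : u ≠ 0 := by rintro rfl; exact hu isAlgebraic_zero
  have u1 : 1 - u ≠ 0 := by
    intro h0
    have : u = 1 := (sub_eq_zero.mp h0).symm
    rw [this] at hu
    exact hu isAlgebraic_one
  have v0 : v ≠ 0 := by rintro rfl; exact hv isAlgebraic_zero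
  have v1 : 1 - v ≠ 0 := by
    intro h0
    have : v = 1 := (sub_eq_zero.mp h0).symm
    rw [this] at hv
    exact hv isAlgebraic_one
  have uv : u - v ≠ 0 := by
    intro h0
    have h1 : (![u, v] : Fin 2 → Ω) 0 = (![u, v] : Fin 2 → Ω) 1 := sub_eq_zero.mp h0
    exact absurd (h.injective h1) (by decide)
  fin_cases j <;> simp [pk, pa, pb, XV.eS, XV.eT, u0, u1, v0, v1, uv]

theorem mo_ne {Ω : Type} [Field Ω] {u v : Ω} (h : ∀ k, pk u v k ≠ 0) (e : Fin 10 → ℕ) :
    mo u v e ≠ 0 :=
  Finset.prod_ne_zero_iff.mpr fun k _ => pow_ne_zero _ (h k)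

namespace FinC_

theorem le_mdeg (e : Fin 10 → ℕ) (k : Fin 10) : e k ≤ XV.mdeg e (XV.eS k) := by
  unfold XV.mdeg
  have h := Finset.single_le_sum (f := fun k' => if XV.eS k' = XV.eS k ∨ XV.eT k' = XV.eS k
    then e k' else 0) (fun _ _ => Nat.zero_le _) (Finset.mem_univ k)
  simpa using h

theorem mon_finite (d : Fin 5 → ℕ) : {e | Mon d e}.Finite := by
  refine (Set.finite_Iic (fun k => d (XV.eS k))).subset ?_
  intro e he k
  have h := le_mdeg e k
  rwa [he] at h

end FinC_

/-- maximal monomials exist -/
theorem exists_top {Ω : Type} [Field Ω] {u v : Ω} (V : ValuationSubring Ω) (d : Fin 5 → ℕ) (hd : ∃ e, Mon d e) : ∃ e, Top u v V d e := by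
  obtain ⟨e, he, hmax⟩ := Set.exists_max_image {e | Mon d e} (fun e => V.valuation (mo u v e))
    (FinC_.mon_finite d) hd
  refine ⟨e, he, fun e' he' => ?_⟩
  rw [← ValuationSubring.valuation_le_one_iff, map_div₀]
  exact div_le_one_of_le₀ (hmax e' he') zero_le

theorem mon_four : Mon (fun _ => 4) (fun _ => 1) := by
  intro i
  fin_cases i <;> decide

theorem mon_chi (j : Fin 10) : Mon (fun i => 4 + chi j i) (fun k => if k = j then 2 else 1) := by
  intro i
  unfold chi
  revert i j
  decide

/-- maximal monomials exist: the class `L` -/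
theorem exists_top4 {Ω : Type} [Field Ω] {u v : Ω} (V : ValuationSubring Ω) : ∃ e, Top u v V (fun _ => 4) e :=
  exists_top V _ ⟨_, mon_four⟩

/-- maximal monomials exist: the class `L + D_j` -/
theorem exists_topj {Ω : Type} [Field Ω] {u v : Ω} (V : ValuationSubring Ω) (j : Fin 10) : ∃ e, Top u v V (fun i => 4 + chi j i) e :=
  exists_top V _ ⟨_, mon_chi j⟩

end Pool.Agent.SFB
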