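import Pool.Agent.SFB.StmtsT
import Pool.Agent.SFB.FinC

/-!
# CRC: poles in one tube, zeros in a crossing tube
-/

set_option autoImplicit false

noncomputable section

namespace Pool.Agent.SFB

open scoped Classical
open Pool.Agent.EN2 Pool.Agent.SRF Pool.Agent.DIS IsLocalRing

namespace CRC_

/-! ### sizes -/

section size

variable {Ω : Type} [Field Ω] (V : ValuationSubring Ω)

theorem mem_div {a b : Ω} (hb : b ≠ 0) : a / b ∈ V ↔ V.valuation a ≤ V.valuation b := by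
  rw [← ValuationSubring.valuation_le_one_iff, map_div₀]
  have h : 0 < V.valuation b := zero_lt_iff.mpr ((Valuation.ne_zero_iff _).mpr hb)
  exact div_le_one₀ h

theorem sim_val {a b : Ω} (h : Sim V a b) : V.valuation a = V.valuation b :=
  le_antisymm ((mem_div V h.1).mp h.2.1) ((mem_div V h.2.2.2).mp h.2.2.1)

theorem core (A ρ σ r : Ω) (n₀ N s : ℕ) (hσ0 : σ ≠ 0) (hρ : V.valuation ρ ≤ 1)
    (hσ : V.valuation σ = V.valuation (A ^ n₀ * ρ))
    (hr : V.valuation r ≤ V.valuation A ^ N * V.valuation ρ ^ s) (hN : N ≤ n₀ * s) :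
    r ^ n₀ / σ ^ N ∈ V := by
  rw [mem_div V (pow_ne_zero _ hσ0), map_pow, map_pow, hσ, map_mul, map_pow]
  calc V.valuation r ^ n₀ ≤ (V.valuation A ^ N * V.valuation ρ ^ s) ^ n₀ :=
        pow_le_pow_left₀ zero_le hr n₀
    _ = (V.valuation A ^ n₀) ^ N * V.valuation ρ ^ (n₀ * s) := by
        rw [mul_pow, ← pow_mul, ← pow_mul, ← pow_mul, mul_comm N n₀, mul_comm s n₀]
    _ ≤ (V.valuation A ^ n₀) ^ N * V.valuation ρ ^ N :=
        mul_le_mul_right (pow_le_pow_of_le_one zero_le hρ hN) _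
    _ = (V.valuation A ^ n₀ * V.valuation ρ) ^ N := by rw [mul_pow]

/-- the case of a valuation ring on the curve -/
theorem on_case (A ρ r r' : Ω) (N q s : ℕ) (hA : A ≠ 0) (hρ : ρ ≠ 0) (hr' : r' ≠ 0)
    (h1 : r * r' / A ^ (N + q) ∈ V) (h2 : A ^ q / (r' * ρ ^ s) ∈ V) :
    V.valuation r ≤ V.valuation A ^ N * V.valuation ρ ^ s := by
  rw [mem_div V (pow_ne_zero _ hA), map_mul, map_pow] at h1
  rw [mem_div V (mul_ne_zero hr' (pow_ne_zero _ hρ)), map_mul, map_pow, map_pow] at h2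
  have hA' : 0 < V.valuation A ^ q :=
    pow_pos (zero_lt_iff.mpr ((Valuation.ne_zero_iff _).mpr hA)) q
  refine le_of_mul_le_mul_right ?_ hA'
  calc V.valuation r * V.valuation A ^ q ≤
        V.valuation r * (V.valuation r' * V.valuation ρ ^ s) := mul_le_mul_right h2 _
    _ = (V.valuation r * V.valuation r') * V.valuation ρ ^ s := by rw [mul_assoc]
    _ ≤ V.valuation A ^ (N + q) * V.valuation ρ ^ s := mul_le_mul_left h1 _
    _ = V.valuation A ^ N * V.valuation ρ ^ s * V.valuation A ^ q := by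
        rw [pow_add, mul_assoc, mul_assoc, mul_comm (V.valuation A ^ q)]

end size

/-! ### sections -/

section sec

variable (T : NUM.Sf)

theorem H_nonneg (O : T.P) : 0 ≤ T.H O := le_max_left _ _

theorem ww_mul {S : Set T.P} {n d : ℕ} {h f : T.F} (hh : h ∈ T.L (fun e => d * T.H e))
    (hf : f ∈ T.WW S n) : h * f ∈ T.WW S (n + d) := by
  by_cases h0 : h = 0
  · rw [h0, zero_mul]; exact zero_mem _
  by_cases f0 : f = 0
  · rw [f0, mul_zero]; exact zero_mem _
  right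
  intro O hO
  have h1 : -((d : ℤ) * T.H O) ≤ T.o O h := hh.resolve_left h0 O
  have h2 : -((n : ℤ) * T.H O) ≤ T.o O f := hf.resolve_left f0 O hO
  have h3 : T.o O (h * f) = T.o O h + T.o O f := O.isOrd.mul _ _ h0 f0
  rw [h3]
  push_cast
  nlinarith

theorem wz_mul {S S' : Set T.P} {n q : ℕ} {g f : T.F} (hf : f ∈ T.WZ S S' n q)
    (hg : g ∈ T.WW S' q) (hg0 : g ≠ 0) : f * g ∈ T.WW S (n + q) := by
  by_cases f0 : f = 0
  · rw [f0, zero_mul]; exact zero_mem _
  right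
  intro O hO
  have h3 : T.o O (f * g) = T.o O f + T.o O g := O.isOrd.mul _ _ f0 hg0
  rw [h3]
  by_cases hO' : O ∈ S'
  · have h1 := (hf.2 g hg hg0).resolve_left f0 O hO'
    linarith
  · have h1 : -((n : ℤ) * T.H O) ≤ T.o O f := hf.1.resolve_left f0 O hO
    have h2 : -((q : ℤ) * T.H O) ≤ T.o O g := hg.resolve_left hg0 O hO'
    push_cast
    nlinarith

theorem one_mem_L (d : ℕ) : (1 : T.F) ∈ T.L (fun e => d * T.H e) := by
  right
  intro O
  have h1 : ord O.1 (1 : T.F) = 0 := O.isOrd.one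
  rw [h1]
  have h2 := mul_nonneg (Int.natCast_nonneg d) (H_nonneg T O)
  change -((d : ℤ) * T.H O) ≤ 0
  linarith

/-- the shape of the twisted multiples -/
theorem tw_shape {k₁ : T.k} {f g b : T.F} {d : ℕ} (hb : b ∈ T.L (fun e => d * T.H e))
    (hg : g = k₁ • f ∨ g = k₁ • (b * f)) :
    ∃ h ∈ T.L (fun e => d * T.H e), g = k₁ • (h * f) := by
  rcases hg with h | h
  · exact ⟨1, one_mem_L T d, by rw [one_mul]; exact h⟩
  · exact ⟨b, hb, h⟩

theorem tw_ww {S S' : Set T.P} {n q d : ℕ} {k₁ : T.k} {f g b : T.F}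
    (hb : b ∈ T.L (fun e => d * T.H e)) (hf : f ∈ T.WZ S S' n q)
    (hg : g = k₁ • f ∨ g = k₁ • (b * f)) : g ∈ T.WW S (n + d) := by
  obtain ⟨h, hh, rfl⟩ := tw_shape T hb hg
  exact Submodule.smul_mem _ _ (ww_mul T hh hf.1)

theorem tw_wz {S S' : Set T.P} {n q d : ℕ} {k₁ : T.k} {f g b g' : T.F}
    (hb : b ∈ T.L (fun e => d * T.H e)) (hf : f ∈ T.WZ S S' n q)
    (hg : g = k₁ • f ∨ g = k₁ • (b * f)) (hg' : g' ∈ T.WW S' q) (h0 : g' ≠ 0) :
    g * g' ∈ T.WW S (n + d + q) := by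
  obtain ⟨h, hh, rfl⟩ := tw_shape T hb hg
  have h1 : (k₁ • (h * f)) * g' = k₁ • (h * (f * g')) := by
    rw [smul_mul_assoc, mul_assoc]
  have h2 : n + d + q = n + q + d := by ring
  rw [h1, h2]
  exact Submodule.smul_mem _ _ (ww_mul T hh (wz_mul T hf hg' h0))

end sec

/-! ### planes -/

theorem PF_div {k Ω : Type} [Field k] [Field Ω] [Algebra k Ω] (σ : Fin 3 → Ω) {l : Ω}
    (hl : l ≠ 0) : PF k (fun i => σ i / l) = PF k σ := by
  unfold PF
  rw [div_div_div_cancel_right₀ hl, div_div_div_cancel_right₀ hl]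

theorem IsPl_div {k Ω : Type} [Field k] [Field Ω] [Algebra k Ω] {σ : Fin 3 → Ω} {l : Ω}
    (hl : l ≠ 0) (h : IsPl k σ) : IsPl k (fun i => σ i / l) := by
  refine ⟨fun i => div_ne_zero (h.ne i) hl, ?_⟩
  rw [div_div_div_cancel_right₀ hl, div_div_div_cancel_right₀ hl]
  exact h.indep

section surface

variable {p : ℕ} [Fact p.Prime] {J : Type} {E : FRM.Eqs p XV.N J} (T : ExactSurf E)

theorem deg_ge (hDEG : Stmt_DEG) (c : Comp T.O T.x T.y) {u v l : ResidueField c.1.W}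
    (hF : Fv T c u v l) :
    20 ≤ (PF (ResidueField T.O) (xi T.O T.x T.y c.1)).relfinrank (UV u v (ResidueField T.O)) := by
  have h := hDEG (ResidueField T.O) (ResidueField c.1.W) u v hF.ind
    (fun i => xi T.O T.x T.y c.1 i / l) hF.free (IsPl_div hF.l_ne hF.pl)
  rwa [PF_div _ hF.l_ne] at h

/-- the reductions of the twisted multiples of `WZ` are small -/
theorem small (hREG : Stmt_REG) (hRHO : Stmt_RHO) {i j : Fin 10}
    (c : Comp T.O T.x T.y) {u v l : ResidueField c.1.W} (hF : Fv T c u v l)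
    (V : ValuationSubring (ResidueField c.1.W)) (hcv : Curve u v (ResidueField T.O) V)
    (hi : ¬ On u v V i) {e e' : Fin 10 → ℕ} (he : Top u v V (fun _ => 4) e)
    (he' : Top u v V (fun i => 4 + chi j i) e') (N q s : ℕ) (g : T.F)
    (hgB : Bd T.O T.x T.y g) (hg1 : g ∈ (sf T).WW {e | T.Tub i e} N)
    (hg2 : On u v V j → ∃ g' : T.F, Bd T.O T.x T.y g' ∧ c.1.res g' ≠ 0 ∧
      g * g' ∈ (sf T).WW {e | T.Tub i e} (N + q) ∧
      (l * mo u v e) ^ q / (c.1.res g' * rho u v j e e' ^ s) ∈ V) :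
    V.valuation (c.1.res g) ≤ V.valuation (l * mo u v e) ^ N *
      V.valuation (rho u v j e e') ^ s := by
  have hpk := pk_ne hF.ind
  have hA : l * mo u v e ≠ 0 := mul_ne_zero hF.l_ne (mo_ne hpk e)
  have hρ : rho u v j e e' ≠ 0 :=
    div_ne_zero (mul_ne_zero (hpk j) (mo_ne hpk e)) (mo_ne hpk e')
  by_cases hj : On u v V j
  · obtain ⟨g', h1, h2, h3, h4⟩ := hg2 hj
    have h5 : c.1.res (g * g') = c.1.res g * c.1.res g' := c.1.res_mul (hgB c) (h1 c)
    have h6 : Bd T.O T.x T.y (g * g') := fun c' => mul_mem (hgB c') (h1 c')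
    have h7 := (hREG p J E T c u v l hF V hcv.kv e he (N + q) (g * g') h6).2 i hi h3
    rw [h5] at h7
    exact on_case V _ _ _ _ N q s hA hρ h2 h7 h4
  · have h1 := sim_val V ((hRHO _ u v hpk V j e e' he he').2 hj)
    rw [map_one] at h1
    rw [h1, one_pow, mul_one]
    have h7 := (hREG p J E T c u v l hF V hcv.kv e he N g hgB).2 i hi hg1
    rwa [mem_div V (pow_ne_zero _ hA), map_pow] at h7

end surface

end CRC_

theorem crc_proof (hRED : Stmt_RED) (hDEG : Stmt_DEG) (hFIV : Stmt_FIV) (hREG : Stmt_REG)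
    (hINT : Stmt_INT) (hPLC : Stmt_PLC) (hFUL : Stmt_FUL) (hRHO : Stmt_RHO) (hPFI : Stmt_PFI)
    (_hCRV : Stmt_CRV) : Stmt_CRC := by
  intro p _ J E hE T hT i j hij
  obtain ⟨d, b, hb, hred⟩ := hRED T.K T.O T.arch T.dvr T.F T.x T.y T.surf
  refine ⟨d, fun m hm => ?_⟩
  obtain ⟨q₀, hq₀⟩ := hFUL p J E hE T hT j m hm
  refine ⟨q₀, fun n q hq n₀ hn₀ hn => ?_⟩
  have hfiv := hFIV p J E hE T
  choose u v l hF using hfiv
  obtain ⟨-, ⟨c₀⟩, -⟩ := hPFI T.K T.O T.arch T.F T.x T.y T.surf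
  have hplc := fun c : Comp T.O T.x T.y => hPLC (ResidueField T.O) (ResidueField c.1.W)
    (u c) (v c) (l c) (hF c).ind (hF c).l_ne (hF c).lmem i j hij n₀ hn₀
  choose σ hσ1 hσ2 hσ3 hσ4 using hplc
  have h := hred (GX T) (by
      intro g hg c
      obtain ⟨k, -, rfl⟩ := Finset.mem_image.mp hg
      exact (hF c).mem k)
    (fun c => ⟨(hF c).rf ▸ (hF c).xmem, (hF c).rf ▸ (hF c).ymem⟩)
    σ hσ1 (fun c k => (hF c).rf ▸ hσ2 c k) 20 (24 * n₀ ^ 2 - 8 * n₀)
    (fun c => by rw [(hF c).rf]; exact CRC_.deg_ge T hDEG c (hF c))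
    (fun c => by rw [(hF c).rf]; have := hσ3 c; omega)
    (n + d) n₀ hn₀ ((sf T).WZ {e | T.Tub i e} {e | T.Tub j e} n q)
    (by
      rintro c g ⟨hgB, κ, f, hf, hgf⟩
      refine hINT (ResidueField T.O) (ResidueField c.1.W) (σ c) (hσ1 c)
        (finC T.surf c (σ c) (hσ1 c)) (c.1.res g) (n + d) n₀ ?_
      intro V hV a ha
      obtain ⟨hcv, hi, hsim⟩ := hσ4 c V hV a ha
      obtain ⟨e, he⟩ := exists_top4 (u := u c) (v := v c) V
      obtain ⟨e', he'⟩ := exists_topj (u := u c) (v := v c) V j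
      have h1 := hsim e e' he he'
      have hbc : b c ∈ (sf T).L (fun e => d * (sf T).H e) := hb.sec c
      have hsmall := CRC_.small T hREG hRHO c (hF c) V hcv hi he he' (n + d) q (2 * q - q / m) g
        hgB (CRC_.tw_ww (sf T) hbc hf hgf) (fun hj => by
          obtain ⟨g', hg'1, hg'2, hg'3, hg'4⟩ := hq₀ q hq c (u c) (v c) (l c) (hF c) V hcv hj
          have hg0 : g' ≠ 0 := c.1.ne_zero_of_res hg'3
          exact ⟨g', hg'2, hg'3, CRC_.tw_wz (sf T) hbc hf hgf hg'1 hg0, hg'4 e e' he he'⟩)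
      exact CRC_.core V _ _ _ _ n₀ (n + d) (2 * q - q / m) h1.2.2.2
        ((ValuationSubring.valuation_le_one_iff _ _).mpr
          (hRHO _ (u c) (v c) (pk_ne (hF c).ind) V j e e' he he').1)
        (CRC_.sim_val V h1) hsmall hn)
    c₀ ⊥ inferInstance (by
      intro z hz
      rw [Submodule.mem_bot] at hz
      subst hz
      refine ⟨zero_mem _, fun a => ?_⟩
      rw [zero_pow (by omega), zero_div]
      exact isIntegral_zero) (by
      intro f _ _ hf0
      exact (Submodule.mem_bot _).mp hf0)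
  have h2 := h.2
  rw [finrank_bot, add_zero] at h2
  exact h2

end Pool.Agent.SFB
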