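import Pool.Agent.SFB.GenC

/-!
# Special fibre bounds: zeros in one tube
-/

set_option autoImplicit false

noncomputable section

namespace Pool.Agent.SFB

open scoped Classical
open Pool.Agent.EN2 Pool.Agent.SRF Pool.Agent.DIS IsLocalRing

theorem crz_proof (hRED : Stmt_RED) (hDEG : Stmt_DEG) (hFIV : Stmt_FIV) (hREG : Stmt_REG)
    (hINT : Stmt_INT) (hPLZ : Stmt_PLZ) (hFUL : Stmt_FUL) (hRHO : Stmt_RHO) (hPFI : Stmt_PFI)
    (_hCRV : Stmt_CRV) : Stmt_CRZ := by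
  intro p _ J E hE T hT j
  haveI hk : IsAlgClosed (ResidueField T.O) := GenC_.ac T.O
  obtain ⟨d, hd⟩ := GenC_.gen hRED hDEG hFIV hINT hFUL hRHO hPFI hE T hT ∅ j
  refine ⟨d, fun m hm => ?_⟩
  obtain ⟨q₀, hq₀⟩ := hd m hm
  refine ⟨q₀, fun n q hq n₀ hn₀ hineq => ?_⟩
  refine hq₀ n q hq n₀ (20 * n₀ ^ 2 - 4 * n₀) hn₀ ?_ hineq
  intro c u v l hF
  obtain ⟨σ, h1, h2, h3, h4⟩ := hPLZ _ _ u v l hF.ind hF.l_ne hF.lmem j n₀ hn₀
  refine ⟨σ, h1, h2, by omega, fun V hV i hi => ?_⟩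
  obtain ⟨h5, h6⟩ := h4 V hV i hi
  exact ⟨h5, fun e he n g hg hgW => (hREG p J E T c u v l hF V h5.kv e he n g hg).1 hgW, h6⟩

end Pool.Agent.SFB
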