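import Pool.Agent.SFB.StmtsT
import Pool.Agent.SRF.Stmts

/-!
# SFB, module DJT: a curve is in at most one tube
-/

set_option autoImplicit false

noncomputable section

namespace Pool.Agent.SFB

open scoped Classical
open Pool.Agent.EN2 Pool.Agent.SRF Pool.Agent.DIS IsLocalRing

namespace DJT_

variable {K : Type} [Field K] {O : ValuationSubring K} {F : Type} [Field F] [Algebra K F]

theorem exists_max (x y : F) (V : ValuationSubring F) :
    ∃ a : Fin 3, z x y a ≠ 0 ∧ ∀ b, z x y b / z x y a ∈ V := by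
  obtain ⟨a, ha⟩ := Finite.exists_max (fun i : Fin 3 => V.valuation (z x y i))
  have h0 : z x y a ≠ 0 := by
    intro h
    have h1 := ha 0
    rw [h, map_zero] at h1
    have h2 : z x y 0 = 1 := rfl
    rw [h2, map_one] at h1
    exact absurd h1 (by simp)
  refine ⟨a, h0, fun b => ?_⟩
  rw [← V.valuation_le_one_iff, map_div₀]
  exact div_le_one_of_le₀ (ha b) zero_le

theorem small_res (W : Pl O F) {x y : F} {a : Fin 3} (ha0 : z x y a ≠ 0)
    (ha : ∀ b, z x y b / z x y a ∈ W.W) {f : F} (h : Small x y W.W f) :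
    W.res (f / z x y a) = 0 := by
  obtain ⟨i, hi0, hi⟩ := h
  have h1 : f / z x y a = (z x y i / z x y a) * (f / z x y i) := by
    field_simp
  rw [h1]
  exact W.res_nonunit (W.nonunit_mul (ha i) hi)

theorem res_sum (W : Pl O F) {ι : Type} (s : Finset ι) (f : ι → F) (hf : ∀ i ∈ s, f i ∈ W.W) :
    W.res (∑ i ∈ s, f i) = ∑ i ∈ s, W.res (f i) := by
  induction s using Finset.induction_on with
  | empty => simp
  | insert a s ha ih =>
    rw [Finset.sum_insert ha, Finset.sum_insert ha, W.res_add (hf a (Finset.mem_insert_self a s))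
      (sum_mem fun i hi => hf i (Finset.mem_insert_of_mem hi)),
      ih fun i hi => hf i (Finset.mem_insert_of_mem hi)]

/-- If `ζ` is in all valuation rings over `K` contained in `e`, then it is algebraic modulo the
maximal ideal of `e`. -/
theorem alg_of_forall (e : ValuationSubring F) (hK : ∀ a : K, algebraMap K F a ∈ e) (ζ : F)
    (h : ∀ U : ValuationSubring F, (∀ a : K, algebraMap K F a ∈ U) → U ≤ e → ζ ∈ U) :
    ∃ q : Polynomial K, q ≠ 0 ∧ Polynomial.aeval ζ q ∈ e.nonunits := by
  have hζ : ζ ∈ e := h e hK le_rfl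
  set s : Set F := Set.range (algebraMap K F) ∪ (e.nonunits : Set F) with hs
  have h1 : ζ ∈ (⨅ V : {V : ValuationSubring F // s ⊆ V.toSubring}, V.1.toSubring) := by
    rw [Subring.mem_iInf]
    rintro ⟨V, hV⟩
    have hVK : ∀ a : K, algebraMap K F a ∈ V := fun a => hV (Or.inl ⟨a, rfl⟩)
    by_cases hle : V ≤ e
    · exact h V hVK hle
    · obtain ⟨x, hxV, hxe⟩ := SetLike.not_le_iff_exists.1 hle
      have hx0 : x ≠ 0 := by
        rintro rfl
        exact hxe (zero_mem _)
      have hxn : x⁻¹ ∈ e.nonunits := by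
        rw [ValuationSubring.mem_nonunits_iff_or]
        right
        rwa [inv_inv]
      have h2 : x⁻¹ * ζ ∈ V := by
        apply hV
        right
        have h3 : e.valuation (x⁻¹ * ζ) < 1 := by
          rw [map_mul]
          exact mul_lt_one_of_lt_of_le ((e.mem_nonunits_iff).1 hxn)
            ((e.valuation_le_one_iff ζ).2 hζ)
        exact h3
      have h3 := mul_mem hxV h2
      rwa [← mul_assoc, mul_inv_cancel₀ hx0, one_mul] at h3
  rw [iInf_valuationSubring_superset] at h1
  -- the elements of the closure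
  have hcl : ∀ c ∈ Subring.closure s, ∃ a : K, c - algebraMap K F a ∈ e.nonunits := by
    intro c hc
    induction hc using Subring.closure_induction with
    | mem x hx =>
      rcases hx with ⟨a, rfl⟩ | hx
      · exact ⟨a, by rw [sub_self]; exact e.mem_nonunits_iff.2 (by simp)⟩
      · exact ⟨0, by rw [map_zero, sub_zero]; exact hx⟩
    | zero => exact ⟨0, by rw [map_zero, sub_zero]; exact e.mem_nonunits_iff.2 (by simp)⟩
    | one => exact ⟨1, by rw [map_one, sub_self]; exact e.mem_nonunits_iff.2 (by simp)⟩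
    | add x y _ _ hx hy =>
      obtain ⟨a, ha⟩ := hx
      obtain ⟨b, hb⟩ := hy
      refine ⟨a + b, ?_⟩
      rw [ValuationSubring.mem_nonunits_iff] at ha hb ⊢
      have h2 : x + y - algebraMap K F (a + b) =
          (x - algebraMap K F a) + (y - algebraMap K F b) := by
        rw [map_add]; ring
      rw [h2]
      exact lt_of_le_of_lt (e.valuation.map_add _ _) (max_lt ha hb)
    | neg x _ hx =>
      obtain ⟨a, ha⟩ := hx
      refine ⟨-a, ?_⟩
      rw [ValuationSubring.mem_nonunits_iff] at ha ⊢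
      have h2 : -x - algebraMap K F (-a) = -(x - algebraMap K F a) := by
        rw [map_neg]; ring
      rw [h2, Valuation.map_neg]
      exact ha
    | mul x y _ _ hx hy =>
      obtain ⟨a, ha⟩ := hx
      obtain ⟨b, hb⟩ := hy
      refine ⟨a * b, ?_⟩
      rw [ValuationSubring.mem_nonunits_iff] at ha hb ⊢
      have h2 : x * y - algebraMap K F (a * b) =
          (x - algebraMap K F a) * (y - algebraMap K F b) +
          (algebraMap K F a * (y - algebraMap K F b) +
            (x - algebraMap K F a) * algebraMap K F b) := by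
        rw [map_mul]; ring
      have hA := (e.valuation_le_one_iff _).2 (hK a)
      have hB := (e.valuation_le_one_iff _).2 (hK b)
      rw [h2]
      refine lt_of_le_of_lt (e.valuation.map_add _ _) (max_lt ?_ ?_)
      · rw [map_mul]
        exact mul_lt_one_of_lt_of_le ha hb.le
      · refine lt_of_le_of_lt (e.valuation.map_add _ _) (max_lt ?_ ?_)
        · rw [map_mul, mul_comm]
          exact mul_lt_one_of_lt_of_le hb hA
        · rw [map_mul]
          exact mul_lt_one_of_lt_of_le ha hB
  obtain ⟨P, hPm, hP⟩ := h1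
  choose! φ hφ using fun c : Subring.closure s => hcl c c.2
  -- the reduced polynomial
  set n := P.natDegree with hn
  let q : Polynomial K := Polynomial.X ^ n +
    ∑ i ∈ Finset.range n, Polynomial.C (φ (P.coeff i)) * Polynomial.X ^ i
  have hqdeg : (∑ i ∈ Finset.range n, Polynomial.C (φ (P.coeff i)) * Polynomial.X ^ i).degree <
      (n : WithBot ℕ) := by
    rw [Polynomial.degree_lt_iff_coeff_zero]
    intro m hm
    rw [Polynomial.finsetSum_coeff]
    refine Finset.sum_eq_zero fun i hi => ?_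
    rw [Polynomial.coeff_C_mul_X_pow, if_neg]
    have h5 := Finset.mem_range.1 hi
    omega
  refine ⟨q, ?_, ?_⟩
  · exact (Polynomial.monic_X_pow_add hqdeg).ne_zero
  · have h2 : Polynomial.aeval ζ q = Polynomial.aeval ζ q - Polynomial.eval₂ (algebraMap _ F) ζ P := by
      rw [hP, sub_zero]
    have h3 : Polynomial.eval₂ (algebraMap (Subring.closure s) F) ζ P =
        ζ ^ n + ∑ i ∈ Finset.range n, ((P.coeff i : Subring.closure s) : F) * ζ ^ i := by
      rw [Polynomial.eval₂_eq_sum_range, Finset.sum_range_succ, add_comm]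
      congr 1
      rw [← hn]
      have h4 : P.coeff n = 1 := hPm
      rw [h4, map_one, one_mul]
    have h4 : Polynomial.aeval ζ q =
        ζ ^ n + ∑ i ∈ Finset.range n, algebraMap K F (φ (P.coeff i)) * ζ ^ i := by
      simp [q, map_sum]
    rw [h2, h3, h4, add_sub_add_left_eq_sub, ← Finset.sum_sub_distrib,
      ValuationSubring.mem_nonunits_iff]
    refine Valuation.map_sum_lt _ one_ne_zero fun i _ => ?_
    rw [← sub_mul, map_mul, map_pow]
    have h5 := hφ (P.coeff i)
    rw [ValuationSubring.mem_nonunits_iff, Valuation.map_sub_swap] at h5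
    exact mul_lt_one_of_lt_of_le h5 (pow_le_one₀ zero_le ((e.valuation_le_one_iff ζ).2 hζ))

end DJT_

open DJT_

theorem djt_proof (hNOM : Stmt_NOM) (_hSML : Stmt_SML) (hXPL : Stmt_XPL) (hSLW : Stmt_SLW)
    (hPTC : Stmt_PTC) (hNAL : Pool.Agent.SRF.Stmt_NAL) (hAX3 : Pool.Agent.SRF.Stmt_AX3)
    (hCEN : Pool.Agent.SRF.Stmt_CEN) (_hTHC : Pool.Agent.SRF.Stmt_THC) : Stmt_DJT := by
  intro p _ J E hE T i j hij e hi hj
  have hK : ∀ a : T.K, algebraMap T.K T.F a ∈ e.1 := by
    intro a
    obtain ⟨-, m, hm, -⟩ := e.2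
    apply hm
    exact (integralClosure (base T.K T.x T.y m) T.F).algebraMap_mem
      ⟨algebraMap T.K T.F a, (base T.K T.x T.y m).algebraMap_mem a⟩
  by_cases hd : XV.Disj i j
  · obtain ⟨ε, hε⟩ := hPTC i j hd
    obtain ⟨l0, h0⟩ := T.lin0
    obtain ⟨lx, hx⟩ := T.linx
    obtain ⟨ly, hy⟩ := T.liny
    let lb : Fin 3 → Fin (XV.N + 1) → T.O := ![l0, lx, ly]
    have hlb : ∀ b, z T.x T.y b = ∑ m, (lb b m : T.K) • T.X m := by
      intro b
      fin_cases b
      · exact h0
      · exact hx
      · exact hy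
    let θ : Fin 3 → ResidueField T.O := fun b => ∑ m, residue T.O (lb b m) * (ε (XV.pt m) : _)
    have key : ∀ (W : Pl T.O T.F), W.W ≤ e.1 → ∀ a, z T.x T.y a ≠ 0 →
        (∀ b, z T.x T.y b / z T.x T.y a ∈ W.W) → ∃ t : ResidueField W.W, ∀ b,
        W.res (z T.x T.y b / z T.x T.y a) =
          algebraMap (ResidueField T.O) (ResidueField W.W) (θ b) * t := by
      intro W hW a ha0 ha
      obtain ⟨hmem, hsol, hw, -, -⟩ := hSLW p J E hE T W a ha0 ha
      obtain ⟨t, ht⟩ := hε (ResidueField W.W) _ hsol hw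
        (fun c hc => small_res W ha0 ha (hi W hW _ (by
          show 1 ≤ (XV.pt (XV.pt.symm c)).e i
          rw [Equiv.apply_symm_apply]
          exact hc)))
        (fun c hc => small_res W ha0 ha (hj W hW _ (by
          show 1 ≤ (XV.pt (XV.pt.symm c)).e j
          rw [Equiv.apply_symm_apply]
          exact hc)))
      refine ⟨t, fun b => ?_⟩
      have h1 : z T.x T.y b / z T.x T.y a =
          ∑ m, (lb b m : T.K) • (T.X m / z T.x T.y a) := by
        rw [hlb b, Finset.sum_div]
        refine Finset.sum_congr rfl fun m _ => ?_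
        rw [Algebra.smul_def, Algebra.smul_def, mul_div_assoc]
      rw [h1, res_sum W _ _ fun m _ => W.smul_mem (lb b m).2 (hmem m)]
      have h2 : ∀ m, W.res ((lb b m : T.K) • (T.X m / z T.x T.y a)) =
          algebraMap (ResidueField T.O) (ResidueField W.W)
            (residue T.O (lb b m) * (ε (XV.pt m) : _)) * t := by
        intro m
        rw [W.res_smul (lb b m).2 (hmem m)]
        have h3 := ht (XV.pt m)
        rw [Equiv.symm_apply_apply] at h3
        rw [h3, map_mul, map_intCast]
        ring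
      rw [Finset.sum_congr rfl fun m _ => h2 m, ← Finset.sum_mul, ← map_sum]
    have hθ : ∀ (W : Pl T.O T.F), W.W ≤ e.1 → ∀ a, z T.x T.y a ≠ 0 →
        (∀ b, z T.x T.y b / z T.x T.y a ∈ W.W) → ∀ b, θ b ≠ 0 →
        W.res (z T.x T.y b / z T.x T.y a) ≠ 0 := by
      intro W hW a ha0 ha b hb
      obtain ⟨t, ht⟩ := key W hW a ha0 ha
      have h1 := ht a
      rw [div_self ha0, W.res_one] at h1
      have ht0 : t ≠ 0 := by
        rintro rfl
        rw [mul_zero] at h1
        exact one_ne_zero h1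
      rw [ht b]
      exact mul_ne_zero (by rw [Ne, map_eq_zero]; exact hb) ht0
    -- a fixed chart
    obtain ⟨a₀, ha₀⟩ : ∃ a₀, θ a₀ ≠ 0 := by
      obtain ⟨W, hW⟩ := hXPL T.K T.O T.F e.1 hK
      obtain ⟨a, ha0, ha⟩ := exists_max T.x T.y W.W
      obtain ⟨t, ht⟩ := key W hW a ha0 ha
      refine ⟨a, fun h => ?_⟩
      have h1 := ht a
      rw [div_self ha0, W.res_one, h, map_zero, zero_mul] at h1
      exact one_ne_zero h1
    have hall : ∀ U : ValuationSubring T.F, (∀ a : T.K, algebraMap T.K T.F a ∈ U) → U ≤ e.1 →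
        ∀ b, z T.x T.y b / z T.x T.y a₀ ∈ U := by
      intro U hU hUe b
      obtain ⟨W, hW⟩ := hXPL T.K T.O T.F U hU
      obtain ⟨a, ha0, ha⟩ := exists_max T.x T.y W.W
      have h1 := hθ W (hW.trans hUe) a ha0 ha a₀ ha₀
      have h2 := W.div_mem (ha b) h1
      rw [div_div_div_cancel_right₀ ha0] at h2
      exact hW h2
    obtain ⟨b, hb⟩ := hNAL T.K T.F T.x T.y T.surf e a₀
      (((hCEN T.K T.F T.x T.y T.surf e.1 hK).2 a₀).2 (hall e.1 hK le_rfl))
    obtain ⟨q, hq, hqn⟩ := alg_of_forall e.1 hK _ fun U hU hUe => hall U hU hUe b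
    obtain ⟨h1, h2⟩ := hb q hq
    rcases (e.1.mem_nonunits_iff_or).1 hqn with h3 | h3
    · exact h1 h3
    · exact h3 h2
  · have h1 := hNOM p J E hE T i j hij hd e e hi hj
    have h2 : ∀ V : ValuationSubring T.F, (∀ c : T.K, algebraMap T.K T.F c ∈ V) →
      ¬ (thr T.K T.x T.y e.1 V ∧ thr T.K T.x T.y e.1 V) := h1
    have h3 := hAX3 T.K T.F T.x T.y T.surf e.1 hK e le_rfl
    exact h2 e.1 hK ⟨h3, h3⟩

end Pool.Agent.SFB
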