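import Pool.Agent.SFB.StmtsT

/-!
# Special fibre bounds, module DSJ: curves with a common index do not meet
-/

set_option autoImplicit false

noncomputable section

namespace Pool.Agent.SFB

open Pool.Agent.XV

namespace DSJ_

theorem mdeg0 (e : Fin 10 → ℕ) : mdeg e 0 = e 0 + (e 1 + (e 2 + e 3)) := by
  simp [mdeg, Fin.sum_univ_succ, eS, eT]

theorem mdeg1 (e : Fin 10 → ℕ) : mdeg e 1 = e 0 + (e 4 + (e 5 + e 6)) := by
  simp [mdeg, Fin.sum_univ_succ, eS, eT]

theorem mdeg2 (e : Fin 10 → ℕ) : mdeg e 2 = e 1 + (e 4 + (e 7 + e 8)) := by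
  simp [mdeg, Fin.sum_univ_succ, eS, eT]

theorem mdeg3 (e : Fin 10 → ℕ) : mdeg e 3 = e 2 + (e 5 + (e 7 + e 9)) := by
  simp [mdeg, Fin.sum_univ_succ, eS, eT]

theorem mdeg4 (e : Fin 10 → ℕ) : mdeg e 4 = e 3 + (e 6 + (e 8 + e 9)) := by
  simp [mdeg, Fin.sum_univ_succ, eS, eT]

/-- the degrees, written out -/
theorem deg_eqs (e : Fin 10 → ℕ) (h : ∀ i, mdeg e i = 4) :
    e 0 + e 1 + e 2 + e 3 = 4 ∧ e 0 + e 4 + e 5 + e 6 = 4 ∧ e 1 + e 4 + e 7 + e 8 = 4 ∧
    e 2 + e 5 + e 7 + e 9 = 4 ∧ e 3 + e 6 + e 8 + e 9 = 4 := by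
  have h0 := h 0
  have h1 := h 1
  have h2 := h 2
  have h3 := h 3
  have h4 := h 4
  rw [mdeg0] at h0
  rw [mdeg1] at h1
  rw [mdeg2] at h2
  rw [mdeg3] at h3
  rw [mdeg4] at h4
  refine ⟨?_, ?_, ?_, ?_, ?_⟩ <;> omega

theorem mdeg_add (e e' : Fin 10 → ℕ) (i : Fin 5) :
    mdeg (fun k => e k + e' k) i = mdeg e i + mdeg e' i := by
  unfold mdeg
  rw [← Finset.sum_add_distrib]
  refine Finset.sum_congr rfl fun k _ => ?_
  split_ifs <;> simp

theorem move (g : Pt) (hw : g.w = 0) (m n m' n' : Fin 10) (hmn : m ≠ n) (hm : 1 ≤ g.e m)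
    (hn : 1 ≤ g.e n)
    (hdeg : ∀ i, mdeg (ind m) i + mdeg (ind n) i = mdeg (ind m') i + mdeg (ind n') i) :
    (∀ k, g.e k = (g.e k - ind m k - ind n k) + ind m k + ind n k) ∧
    ∃ c : Pt, c.w = 0 ∧ ∀ k, c.e k = (g.e k - ind m k - ind n k) + ind m' k + ind n' k := by
  have h1 : ∀ k, g.e k = (g.e k - ind m k - ind n k) + ind m k + ind n k := by
    intro k
    unfold ind
    by_cases h1 : k = m
    · subst h1
      rw [if_pos rfl, if_neg hmn]
      omega
    · rw [if_neg h1]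
      by_cases h2 : k = n
      · subst h2
        rw [if_pos rfl]
        omega
      · rw [if_neg h2]
        omega
  refine ⟨h1, ⟨0, fun k => (g.e k - ind m k - ind n k) + ind m' k + ind n' k, ?_⟩, rfl, fun k => rfl⟩
  have hd : ∀ i, mdeg g.e i = 4 := by
    intro i
    have := g.adm.deg i
    rw [hw] at this
    omega
  refine ⟨?_, Nat.zero_le _, fun _ => Nat.zero_le _, fun _ => Nat.zero_le _,
    fun _ _ _ => Nat.zero_le _⟩
  intro i
  have h2 := hd i
  have h3 : g.e = fun k => ((g.e k - ind m k - ind n k) + ind m k) + ind n k := funext h1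
  rw [h3, mdeg_add, mdeg_add] at h2
  rw [mdeg_add, mdeg_add]
  have h4 := hdeg i
  omega

theorem base (hTri : XV.Stmt_Tri) {Ω : Type} [Field Ω] (s : Pt → Ω) (hs : IsSol s)
    (hw : ∀ c, 1 ≤ c.w → s c = 0) (h0 : ∀ c, 1 ≤ c.e 0 → s c = 0)
    (h1 : ∀ c, 1 ≤ c.e 1 → s c = 0) (g : Pt) (hg : s g ≠ 0) : False := by
  have gw : g.w = 0 := by
    by_contra h
    exact hg (hw g (Nat.one_le_iff_ne_zero.2 h))
  have g0 : g.e 0 = 0 := by
    by_contra h
    exact hg (h0 g (Nat.one_le_iff_ne_zero.2 h))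
  have g1 : g.e 1 = 0 := by
    by_contra h
    exact hg (h1 g (Nat.one_le_iff_ne_zero.2 h))
  obtain ⟨d0, d1, d2, d3, d4⟩ := deg_eqs g.e (fun i => by
    have := g.adm.deg i
    rw [gw] at this
    omega)
  have g4 : 1 ≤ g.e 4 := by omega
  have g23 : 1 ≤ g.e 2 ∨ 1 ≤ g.e 3 := by omega
  rcases g23 with g2 | g3
  · obtain ⟨k1, c, cw, hc⟩ := move g gw 2 4 0 7 (by decide) g2 g4 (by decide +kernel)
    obtain ⟨k2, c', cw', hc'⟩ := move g gw 2 4 1 5 (by decide) g2 g4 (by decide +kernel)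
    have h := hTri Ω s hs 0 1 2 3 (by decide) (by decide) (by decide)
      (fun k => g.e k - ind 2 k - ind 4 k) c c' g (by rw [cw, cw']) (by rw [gw, cw'])
      hc hc' k1
    have e1 : s c = 0 := h0 c (by
      rw [hc 0]
      show 1 ≤ _ + 1 + _
      omega)
    have e2 : s c' = 0 := h1 c' (by
      rw [hc' 1]
      show 1 ≤ _ + 1 + _
      omega)
    rw [e1, e2, zero_add] at h
    exact hg h.symm
  · obtain ⟨k1, c, cw, hc⟩ := move g gw 3 4 0 8 (by decide) g3 g4 (by decide +kernel)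
    obtain ⟨k2, c', cw', hc'⟩ := move g gw 3 4 1 6 (by decide) g3 g4 (by decide +kernel)
    have h := hTri Ω s hs 0 1 2 4 (by decide) (by decide) (by decide)
      (fun k => g.e k - ind 3 k - ind 4 k) c c' g (by rw [cw, cw']) (by rw [gw, cw'])
      hc hc' k1
    have e1 : s c = 0 := h0 c (by
      rw [hc 0]
      show 1 ≤ _ + 1 + _
      omega)
    have e2 : s c' = 0 := h1 c' (by
      rw [hc' 1]
      show 1 ≤ _ + 1 + _
      omega)
    rw [e1, e2, zero_add] at h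
    exact hg h.symm

/-- two edges with a common end are the images of `01` and `02` under a permutation -/
theorem perm : ∀ i j : Fin 10, i ≠ j → ¬ Disj i j →
    ∃ π : Equiv.Perm (Fin 5), pe π 0 = i ∧ pe π 1 = j := by
  decide +kernel

end DSJ_

open DSJ_ in
theorem dsj_proof (hTri : XV.Stmt_Tri) (hSym : XV.Stmt_Sym) : Stmt_DSJ := by
  intro Ω _ s hs hw ⟨c₀, hc₀⟩ i j hij hd hi hj
  obtain ⟨π, rfl, rfl⟩ := perm i j hij hd
  have h0 : ∀ c, s (act π c) = 0 → tws π s c = 0 := by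
    intro c h
    unfold tws
    rw [h, mul_zero]
  have hsg : ∀ c, IsUnit (sgn π c) := by
    intro c
    unfold sgn
    refine (IsUnit.prod_univ_iff).2 fun k => IsUnit.pow _ ?_
    unfold sg
    split_ifs
    · exact isUnit_one
    · exact isUnit_one.neg
  refine base hTri (tws π s) (hSym Ω s π hs) (fun c hc => h0 c (hw _ hc))
    (fun c hc => h0 c (hi _ ?_)) (fun c hc => h0 c (hj _ ?_)) (act π⁻¹ c₀) ?_
  · rw [act_e]
    exact hc
  · rw [act_e]
    exact hc
  · have h1 : act π (act π⁻¹ c₀) = c₀ := by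
      ext k
      · rfl
      · show c₀.e (pe π⁻¹⁻¹ (pe π⁻¹ k)) = c₀.e k
        rw [← pe_mul, inv_mul_cancel, pe_one]
    unfold tws
    rw [h1]
    refine mul_ne_zero ?_ hc₀
    rcases Int.isUnit_iff.1 (hsg (act π⁻¹ c₀)) with h | h
    · rw [h]
      simp
    · rw [h]
      simp

end Pool.Agent.SFB
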