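import Pool.Agent.SFB.StmtsT

/-!
# The five points on a component
-/

set_option autoImplicit false

noncomputable section

namespace Pool.Agent.SFB

open scoped Classical
open Pool.Agent.EN2 Pool.Agent.SRF Pool.Agent.DIS IsLocalRing

namespace FIV_

/-- the residue field of a valuation ring of an algebraically closed field -/
lemma ac {K : Type} [Field K] [IsAlgClosed K] (O : ValuationSubring K) :
    IsAlgClosed (ResidueField O) := by
  apply IsAlgClosed.of_exists_root
  intro q hq hirr
  obtain ⟨P, hP, hdeg, hmon⟩ := Polynomial.lifts_and_degree_eq_and_monic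
    ((Polynomial.mem_lifts _).mpr (Polynomial.map_surjective _ residue_surjective q)) hq
  have hd : P.degree ≠ 0 := by
    rw [hdeg]
    exact hirr.degree_pos.ne'
  have hd' : (P.map O.subtype).degree ≠ 0 := by
    rwa [hmon.degree_map]
  obtain ⟨x, hx⟩ := IsAlgClosed.exists_root _ hd'
  have hint : IsIntegral O x := ⟨P, hmon, by
    rw [Polynomial.IsRoot.def, Polynomial.eval_map] at hx
    exact hx⟩
  obtain ⟨y, hy⟩ := (IsIntegrallyClosed.isIntegral_iff (R := O) (K := K)).mp hint
  refine ⟨residue O y, ?_⟩
  have h1 : P.eval y = 0 := by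
    apply O.subtype_injective
    rw [map_zero, ← Polynomial.eval₂_hom, ← Polynomial.eval_map]
    have : O.subtype y = x := hy
    rw [this]
    exact hx
  rw [← hP, Polynomial.eval_map, Polynomial.eval₂_hom, h1, map_zero]

section mo

variable {k Ω : Type} [Field k] [Field Ω] [Algebra k Ω] {u v : Ω}

lemma u_mem : u ∈ UV u v k := IntermediateField.subset_adjoin _ _ (by simp)
lemma v_mem : v ∈ UV u v k := IntermediateField.subset_adjoin _ _ (by simp)

lemma pa_mem (i : Fin 5) : pa u v i ∈ UV u v k := by
  fin_cases i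
  · exact zero_mem _
  · exact one_mem _
  · exact one_mem _
  · exact u_mem
  · exact v_mem

lemma pb_mem (i : Fin 5) : pb (Ω := Ω) i ∈ UV u v k := by
  fin_cases i
  · exact one_mem _
  · exact one_mem _
  · exact zero_mem _
  · exact one_mem _
  · exact one_mem _

lemma pk_mem (i : Fin 10) : pk u v i ∈ UV u v k :=
  sub_mem (mul_mem (pa_mem _) (pb_mem _)) (mul_mem (pa_mem _) (pb_mem _))

lemma mo_mem (e : Fin 10 → ℕ) : mo u v e ∈ UV u v k :=
  prod_mem fun i _ => pow_mem (pk_mem i) _

end mo

/-- a maximal element with respect to a valuation ring -/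
lemma exists_max {F : Type} [Field F] (W : ValuationSubring F) (z : Fin 3 → F)
    (h : ∀ i, z i ≠ 0) : ∃ a, ∀ b, z b / z a ∈ W := by
  obtain ⟨a, ha⟩ := Finite.exists_max (fun i => W.valuation (z i))
  refine ⟨a, fun b => ?_⟩
  rw [← W.valuation_le_one_iff, map_div₀]
  have h0 : W.valuation (z a) ≠ 0 := (W.valuation.ne_zero_iff).2 (h a)
  exact div_le_one_of_le₀ (ha b) zero_le

end FIV_

theorem fiv_proof (hSLW : Stmt_SLW) (hGNS : Stmt_GNS) (hCPP : Stmt_CPP) (_hPFI : Stmt_PFI) :
    Stmt_FIV := by
  intro p _ J E hE T c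
  have hz0 : z T.x T.y 0 = 1 := rfl
  have hk : IsAlgClosed (ResidueField T.O) := FIV_.ac T.O
  have hzW : ∀ b, z T.x T.y b ∈ c.1.W := by
    intro b
    fin_cases b
    · exact one_mem _
    · exact c.2.memx
    · exact c.2.memy
  obtain ⟨h1, h2, h3, h4, h5⟩ := hSLW p J E hE T c.1 0 (by rw [hz0]; exact one_ne_zero)
    (fun b => by rw [hz0, div_one]; exact hzW b)
  simp only [hz0, div_one] at h1 h2 h3 h4 h5
  obtain ⟨c₀, hc₀⟩ := h4
  set s : XV.Pt → ResidueField c.1.W := fun c' => c.1.res (T.X (XV.pt.symm c')) with hs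
  have hsX : ∀ i, c.1.res (T.X i) = s (XV.pt i) := fun i => by
    rw [hs]; simp only [Equiv.symm_apply_apply]
  set M := IntermediateField.adjoin (ResidueField T.O) (Set.range fun c' => s c' / s c₀) with hM
  have hM1 : ∀ c', s c' / s c₀ ∈ M := fun c' => IntermediateField.subset_adjoin _ _ ⟨c', rfl⟩
  have hres : ∀ b, c.1.res (z T.x T.y b) = xi T.O T.x T.y c.1 b := by
    intro b
    fin_cases b
    · exact c.1.res_one
    · rfl
    · rfl
  have hlin : ∀ b, ∃ l : XV.Pt → ResidueField T.O, xi T.O T.x T.y c.1 b =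
      ∑ i, algebraMap (ResidueField T.O) (ResidueField c.1.W) (l (XV.pt i)) * s (XV.pt i) := by
    intro b
    obtain ⟨l, hl⟩ := h5 b
    refine ⟨l, ?_⟩
    rw [← hres, hl]
    exact Finset.sum_congr rfl fun i _ => by rw [hsX]
  have hinv : (s c₀)⁻¹ ∈ M := by
    obtain ⟨l, hl⟩ := hlin 0
    have hx0 : xi T.O T.x T.y c.1 0 = 1 := rfl
    rw [hx0] at hl
    have : (s c₀)⁻¹ = ∑ i, algebraMap (ResidueField T.O) (ResidueField c.1.W) (l (XV.pt i)) *
        (s (XV.pt i) / s c₀) := by
      rw [← one_div, hl, Finset.sum_div]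
      exact Finset.sum_congr rfl fun i _ => by rw [mul_div_assoc]
    rw [this]
    exact sum_mem fun i _ => mul_mem (M.algebraMap_mem _) (hM1 _)
  have hsM : ∀ c', s c' ∈ M := by
    intro c'
    have := mul_mem (hM1 c') (inv_mem hinv)
    rwa [inv_inv, div_mul_cancel₀ _ hc₀] at this
  have hxiM : ∀ b, xi T.O T.x T.y c.1 b ∈ M := by
    intro b
    obtain ⟨l, hl⟩ := hlin b
    rw [hl]
    exact sum_mem fun i _ => mul_mem (M.algebraMap_mem _) (hsM _)
  obtain ⟨u, v, l, hl0, hind, hsol, hu, hv⟩ := hGNS (ResidueField T.O) (ResidueField c.1.W) s h2 h3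
    c₀ hc₀ ⟨c.1.res T.x, c.1.res T.y, hxiM 1, hxiM 2, c.2.indep⟩
  -- the linear forms in terms of the monomials
  have hmo : ∀ b, ∃ f ∈ Sec u v (ResidueField T.O) (fun _ => 4),
      xi T.O T.x T.y c.1 b = l * f := by
    intro b
    obtain ⟨m, hm⟩ := hlin b
    refine ⟨∑ i, if (XV.pt i).w = 0 then algebraMap (ResidueField T.O) (ResidueField c.1.W)
      (m (XV.pt i)) * mo u v (XV.pt i).e else 0, ?_, ?_⟩
    · refine sum_mem fun i _ => ?_
      split_ifs with h
      · rw [← Algebra.smul_def]
        refine Submodule.smul_mem _ _ (Submodule.subset_span ⟨_, ?_, rfl⟩)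
        intro i'
        have := (XV.pt i).adm.deg i'
        rw [h] at this
        exact this
      · exact zero_mem _
    · rw [hm, Finset.mul_sum]
      refine Finset.sum_congr rfl fun i _ => ?_
      split_ifs with h
      · rw [hsol _ h]; ring
      · rw [mul_zero]
        have : s (XV.pt i) = 0 := h3 _ (Nat.one_le_iff_ne_zero.2 h)
        rw [this, mul_zero]
  have hSecUV : ∀ f ∈ Sec u v (ResidueField T.O) (fun _ => 4), f ∈ UV u v (ResidueField T.O) := by
    intro f hf
    refine Submodule.span_induction ?_ ?_ ?_ ?_ hf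
    · rintro _ ⟨e, -, rfl⟩
      exact FIV_.mo_mem e
    · exact zero_mem _
    · intro x y _ _ hx hy; exact add_mem hx hy
    · intro a x _ hx
      rw [Algebra.smul_def]
      exact mul_mem (IntermediateField.algebraMap_mem _ _) hx
  have hlUV : l ∈ UV u v (ResidueField T.O) := by
    obtain ⟨f, hf, hf'⟩ := hmo 0
    have hx0 : xi T.O T.x T.y c.1 0 = 1 := rfl
    rw [hx0] at hf'
    have : l = f⁻¹ := eq_inv_of_mul_eq_one_left hf'.symm
    rw [this]
    exact inv_mem (hSecUV f hf)
  have hsUV : ∀ c', s c' ∈ UV u v (ResidueField T.O) := by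
    intro c'
    by_cases h : c'.w = 0
    · rw [hsol _ h]
      exact mul_mem hlUV (FIV_.mo_mem _)
    · have : s c' = 0 := h3 _ (Nat.one_le_iff_ne_zero.2 h)
      rw [this]
      exact zero_mem _
  have hxiUV : ∀ b, xi T.O T.x T.y c.1 b ∈ UV u v (ResidueField T.O) := by
    intro b
    obtain ⟨f, hf, hf'⟩ := hmo b
    rw [hf']
    exact mul_mem hlUV (hSecUV f hf)
  have hne : ∀ b, xi T.O T.x T.y c.1 b ≠ 0 := by
    have h := c.2.indep
    intro b
    fin_cases b
    · exact one_ne_zero
    · exact h.ne_zero 0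
    · exact h.ne_zero 1
  have hrf : RF T.O c.1 (GX T) = UV u v (ResidueField T.O) := by
    apply le_antisymm
    · apply IntermediateField.adjoin_le_iff.2
      rintro _ ⟨f, hf, rfl⟩
      simp only [GX, Finset.coe_image, Set.mem_image] at hf
      obtain ⟨i, -, rfl⟩ := hf
      rw [hsX]
      exact hsUV _
    · have hMR : M ≤ RF T.O c.1 (GX T) := by
        apply IntermediateField.adjoin_le_iff.2
        have hR : ∀ c', s c' ∈ RF T.O c.1 (GX T) := fun c' =>
          IntermediateField.subset_adjoin _ _ ⟨T.X (XV.pt.symm c'), by simp [GX], rfl⟩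
        rintro _ ⟨c', rfl⟩
        exact div_mem (hR _) (hR _)
      apply IntermediateField.adjoin_le_iff.2
      intro w hw
      rcases hw with rfl | hw
      · exact hMR hu
      · rw [Set.mem_singleton_iff] at hw
        rw [hw]
        exact hMR hv
  refine ⟨u, v, l, ?_⟩
  exact
    { l_ne := hl0
      ind := hind
      mem := h1
      sol0 := fun i hi => by rw [hsX]; exact hsol _ hi
      sol1 := fun i hi => by rw [hsX]; exact h3 _ hi
      rf := hrf
      lmem := hlUV
      xmem := hxiUV 1
      ymem := hxiUV 2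
      pl := ⟨hne, by
        have h := c.2.indep
        have hx0 : xi T.O T.x T.y c.1 0 = 1 := rfl
        rw [hx0, div_one, div_one]
        exact h⟩
      free := 
        { sec := fun b => by
            obtain ⟨f, hf, hf'⟩ := hmo b
            rw [hf', mul_div_cancel_left₀ _ hl0]
            exact hf
          nz := by
            intro V hV e he
            obtain ⟨⟨W, hW⟩, hcp⟩ := hCPP T.K T.O T.F c.1 V hV
            have hz : ∀ b, z T.x T.y b ≠ 0 := by
              intro b hb
              apply hne b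
              rw [← hres, hb, c.1.res_zero]
            obtain ⟨a, ha⟩ := FIV_.exists_max W.W (z T.x T.y) hz
            refine ⟨a, div_ne_zero (hne a) hl0, ?_⟩
            obtain ⟨g1, -⟩ := hSLW p J E hE T W a (hz a) ha
            have hadm : XV.Adm 1 0 e := 
              { deg := fun i => he.1 i
                top := Nat.zero_le _
                one := fun k => Nat.zero_le _
                two := fun k => Nat.zero_le _
                dbl := fun k l _ => Nat.zero_le _ }
            have g2 := g1 (XV.pt.symm ⟨0, e, hadm⟩)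
            rw [hW] at g2
            have g3 := g2.2
            rw [c.1.res_div (h1 _) (by rw [hres]; exact hne a), hres] at g3
            have g4 : c.1.res (T.X (XV.pt.symm ⟨0, e, hadm⟩)) = l * mo u v e :=
              hsol ⟨0, e, hadm⟩ rfl
            rw [g4] at g3
            have : mo u v e / (xi T.O T.x T.y c.1 a / l) = l * mo u v e / xi T.O T.x T.y c.1 a := by
              rw [div_div_eq_mul_div, mul_comm]
            rw [this]
            exact g3 } }

end Pool.Agent.SFB
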