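import Pool.Agent.SFB.StmtsT
import Pool.Agent.SFB.FinC

/-!
# Full poles in the reductions
-/

set_option autoImplicit false

noncomputable section

namespace Pool.Agent.SFB

open scoped Classical
open Pool.Agent.EN2 Pool.Agent.SRF Pool.Agent.DIS IsLocalRing

namespace FUL_

/-- the residue field of a valuation ring of an algebraically closed field -/
lemma ac {K : Type} [Field K] [IsAlgClosed K] (O : ValuationSubring K) :
    IsAlgClosed (ResidueField O) := by
  apply IsAlgClosed.of_exists_root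
  intro q hq hirr
  obtain ⟨P, hP, hdeg, hmon⟩ := Polynomial.lifts_and_degree_eq_and_monic
    ((Polynomial.mem_lifts _).mpr (Polynomial.map_surjective _ residue_surjective q)) hq
  have hd : P.degree ≠ 0 := by
    rw [hdeg]
    exact hirr.degree_pos.ne'
  have hd' : (P.map O.subtype).degree ≠ 0 := by
    rwa [hmon.degree_map]
  obtain ⟨x, hx⟩ := IsAlgClosed.exists_root _ hd'
  have hint : IsIntegral O x := ⟨P, hmon, by
    rw [Polynomial.IsRoot.def, Polynomial.eval_map] at hx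
    exact hx⟩
  obtain ⟨y, hy⟩ := (IsIntegrallyClosed.isIntegral_iff (R := O) (K := K)).mp hint
  refine ⟨residue O y, ?_⟩
  have h1 : P.eval y = 0 := by
    apply O.subtype_injective
    rw [map_zero, ← Polynomial.eval₂_hom, ← Polynomial.eval_map]
    have : O.subtype y = x := hy
    rw [this]
    exact hx
  rw [← hP, Polynomial.eval_map, Polynomial.eval₂_hom, h1, map_zero]

/-- choice with a prescribed value -/
lemma upd {C : Type} {Ω : C → Type} (P : ∀ c, Ω c → Prop) (h : ∀ c, ∃ t, P c t) (c : C) (t : Ω c)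
    (ht : P c t) : ∃ s : ∀ c, Ω c, (∀ c, P c (s c)) ∧ s c = t := by
  choose s hs using h
  refine ⟨Function.update s c t, fun c' => ?_, Function.update_self ..⟩
  by_cases hc : c' = c
  · subst hc
    rw [Function.update_self]
    exact ht
  · rw [Function.update_of_ne hc]
    exact hs c'

section mono

variable {k Ω : Type} [Field k] [Field Ω] [Algebra k Ω] {u v : Ω}

/-- a section is bounded by the maximal monomial -/
lemma sec_le {V : ValuationSubring Ω} (hV : KV k V) {d : Fin 5 → ℕ} {e : Fin 10 → ℕ}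
    (he : Top u v V d e) {f : Ω} (hf : f ∈ Sec u v k d) : f / mo u v e ∈ V := by
  unfold Sec at hf
  induction hf using Submodule.span_induction with
  | mem f h =>
    obtain ⟨e', h1, rfl⟩ := h
    exact he.2 e' h1
  | zero => rw [zero_div]; exact zero_mem _
  | add f g _ _ h1 h2 => rw [add_div]; exact add_mem h1 h2
  | smul a f _ h => rw [Algebra.smul_def, mul_div_assoc]; exact mul_mem (hV a) h

omit [Field k] [Algebra k Ω] in
/-- maximal monomials exist -/
lemma exists_top (u v : Ω) (V : ValuationSubring Ω) : ∃ e, Top u v V (fun _ => 4) e := by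
  have hfin : {e : Fin 10 → ℕ | Mon (fun _ => 4) e}.Finite := by
    refine (Set.finite_Iic (fun _ => 4 : Fin 10 → ℕ)).subset fun e he => ?_
    intro i
    have h : XV.mdeg e (XV.eS i) = 4 := he (XV.eS i)
    unfold XV.mdeg at h
    have h2 := Finset.single_le_sum
      (f := fun i' => if XV.eS i' = XV.eS i ∨ XV.eT i' = XV.eS i then e i' else 0)
      (fun _ _ => Nat.zero_le _) (Finset.mem_univ i)
    simp only [true_or, if_true] at h2
    show e i ≤ 4
    omega
  have hne : {e : Fin 10 → ℕ | Mon (fun _ => 4) e}.Nonempty :=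
    ⟨fun _ => 1, fun i => by fin_cases i <;> decide⟩
  obtain ⟨e, he, hmax⟩ := Set.exists_max_image _ (fun e => V.valuation (mo u v e)) hfin hne
  refine ⟨e, he, fun e' he' => ?_⟩
  rw [← V.valuation_le_one_iff, map_div₀]
  exact div_le_one_of_le₀ (hmax e' he') zero_le

lemma isPl_div {σ : Fin 3 → Ω} {l : Ω} (hl : l ≠ 0) (h : IsPl k σ) :
    IsPl k fun i => σ i / l := by
  refine ⟨fun i => div_ne_zero (h.ne i) hl, ?_⟩
  have h1 : (![σ 1 / l / (σ 0 / l), σ 2 / l / (σ 0 / l)] : Fin 2 → Ω) =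
      ![σ 1 / σ 0, σ 2 / σ 0] := by
    rw [div_div_div_cancel_right₀ hl, div_div_div_cancel_right₀ hl]
  show AlgebraicIndependent k ![σ 1 / l / (σ 0 / l), σ 2 / l / (σ 0 / l)]
  rw [h1]
  exact h.indep

lemma pf_div {σ : Fin 3 → Ω} {l : Ω} (hl : l ≠ 0) : PF k (fun i => σ i / l) = PF k σ := by
  unfold PF
  rw [div_div_div_cancel_right₀ hl, div_div_div_cancel_right₀ hl]

end mono

section sections

variable (S : NUM.Sf)

lemma ww_mono {A : Set S.P} {q : ℕ} (d : ℕ) {f : S.F} (hf : f ∈ S.WW A q) :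
    f ∈ S.WW A (q + d) := by
  rcases hf with h | h
  · exact Or.inl h
  · right
    intro O hO
    refine le_trans ?_ (h O hO)
    have h0 : 0 ≤ S.H O := le_max_left _ _
    have h1 : 0 ≤ (d : ℤ) * S.H O := mul_nonneg (Int.natCast_nonneg d) h0
    push_cast
    linarith

lemma ww_mul {A : Set S.P} {q d : ℕ} {b f : S.F}
    (hb : b ∈ SRF.L S.k S.x S.y (fun e => d * SRF.H S.k S.x S.y e)) (hf : f ∈ S.WW A q) :
    b * f ∈ S.WW A (q + d) := by
  rcases hf with h | h
  · left; rw [h, mul_zero]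
  rcases hb with h' | h'
  · left; rw [h', zero_mul]
  by_cases hb0 : b = 0
  · left; rw [hb0, zero_mul]
  by_cases hf0 : f = 0
  · left; rw [hf0, mul_zero]
  right
  intro O hO
  have h1 := h O hO
  have h2 := h' O
  have h3 : S.o O (b * f) = S.o O b + S.o O f := O.isOrd.mul _ _ hb0 hf0
  rw [h3]
  have h4 : -((d : ℤ) * S.H O) ≤ S.o O b := h2
  push_cast
  linarith

end sections

lemma fr_le {K F : Type} [Field K] [Field F] [Algebra K F] {W V : Submodule K F}
    (hV : FiniteDimensional K V) (h : W ≤ V) : Module.finrank K W ≤ Module.finrank K V :=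
  Submodule.finrank_mono h

/-- the inequality between the dimensions fails -/
lemma numer {D d q m a z : ℕ} (hm : 0 < m)
    (h1 : ((3 / 5 : ℝ) * D - 1 / (4 * (m : ℝ) ^ 2)) * (q : ℝ) ^ 2 ≤ a)
    (h2 : q / m * (q / m + 1) ≤ 2 * z)
    (h3 : 20 * (a + z) ≤ D * 24 * ((q + d) / 1 + 2).choose 2)
    (hq : m ^ 2 * (10 + 12 * D * (2 * d + 3) + 12 * D * ((d + 1) * (d + 2))) + 1 ≤ q) : False := by
  have hm1 : (1 : ℝ) ≤ m := by exact_mod_cast hm
  have hq' : (m : ℝ) ^ 2 * (10 + 12 * D * (2 * d + 3) + 12 * D * ((d + 1) * (d + 2))) + 1 ≤ q := by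
    exact_mod_cast hq
  rw [Nat.div_one] at h3
  have h3' : 20 * ((a : ℝ) + z) ≤ D * 24 * ((q + d + 2) * (q + d + 1) / 2) := by
    have h : ((20 * (a + z) : ℕ) : ℝ) ≤ ((D * 24 * (q + d + 2).choose 2 : ℕ) : ℝ) := by
      exact_mod_cast h3
    push_cast [Nat.cast_choose_two] at h
    have e : ((q : ℝ) + d + 2 - 1) = q + d + 1 := by ring
    rw [e] at h
    exact h
  set r : ℕ := q / m with hr
  have h4 : (q : ℝ) < m * (r + 1) := by
    exact_mod_cast Nat.lt_mul_div_succ q hm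
  have h2' : (r : ℝ) * (r + 1) ≤ 2 * z := by exact_mod_cast h2
  have hm2 : (m : ℝ) ≤ m ^ 2 := by nlinarith
  have hD0 : (0 : ℝ) ≤ D := Nat.cast_nonneg D
  have hd0 : (0 : ℝ) ≤ d := Nat.cast_nonneg d
  have hpos : (0 : ℝ) ≤ 12 * D * (2 * d + 3) + 12 * D * ((d + 1) * (d + 2)) := by positivity
  have hm20 : (0 : ℝ) < (m : ℝ) ^ 2 := by positivity
  have hqm : (m : ℝ) ≤ q := by nlinarith [mul_nonneg hm20.le hpos]
  have hq1 : (1 : ℝ) ≤ q := le_trans hm1 hqm
  -- multiply by the square of m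
  have e1 : 12 * D * (q : ℝ) ^ 2 * m ^ 2 - 5 * (q : ℝ) ^ 2 ≤ 20 * a * m ^ 2 := by
    have h := mul_le_mul_of_nonneg_right h1 hm20.le
    have e : ((3 / 5 : ℝ) * D - 1 / (4 * (m : ℝ) ^ 2)) * (q : ℝ) ^ 2 * m ^ 2 =
        3 / 5 * D * (q : ℝ) ^ 2 * m ^ 2 - (q : ℝ) ^ 2 / 4 := by
      field_simp
    rw [e] at h
    linarith
  have e2 : 10 * ((q : ℝ) - m) * q ≤ 20 * z * m ^ 2 := by
    have ha : (q : ℝ) - m ≤ m * r := by linarith
    have hb : ((q : ℝ) - m) * q ≤ (m * r) * (m * (r + 1)) :=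
      mul_le_mul ha h4.le (by linarith) (by positivity)
    have hc := mul_le_mul_of_nonneg_right h2' hm20.le
    nlinarith
  have e3 : 20 * ((a : ℝ) + z) * m ^ 2 ≤ 12 * D * ((q + d + 2) * (q + d + 1)) * m ^ 2 := by
    have h := mul_le_mul_of_nonneg_right h3' hm20.le
    linarith
  have e4 : 5 * (q : ℝ) ^ 2 ≤ 10 * m * q + (12 * D * (2 * d + 3)) * q * m ^ 2 +
      12 * D * ((d + 1) * (d + 2)) * m ^ 2 := by
    nlinarith
  have hX : (0 : ℝ) ≤ 12 * D * ((d + 1) * (d + 2)) * m ^ 2 := by positivity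
  have e5 : 12 * D * (((d : ℝ) + 1) * (d + 2)) * m ^ 2 ≤
      12 * D * ((d + 1) * (d + 2)) * m ^ 2 * q := le_mul_of_one_le_right hX hq1
  have e6 : 10 * (m : ℝ) * q ≤ 10 * m ^ 2 * q := by nlinarith
  have e7 : (q : ℝ) * (5 * q) ≤ q * (m ^ 2 * (10 + 12 * D * (2 * d + 3) +
      12 * D * ((d + 1) * (d + 2)))) := by linarith
  have e8 := le_of_mul_le_mul_left e7 (by linarith)
  linarith

end FUL_

theorem ful_proof (hRED : Stmt_RED) (hDEG : Stmt_DEG) (hFIV : Stmt_FIV) (hREG : Stmt_REG)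
    (hINT : Stmt_INT) (hPLM : Stmt_PLM) (hZEE : Stmt_ZEE) (_hPFI : Stmt_PFI) (_hRHO : Stmt_RHO)
    (_hCRV : Stmt_CRV) : Stmt_FUL := by
  intro p _ J E hE T hFull j m hm
  have hk : IsAlgClosed (ResidueField T.O) := FUL_.ac T.O
  obtain ⟨d, b, hb, hR⟩ := hRED T.K T.O T.arch T.dvr T.F T.x T.y T.surf
  obtain ⟨n₀, hn₀⟩ := hFull j (1 / (4 * (m : ℝ) ^ 2)) (by positivity)
  refine ⟨max n₀ (m ^ 2 * (10 + 12 * deg T.K T.x T.y * (2 * d + 3) +
    12 * deg T.K T.x T.y * ((d + 1) * (d + 2))) + 1), fun q hq c u v l hFv V hV hOn => ?_⟩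
  by_contra hcon
  -- the five points on the components
  obtain ⟨s, hs, hsc⟩ := FUL_.upd (C := Comp T.O T.x T.y)
    (Ω := fun c => ResidueField c.1.W × ResidueField c.1.W × ResidueField c.1.W)
    (fun c t => Fv T c t.1 t.2.1 t.2.2) (fun c' => by
      obtain ⟨u', v', l', h⟩ := hFIV p J E hE T c'
      exact ⟨(u', v', l'), h⟩) c (u, v, l) hFv
  -- the planes
  have hpl := fun c' : Comp T.O T.x T.y => hPLM (ResidueField T.O) (ResidueField c'.1.W)
    (s c').1 (s c').2.1 (s c').2.2 (hs c').ind (hs c').l_ne (hs c').lmem j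
  choose σ h1 h2 h3 h4 using hpl
  have hfin : ∀ c' : Comp T.O T.x T.y,
      FiniteDimensional (PF (ResidueField T.O) (σ c')) (ResidueField c'.1.W) := fun c' =>
    finC T.surf c' (σ c') (h1 c')
  -- integrality of the reductions
  have hint : ∀ (c' : Comp T.O T.x T.y) (g : T.F), Bd T.O T.x T.y g →
      g ∈ (sf T).WW {e | T.Tub j e} (q + d) →
      IntS (ResidueField T.O) (σ c') (q + d) 1 (c'.1.res g) := by
    intro c' g hg hgW
    have hf := hfin c'
    refine hINT _ _ (σ c') (h1 c') hf _ _ _ fun V' hV' i hi => ?_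
    obtain ⟨hc, hon, hsim⟩ := h4 c' V' hV' i hi
    obtain ⟨e, he⟩ := FUL_.exists_top (s c').1 (s c').2.1 V'
    have hr := (hREG p J E T c' _ _ _ (hs c') V' hc.kv e he (q + d) g hg).2 j hon hgW
    have hS := hsim e he
    have e1 : c'.1.res g ^ 1 / σ c' i ^ (q + d) =
        c'.1.res g / ((s c').2.2 * mo (s c').1 (s c').2.1 e) ^ (q + d) *
          ((s c').2.2 * mo (s c').1 (s c').2.1 e / σ c' i) ^ (q + d) := by
      rw [div_pow, div_mul_div_cancel₀ (pow_ne_zero _ hS.1), pow_one]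
    rw [e1]
    exact mul_mem hr (pow_mem hS.2.2.1 _)
  -- the space `Z`
  obtain ⟨Z, hZfin, hZdim, hZUV, hZ4, hZ5⟩ := hZEE (ResidueField T.O) (ResidueField c.1.W) u v l
    hFv.ind hFv.l_ne hFv.lmem j q (q / m) (Nat.div_le_self _ _)
  have hintZ : ∀ z ∈ Z, IntS (ResidueField T.O) (σ c) (q + d) 1 z := by
    intro z hz
    have hf := hfin c
    refine hINT _ _ (σ c) (h1 c) hf _ _ _ fun V' hV' i hi => ?_
    have h4' := h4 c V' hV' i hi
    rw [hsc] at h4'
    obtain ⟨hc, hon, hsim⟩ := h4'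
    obtain ⟨e, he⟩ := FUL_.exists_top u v V'
    have hS : Sim V' (σ c i) (l * mo u v e) := hsim e he
    have hz1 := hZ4 z hz V' hc.kv hon e he
    have hz2 : (l * mo u v e)⁻¹ ∈ V' := by
      have h := FUL_.sec_le hc.kv he (hFv.free.sec 0)
      have e2 : xi T.O T.x T.y c.1 0 / l / mo u v e = (l * mo u v e)⁻¹ := by
        rw [div_div]
        exact one_div _
      rwa [e2] at h
    have e1 : z ^ 1 / σ c i ^ (q + d) = z / (l * mo u v e) ^ q *
        (l * mo u v e / σ c i) ^ (q + d) * (l * mo u v e)⁻¹ ^ d := by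
      have h0 := hS.1
      have h0' := hS.2.2.2
      rw [div_pow, pow_add (l * mo u v e), inv_pow]
      field_simp
    rw [e1]
    exact mul_mem (mul_mem hz1 (pow_mem hS.2.2.1 _)) (pow_mem hz2 _)
  -- the degrees
  have hdeg : ∀ c' : Comp T.O T.x T.y,
      20 ≤ (PF (ResidueField T.O) (xi T.O T.x T.y c'.1)).relfinrank (RF T.O c'.1 (GX T)) := by
    intro c'
    have h := hDEG (ResidueField T.O) (ResidueField c'.1.W) (s c').1 (s c').2.1 (hs c').ind _
      (hs c').free (FUL_.isPl_div (hs c').l_ne (hs c').pl)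
    rw [FUL_.pf_div (hs c').l_ne] at h
    rw [(hs c').rf]
    exact h
  obtain ⟨hfd, hle⟩ := hR (GX T)
    (fun g hg c' => by
      obtain ⟨i, _, rfl⟩ := Finset.mem_image.mp hg
      exact (hs c').mem i)
    (fun c' => by
      rw [(hs c').rf]
      exact ⟨(hs c').xmem, (hs c').ymem⟩)
    σ h1 (fun c' i => by rw [(hs c').rf]; exact h2 c' i) 20 24 hdeg
    (fun c' => by rw [(hs c').rf]; exact h3 c') (q + d) 1 one_pos
    ((sf T).WW {e | T.Tub j e} q)
    (fun c' g hg => by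
      refine hint c' g hg.1 ?_
      obtain ⟨_, κ, f, hf, h | h⟩ := hg
      · rw [h]
        exact FUL_.ww_mono (sf T) d (Submodule.smul_mem ((sf T).WW {e | T.Tub j e} q) κ hf)
      · rw [h]
        exact Submodule.smul_mem ((sf T).WW {e | T.Tub j e} (q + d)) κ
          (FUL_.ww_mul (sf T) (hb.sec c') hf))
    c Z hZfin (fun z hz => ⟨by rw [hFv.rf]; exact hZUV z hz, hintZ z hz⟩)
    (fun f hf hbd hfZ => by
      by_contra hne
      exact hcon ⟨f, hf, hbd, hne, fun e e' he he' => hZ5 _ hfZ hne V hV hOn e e' he he'⟩)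
  obtain ⟨W, hW, hWd⟩ := hn₀ q (le_trans (le_max_left _ _) hq)
  have hWV := FUL_.fr_le (K := T.K) (F := T.F) (W := W) (V := (sf T).WW {e | T.Tub j e} q) hfd hW
  exact FUL_.numer hm (le_trans hWd (Nat.cast_le.mpr hWV)) hZdim hle
    (le_trans (le_max_right _ _) hq)

end Pool.Agent.SFB
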