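import Pool.Agent.SFB.StmtsT

/-!
# INQ: the asymptotic inequality
-/

set_option autoImplicit false

noncomputable section

namespace Pool.Agent.SFB

namespace INQ_

/-- the inequality over the reals -/
theorem real_ineq (a b d M n q D N t m S ε : ℝ) (hb : 0 < b) (hab : b ≤ a) (hd : 0 ≤ d)
    (hM : M = n + d) (hq : 1 ≤ q) (hqn : q ≤ n) (hdn : d ≤ n) (hN : 1 ≤ N) (ht0 : 0 ≤ t)
    (htN : t * N ≤ M) (hND : N * D ≤ M + D) (hD1 : q ≤ D) (hD2 : D ≤ 2 * q)
    (hm : 0 < m) (hD3 : 2 * q - q / m ≤ D) (hS : S = 18 * a + a * d + a / 2 * d ^ 2)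
    (hε1 : b / m ≤ ε) (hε2 : 2 * S ≤ ε * q) :
    (a * N ^ 2 - b * N) * ((t + 2) * (t + 1) / 2) ≤
      a / 2 * n ^ 2 - b * q * n + ε * n ^ 2 + 2 * b * q ^ 2 := by
  have ha : 0 < a := lt_of_lt_of_le hb hab
  have hn : 1 ≤ n := le_trans hq hqn
  have hN0 : 0 < N := by linarith
  have hM0 : 0 ≤ M := by rw [hM]; linarith
  set β := b / N with hβ
  have hβ0 : 0 < β := div_pos hb hN0
  have hβa : β ≤ a := le_trans (div_le_self hb.le hN) hab
  have hβN : β * N = b := div_mul_cancel₀ b hN0.ne'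
  -- first step
  have h1 : (a * N ^ 2 - b * N) * ((t + 2) * (t + 1) / 2) ≤
      (a - β) * ((M + 2 * N) * (M + N)) / 2 := by
    have e : (a * N ^ 2 - b * N) * ((t + 2) * (t + 1) / 2) =
        (a - β) * ((t * N + 2 * N) * (t * N + N)) / 2 := by
      rw [← hβN]; ring
    rw [e]
    have h2 : (t * N + 2 * N) * (t * N + N) ≤ (M + 2 * N) * (M + N) :=
      mul_le_mul (by linarith) (by linarith) (by positivity) (by positivity)
    have h3 : 0 ≤ a - β := by linarith
    have h4 := mul_le_mul_of_nonneg_left h2 h3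
    linarith
  -- N
  have hDpos : 0 < D := by linarith
  set r := n ^ 2 / q with hr
  have hq0 : 0 < q := by linarith
  have hrq : r * q = n ^ 2 := div_mul_cancel₀ _ hq0.ne'
  have hnr : n ≤ r := by
    rw [hr, le_div_iff₀ hq0]
    nlinarith
  have hNq : N * q ≤ 3 * n := by
    have h2 : (N - 1) * q ≤ (N - 1) * D := mul_le_mul_of_nonneg_left hD1 (by linarith)
    nlinarith
  have hN2 : N ^ 2 ≤ 9 * r := by
    have h2 : N ^ 2 * q ≤ 9 * n ^ 2 := by
      have h3 : (N * q) ^ 2 ≤ (3 * n) ^ 2 := by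
        apply pow_le_pow_left₀ (by positivity) hNq
      have h4 : N ^ 2 * q ≤ N ^ 2 * q ^ 2 := by
        have : q ≤ q ^ 2 := by nlinarith
        exact mul_le_mul_of_nonneg_left this (by positivity)
      nlinarith
    have h5 : N ^ 2 ≤ 9 * n ^ 2 / q := by
      rw [le_div_iff₀ hq0]; exact h2
    calc N ^ 2 ≤ 9 * n ^ 2 / q := h5
      _ = 9 * r := by rw [hr]; ring
  have hMN : M * N ≤ 6 * r := by
    have h2 : M ≤ 2 * n := by rw [hM]; linarith
    have h3 : M * N * q ≤ 6 * n ^ 2 := by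
      have : M * (N * q) ≤ 2 * n * (3 * n) := mul_le_mul h2 hNq (by positivity) (by linarith)
      nlinarith
    have h5 : M * N ≤ 6 * n ^ 2 / q := by
      rw [le_div_iff₀ hq0]; exact h3
    calc M * N ≤ 6 * n ^ 2 / q := h5
      _ = 6 * r := by rw [hr]; ring
  -- the lower bound
  have hlow : D * (M - D) ≤ M ^ 2 / N := by
    rw [le_div_iff₀ hN0]
    rcases le_total M D with h | h
    · have : D * (M - D) * N ≤ 0 := by
        have h5 : D * (M - D) ≤ 0 := mul_nonpos_of_nonneg_of_nonpos hDpos.le (by linarith)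
        exact mul_nonpos_of_nonpos_of_nonneg h5 hN0.le
      exact le_trans this (sq_nonneg M)
    · have h5 : N * D * (M - D) ≤ (M + D) * (M - D) :=
        mul_le_mul_of_nonneg_right hND (by linarith)
      have e1 : D * (M - D) * N = N * D * (M - D) := by ring
      have e2 : (M + D) * (M - D) = M ^ 2 - D ^ 2 := by ring
      rw [e1]
      rw [e2] at h5
      linarith [sq_nonneg D]
  have hβM : β * M ^ 2 = b * (M ^ 2 / N) := by rw [hβ]; ring
  have hDM : 2 * q * n - n ^ 2 / m - 4 * q ^ 2 ≤ D * (M - D) := by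
    have h2 : (2 * q - q / m) * n ≤ D * n := mul_le_mul_of_nonneg_right hD3 (by linarith)
    have h3 : D * n ≤ D * M := mul_le_mul_of_nonneg_left (by rw [hM]; linarith) hDpos.le
    have h4 : D * D ≤ (2 * q) * (2 * q) :=
      mul_le_mul hD2 hD2 hDpos.le (by linarith)
    have h5 : q * n / m ≤ n ^ 2 / m := by
      refine div_le_div_of_nonneg_right ?_ hm.le
      rw [pow_two]
      exact mul_le_mul_of_nonneg_right hqn (by linarith)
    have e1 : (2 * q - q / m) * n = 2 * q * n - q * n / m := by ring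
    have e2 : D * (M - D) = D * M - D * D := by ring
    have e3 : 4 * q ^ 2 = (2 * q) * (2 * q) := by ring
    rw [e1] at h2
    rw [e2, e3]
    linarith
  have hbD : b * (2 * q * n - n ^ 2 / m - 4 * q ^ 2) ≤ β * M ^ 2 := by
    rw [hβM]
    exact mul_le_mul_of_nonneg_left (le_trans hDM hlow) hb.le
  have hbm : b * (n ^ 2 / m) ≤ ε * n ^ 2 := by
    have : b * (n ^ 2 / m) = b / m * n ^ 2 := by ring
    rw [this]
    exact mul_le_mul_of_nonneg_right hε1 (by positivity)
  have hSr : S * r ≤ ε / 2 * n ^ 2 := by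
    have h2 : 2 * S * r ≤ ε * q * r := mul_le_mul_of_nonneg_right hε2 (by positivity)
    have e1 : ε * q * r = ε * n ^ 2 := by rw [← hrq]; ring
    rw [e1] at h2
    linarith
  have h4 : (a - β) * ((M + 2 * N) * (M + N)) / 2 ≤
      a / 2 * M ^ 2 + a / 2 * (3 * (M * N) + 2 * N ^ 2) - β * M ^ 2 / 2 := by
    have h5 : 0 ≤ β * (3 * (M * N) + 2 * N ^ 2) := by positivity
    have e : (a - β) * ((M + 2 * N) * (M + N)) / 2 =
        a / 2 * M ^ 2 + a / 2 * (3 * (M * N) + 2 * N ^ 2) - β * M ^ 2 / 2 -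
          β * (3 * (M * N) + 2 * N ^ 2) / 2 := by ring
    rw [e]
    linarith
  have h5 : a / 2 * (3 * (M * N) + 2 * N ^ 2) ≤ a / 2 * (36 * r) :=
    mul_le_mul_of_nonneg_left (by linarith) (by positivity)
  have h6 : a / 2 * M ^ 2 ≤ a / 2 * n ^ 2 + (a * d + a / 2 * d ^ 2) * r := by
    have h7 : a * d * n ≤ a * d * r := mul_le_mul_of_nonneg_left hnr (by positivity)
    have h8 : a / 2 * d ^ 2 * 1 ≤ a / 2 * d ^ 2 * r :=
      mul_le_mul_of_nonneg_left (by linarith) (by positivity)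
    have e : a / 2 * (n + d) ^ 2 = a / 2 * n ^ 2 + a * d * n + a / 2 * d ^ 2 * 1 := by ring
    rw [hM, e, add_mul]
    linarith
  rw [hS] at hSr
  have e1 : b * (2 * q * n - n ^ 2 / m - 4 * q ^ 2) =
      2 * (b * q * n) - b * (n ^ 2 / m) - 2 * (2 * b * q ^ 2) := by ring
  have e2 : (18 * a + a * d + a / 2 * d ^ 2) * r =
      a / 2 * (36 * r) + (a * d + a / 2 * d ^ 2) * r := by ring
  rw [e1] at hbD
  rw [e2] at hSr
  linarith

end INQ_

open INQ_

theorem inq_proof : Stmt_INQ := by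
  intro a b hb hab d
  refine ⟨2 * b, fun ε hε => ?_⟩
  obtain ⟨m, hm⟩ := exists_nat_gt ((b : ℝ) / ε)
  have hm0 : 0 < m := by
    have h1 : (0 : ℝ) ≤ (b : ℝ) / ε := by positivity
    have h2 : (0 : ℝ) < m := lt_of_le_of_lt h1 hm
    exact_mod_cast h2
  refine ⟨m, hm0, fun q₀ => ?_⟩
  obtain ⟨n₂, hn₂⟩ := exists_nat_gt (2 * (18 * (a : ℝ) + a * d + a / 2 * d ^ 2) / ε)
  refine ⟨q₀ + n₂ + d + 1, by omega, fun n q hq hqn => ?_⟩
  have hDq : q / m ≤ q := Nat.div_le_self q m
  set D := 2 * q - q / m with hD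
  have hD1 : q ≤ D := by omega
  have hDpos : 0 < D := by omega
  set N := (n + d) / D + 1 with hN
  have hND1 : n + d ≤ N * D := by
    have := Nat.lt_div_mul_add (a := n + d) hDpos
    rw [hN]
    nlinarith
  have hND2 : N * D ≤ n + d + D := by
    have := Nat.div_mul_le_self (n + d) D
    rw [hN, Nat.add_mul, one_mul]
    omega
  have hN1 : 1 ≤ N := Nat.succ_le_succ (Nat.zero_le _)
  have hD2 : D ≤ 2 * q := Nat.sub_le _ _
  refine ⟨N, hN1, hND1, ?_⟩
  have hbN : b * N ≤ a * N ^ 2 := by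
    have h1 : b * N ≤ a * N := Nat.mul_le_mul_right N hab
    have h2 : N ≤ N ^ 2 := by nlinarith [Nat.zero_le ((n + d) / D)]
    exact le_trans h1 (Nat.mul_le_mul_left a h2)
  have htN : (n + d) / N * N ≤ n + d := Nat.div_mul_le_self _ _
  rw [Nat.cast_mul, Nat.cast_sub hbN, Nat.cast_choose_two]
  have hqm : ((q / m : ℕ) : ℝ) ≤ (q : ℝ) / m := Nat.cast_div_le
  have key := real_ineq a b d (n + d) n q D N ((n + d) / N : ℕ) m
    (18 * (a : ℝ) + a * d + a / 2 * d ^ 2) ε (by exact_mod_cast hb) (by exact_mod_cast hab)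
    (Nat.cast_nonneg d) rfl (by exact_mod_cast (by omega : 1 ≤ q)) (by exact_mod_cast hqn)
    (by exact_mod_cast (by omega : d ≤ n)) (by exact_mod_cast hN1)
    (Nat.cast_nonneg _) (by exact_mod_cast htN) (by exact_mod_cast hND2)
    (by exact_mod_cast hD1) (by exact_mod_cast hD2)
    (by exact_mod_cast hm0) (by
      have h5 : ((D : ℕ) : ℝ) = 2 * q - ((q / m : ℕ) : ℝ) := by
        rw [hD, Nat.cast_sub (by omega)]
        push_cast
        ring
      rw [h5]
      linarith) rfl (by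
      have hmpos : (0 : ℝ) < m := by exact_mod_cast hm0
      rw [div_le_iff₀ hmpos]
      rw [div_lt_iff₀ hε] at hm
      linarith) (by
      rw [div_lt_iff₀ hε] at hn₂
      have h6 : (n₂ : ℝ) ≤ q := by exact_mod_cast (by omega : n₂ ≤ q)
      nlinarith)
  push_cast at key ⊢
  have e1 : ((((n + d) / N : ℕ) : ℝ) + 2) * ((((n + d) / N : ℕ) : ℝ) + 2 - 1) / 2 =
      ((((n + d) / N : ℕ) : ℝ) + 2) * ((((n + d) / N : ℕ) : ℝ) + 1) / 2 := by ring
  rw [e1]
  exact key

end Pool.Agent.SFB
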