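import Pool.Agent.SFB.StmtsT

/-!
# INT: integrality from the valuation rings whose centre on the plane is not a closed point
-/

set_option autoImplicit false

noncomputable section

namespace Pool.Agent.SFB

namespace INT_

open Polynomial

section ufd

variable {A Ω : Type} [CommRing A] [IsDomain A] [UniqueFactorizationMonoid A] [Field Ω]
  [Algebra A Ω] [FaithfulSMul A Ω]

/-- the fractions whose denominator is not divisible by `φ` -/
def Sφ (Ω : Type) [Field Ω] [Algebra A Ω] (φ : A) (hφ : Prime φ) : Subring Ω where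
  carrier := {x | ∃ a b : A, ¬ φ ∣ b ∧ x * algebraMap A Ω b = algebraMap A Ω a}
  mul_mem' := by
    rintro x y ⟨a, b, hb, h⟩ ⟨a', b', hb', h'⟩
    refine ⟨a * a', b * b', fun hd => (hφ.dvd_or_dvd hd).elim hb hb', ?_⟩
    rw [map_mul, map_mul, ← h, ← h']
    ring
  one_mem' := ⟨1, 1, fun h => hφ.not_unit (isUnit_of_dvd_one h), by simp⟩
  add_mem' := by
    rintro x y ⟨a, b, hb, h⟩ ⟨a', b', hb', h'⟩
    refine ⟨a * b' + a' * b, b * b', fun hd => (hφ.dvd_or_dvd hd).elim hb hb', ?_⟩
    rw [map_mul, map_add, map_mul, map_mul, ← h, ← h']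
    ring
  zero_mem' := ⟨0, 1, fun h => hφ.not_unit (isUnit_of_dvd_one h), by simp⟩
  neg_mem' := by
    rintro x ⟨a, b, hb, h⟩
    exact ⟨-a, b, hb, by rw [map_neg, ← h]; ring⟩

/-- common denominators -/
lemma clear (φ : A) (hφ : Prime φ) (p : (Sφ Ω φ hφ)[X]) :
    ∃ (b : A) (P : A[X]), ¬ φ ∣ b ∧
      P.map (algebraMap A Ω) = C (algebraMap A Ω b) * p.map (Sφ Ω φ hφ).subtype := by
  induction p using Polynomial.induction_on' with
  | add p q hp hq =>
    obtain ⟨b, P, hb, hP⟩ := hp
    obtain ⟨b', P', hb', hP'⟩ := hq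
    refine ⟨b * b', C b' * P + C b * P', fun hd => (hφ.dvd_or_dvd hd).elim hb hb', ?_⟩
    rw [Polynomial.map_add, Polynomial.map_mul, Polynomial.map_mul, hP, hP', map_C, map_C,
      Polynomial.map_add, map_mul, C_mul]
    ring
  | monomial n x =>
    obtain ⟨x, a, b, hb, h⟩ := x
    refine ⟨b, monomial n a, hb, ?_⟩
    rw [map_monomial, map_monomial, C_mul_monomial]
    congr 1
    exact h.symm.trans (mul_comm _ _)

/-- integral over the local ring: a polynomial with good leading coefficient -/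
lemma poly (φ : A) (hφ : Prime φ) (g : Ω)
    (h : ∀ V : ValuationSubring Ω, (∀ a : A, algebraMap A Ω a ∈ V) →
      (∀ a : A, algebraMap A Ω a ∈ V.nonunits → φ ∣ a) → g ∈ V) :
    ∃ P : A[X], ¬ φ ∣ P.leadingCoeff ∧ aeval g P = 0 := by
  have hinj : Function.Injective (algebraMap A Ω) := FaithfulSMul.algebraMap_injective A Ω
  have h1 : g ∈ (⨅ V : {V : ValuationSubring Ω // ((Sφ Ω φ hφ : Subring Ω) : Set Ω) ⊆
      V.toSubring}, V.1.toSubring) := by
    rw [Subring.mem_iInf]
    rintro ⟨V, hV⟩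
    refine h V (fun a => hV ⟨a, 1, fun h => hφ.not_unit (isUnit_of_dvd_one h), by simp⟩) ?_
    intro a ha
    by_contra hd
    have ha0 : algebraMap A Ω a ≠ 0 := by
      intro h0
      apply hd
      rw [hinj (h0.trans (map_zero _).symm)]
      exact dvd_zero φ
    have h2 : (algebraMap A Ω a)⁻¹ ∈ V :=
      hV ⟨1, a, hd, by rw [inv_mul_cancel₀ ha0, map_one]⟩
    have h3 := (V.inv_mem_nonunits_iff (x := (algebraMap A Ω a)⁻¹)).1 (by rwa [inv_inv])
    rcases h3 with h3 | h3
    · exact ha0 (inv_eq_zero.1 h3)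
    · exact h3 h2
  rw [iInf_valuationSubring_superset, Subring.closure_eq] at h1
  obtain ⟨p, hp, hp0⟩ := h1
  obtain ⟨b, P, hb, hP⟩ := clear φ hφ p
  have hb0 : algebraMap A Ω b ≠ 0 := by
    intro h0
    apply hb
    rw [hinj (h0.trans (map_zero _).symm)]
    exact dvd_zero φ
  refine ⟨P, ?_, ?_⟩
  · have h2 : algebraMap A Ω P.leadingCoeff = algebraMap A Ω b := by
      rw [← leadingCoeff_map_of_injective hinj, hP, leadingCoeff_mul, leadingCoeff_C,
        leadingCoeff_map_of_injective Subtype.val_injective, hp.leadingCoeff, map_one, mul_one]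
    rw [hinj h2]
    exact hb
  · rw [← aeval_map_algebraMap Ω, hP, map_mul, aeval_C]
    have h3 : aeval g (p.map (Sφ Ω φ hφ).subtype) = 0 := by
      rw [coe_aeval_eq_eval, eval_map]
      exact hp0
    rw [h3, mul_zero]

/-- the minimal polynomial, primitive over the UFD -/
lemma prim (g : Ω) (hg : IsAlgebraic A g) : ∃ q : A[X], q ≠ 0 ∧ aeval g q = 0 ∧
    ∀ P : A[X], aeval g P = 0 → q ∣ P := by
  haveI : IsGCDMonoid A := ⟨UniqueFactorizationMonoid.toGCDMonoid A⟩
  obtain ⟨inst⟩ : Nonempty (NormalizedGCDMonoid A) := inferInstance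
  letI : Algebra (FractionRing A) Ω := FractionRing.liftAlgebra A Ω
  haveI : IsScalarTower A (FractionRing A) Ω := FractionRing.isScalarTower_liftAlgebra A Ω
  have hgK : IsIntegral (FractionRing A) g :=
    isAlgebraic_iff_isIntegral.1 (hg.extendScalars (IsFractionRing.injective A (FractionRing A)))
  set m := minpoly (FractionRing A) g with hm
  have hm0 : m ≠ 0 := minpoly.ne_zero hgK
  set m' := IsLocalization.integerNormalization (nonZeroDivisors A) m with hm'
  obtain ⟨c, c0, hc⟩ := IsLocalization.integerNormalization_spec (nonZeroDivisors A) m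
  have hc0 : algebraMap A (FractionRing A) c ≠ 0 := by
    rw [Ne, IsFractionRing.to_map_eq_zero_iff]
    exact nonZeroDivisors.ne_zero c0
  have hm'0 : m' ≠ 0 := by
    rw [hm', Ne, IsFractionRing.integerNormalization_eq_zero_iff]
    exact hm0
  have hcont : m'.content ≠ 0 := by
    rw [Ne, content_eq_zero_iff]
    exact hm'0
  have e1 : C (algebraMap A (FractionRing A) m'.content) *
      m'.primPart.map (algebraMap A (FractionRing A)) =
      C (algebraMap A (FractionRing A) c) * m := by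
    rw [← map_C, ← Polynomial.map_mul, ← m'.eq_C_content_mul_primPart, hc, Algebra.smul_def]
    rfl
  have hcont' : algebraMap A (FractionRing A) m'.content ≠ 0 := by
    rw [Ne, IsFractionRing.to_map_eq_zero_iff]
    exact hcont
  refine ⟨m'.primPart, m'.isPrimitive_primPart.ne_zero, ?_, ?_⟩
  · have h1 := congrArg (aeval g) e1
    rw [map_mul, map_mul, minpoly.aeval, mul_zero, aeval_C, mul_eq_zero] at h1
    rcases h1 with h1 | h1
    · rw [map_eq_zero] at h1
      exact absurd h1 hcont'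
    · rw [← aeval_map_algebraMap (FractionRing A)]
      exact h1
  · intro P hP
    refine m'.isPrimitive_primPart.dvd_of_fraction_map_dvd_fraction_map
      (K := FractionRing A) ?_
    have h1 : m ∣ P.map (algebraMap A (FractionRing A)) := by
      apply minpoly.dvd
      rw [aeval_map_algebraMap]
      exact hP
    refine dvd_trans ?_ h1
    have h2 : m = C (algebraMap A (FractionRing A) c)⁻¹ *
        (C (algebraMap A (FractionRing A) m'.content) *
          m'.primPart.map (algebraMap A (FractionRing A))) := by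
      rw [e1, ← mul_assoc, ← C_mul, inv_mul_cancel₀ hc0, C_1, one_mul]
    rw [h2]
    exact dvd_mul_of_dvd_right (dvd_mul_left _ _) _

/-- integrality over a UFD -/
lemma integral (g : Ω) (hg : IsAlgebraic A g)
    (h : ∀ φ : A, Prime φ → ∀ V : ValuationSubring Ω, (∀ a : A, algebraMap A Ω a ∈ V) →
      (∀ a : A, algebraMap A Ω a ∈ V.nonunits → φ ∣ a) → g ∈ V) : IsIntegral A g := by
  obtain ⟨q, hq0, hq, hdvd⟩ := prim g hg
  have hu : IsUnit q.leadingCoeff := by
    by_contra hnu
    obtain ⟨φ, hφ, hφd⟩ := WfDvdMonoid.exists_irreducible_factor hnu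
      (leadingCoeff_ne_zero.2 hq0)
    have hp : Prime φ := hφ.prime
    obtain ⟨P, hP1, hP2⟩ := poly φ hp g (h φ hp)
    obtain ⟨r, rfl⟩ := hdvd P hP2
    apply hP1
    rw [leadingCoeff_mul]
    exact dvd_mul_of_dvd_left hφd _
  obtain ⟨u, hu⟩ := hu
  refine ⟨C (↑u⁻¹ : A) * q, ?_, ?_⟩
  · rw [Monic, leadingCoeff_mul, leadingCoeff_C, ← hu, Units.inv_mul]
  · rw [← aeval_def, map_mul, hq, mul_zero]

end ufd

section plane

variable {k Ω : Type} [Field k] [Field Ω] [Algebra k Ω]

/-- the affine coordinates of the chart `i` -/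
def tt (σ : Fin 3 → Ω) (i : Fin 3) : Fin 2 → Ω := ![σ (i + 1) / σ i, σ (i + 2) / σ i]

lemma fin3 (i j : Fin 3) : j = i ∨ j = i + 1 ∨ j = i + 2 := by
  revert i j
  decide

lemma adj_eq (σ : Fin 3 → Ω) (h0 : ∀ i, σ i ≠ 0) (i : Fin 3) :
    Algebra.adjoin k (Set.range fun j => σ j / σ i) = Algebra.adjoin k (Set.range (tt σ i)) := by
  apply le_antisymm
  · refine Algebra.adjoin_le ?_
    rintro _ ⟨j, rfl⟩
    rcases fin3 i j with rfl | rfl | rfl
    · change σ j / σ j ∈ Algebra.adjoin k _
      rw [div_self (h0 j)]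
      exact one_mem _
    · exact Algebra.subset_adjoin ⟨0, rfl⟩
    · exact Algebra.subset_adjoin ⟨1, rfl⟩
  · refine Algebra.adjoin_mono ?_
    rintro _ ⟨m, rfl⟩
    fin_cases m
    · exact ⟨i + 1, rfl⟩
    · exact ⟨i + 2, rfl⟩

lemma ratio_mem (σ : Fin 3 → Ω) (h0 : ∀ i, σ i ≠ 0) (i j : Fin 3) :
    σ j / σ i ∈ IntermediateField.adjoin k (Set.range (tt σ i)) := by
  have h1 : σ j / σ i ∈ Algebra.adjoin k (Set.range (tt σ i)) := by
    rw [← adj_eq σ h0 i]
    exact Algebra.subset_adjoin ⟨j, rfl⟩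
  exact IntermediateField.algebra_adjoin_le_adjoin k _ h1

lemma PF_eq (σ : Fin 3 → Ω) (h0 : ∀ i, σ i ≠ 0) (i : Fin 3) :
    IntermediateField.adjoin k (Set.range (tt σ i)) = PF k σ := by
  have h1 : PF k σ = IntermediateField.adjoin k (Set.range (tt σ 0)) := by
    rw [PF]
    congr 1
    ext x
    simp only [Set.mem_insert_iff, Set.mem_singleton_iff, Set.mem_range, Fin.exists_fin_two, tt]
    simp only [Matrix.cons_val_zero, Matrix.cons_val_one]
    constructor
    · rintro (rfl | rfl)
      · exact Or.inl rfl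
      · exact Or.inr rfl
    · rintro (rfl | rfl)
      · exact Or.inl rfl
      · exact Or.inr rfl
  have key : ∀ i j : Fin 3, IntermediateField.adjoin k (Set.range (tt σ i)) ≤
      IntermediateField.adjoin k (Set.range (tt σ j)) := by
    intro i j
    rw [IntermediateField.adjoin_le_iff]
    rintro _ ⟨m, rfl⟩
    have h2 : ∀ l : Fin 3, σ l / σ i ∈ IntermediateField.adjoin k (Set.range (tt σ j)) := by
      intro l
      have h3 : σ l / σ i = (σ l / σ j) / (σ i / σ j) := by
        rw [div_div_div_cancel_right₀ (h0 j)]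
      rw [h3]
      exact div_mem (ratio_mem σ h0 j l) (ratio_mem σ h0 j i)
    fin_cases m
    · exact h2 (i + 1)
    · exact h2 (i + 2)
  rw [h1]
  exact le_antisymm (key i 0) (key 0 i)

lemma alg (σ : Fin 3 → Ω) (hσ : IsPl k σ) (hfin : FiniteDimensional (PF k σ) Ω) (i : Fin 3) :
    Algebra.IsAlgebraic (Algebra.adjoin k (Set.range (tt σ i))) Ω := by
  rw [← IntermediateField.isAlgebraic_adjoin_iff_top, PF_eq σ hσ.ne i]
  exact Algebra.IsAlgebraic.of_finite _ _

lemma indep (σ : Fin 3 → Ω) (hσ : IsPl k σ) (hfin : FiniteDimensional (PF k σ) Ω) (i : Fin 3) :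
    AlgebraicIndependent k (tt σ i) := by
  haveI := alg σ hσ hfin i
  have h1 := hσ.indep.cardinalMk_le_trdeg
  exact (Algebra.IsAlgebraic.isTranscendenceBasis_of_le_trdeg_of_finite k (tt σ i) h1).1

/-- coprime linear polynomials -/
lemma coprime (φ : MvPolynomial (Fin 2) k) (hφ : Prime φ) (a b : k)
    (h1 : φ ∣ MvPolynomial.X 0 - MvPolynomial.C a)
    (h2 : φ ∣ MvPolynomial.X 1 - MvPolynomial.C b) : False := by
  have hd : ∀ (m m' : Fin 2) (c : k), m ≠ m' →
      φ ∣ (MvPolynomial.X m - MvPolynomial.C c) → φ.degreeOf m' = 0 := by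
    intro m m' c hm hdv
    obtain ⟨ψ, hψ⟩ := hdv
    have hne : (MvPolynomial.X m - MvPolynomial.C c : MvPolynomial (Fin 2) k) ≠ 0 := by
      intro h0
      have := congrArg (MvPolynomial.eval (fun _ : Fin 2 => c + 1)) h0
      simp at this
    have h3 : φ ≠ 0 := hφ.ne_zero
    have h4 : ψ ≠ 0 := by
      rintro rfl
      rw [mul_zero] at hψ
      exact hne hψ
    have h5 := MvPolynomial.degreeOf_mul_eq (n := m') h3 h4
    rw [← hψ] at h5
    have h6 : (MvPolynomial.X m - MvPolynomial.C c : MvPolynomial (Fin 2) k).degreeOf m' = 0 := by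
      have h7 := MvPolynomial.degreeOf_sub_le m' (MvPolynomial.X m : MvPolynomial (Fin 2) k)
        (MvPolynomial.C c)
      rw [MvPolynomial.degreeOf_X_of_ne (Ne.symm hm), MvPolynomial.degreeOf_C] at h7
      simpa using h7
    omega
  have e0 := hd 1 0 b (by decide) h2
  have e1 := hd 0 1 a (by decide) h1
  have h3 : φ.totalDegree = 0 := by
    rw [MvPolynomial.totalDegree_eq_zero_iff]
    intro m hm x
    have h4 := MvPolynomial.monomial_le_degreeOf x hm
    fin_cases x
    · have : m 0 ≤ φ.degreeOf 0 := h4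
      change m 0 = 0
      omega
    · have : m 1 ≤ φ.degreeOf 1 := h4
      change m 1 = 0
      omega
  rw [MvPolynomial.totalDegree_eq_zero_iff_eq_C] at h3
  apply hφ.not_isUnit
  rw [h3]
  refine (isUnit_iff_ne_zero.2 ?_).map MvPolynomial.C
  intro h0
  rw [h0, MvPolynomial.C_0] at h3
  exact hφ.ne_zero h3

end plane

end INT_

open INT_ in
/-- INT: integrality from the valuation rings whose centre on the plane is not a closed point. -/
theorem int_proof : Stmt_INT := by
  intro k Ω _ _ _ σ hσ hfin f n n₀ hV i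
  rw [adj_eq σ hσ.ne i]
  set A := Algebra.adjoin k (Set.range (tt σ i)) with hA
  have hind := indep σ hσ hfin i
  haveI := alg σ hσ hfin i
  let e : MvPolynomial (Fin 2) k ≃ₐ[k] A := hind.aevalEquiv
  haveI : UniqueFactorizationMonoid A :=
    e.toMulEquiv.uniqueFactorizationMonoid inferInstance
  refine integral _ (Algebra.IsAlgebraic.isAlgebraic _) ?_
  intro φ hφ V hVA hVn
  have hmem : ∀ j, σ j / σ i ∈ V := by
    intro j
    have h1 : σ j / σ i ∈ A := by
      rw [hA, ← adj_eq σ hσ.ne i]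
      exact Algebra.subset_adjoin ⟨j, rfl⟩
    exact hVA ⟨_, h1⟩
  refine hV V ⟨fun a => hVA (algebraMap k A a), i, hmem, ?_⟩ i hmem
  by_contra hcon
  push Not at hcon
  have key : ∀ m : Fin 2, ∃ a : k, e.symm φ ∣ MvPolynomial.X m - MvPolynomial.C a := by
    intro m
    have h1 : ∃ a : k, tt σ i m - algebraMap k Ω a ∈ V.nonunits := by
      fin_cases m
      · exact hcon (i + 1)
      · exact hcon (i + 2)
    obtain ⟨a, ha⟩ := h1
    refine ⟨a, ?_⟩
    have h2 : ((e (MvPolynomial.X m - MvPolynomial.C a) : A) : Ω) =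
        tt σ i m - algebraMap k Ω a := by
      rw [hind.aevalEquiv_apply_coe]
      simp
    have h3 : φ ∣ e (MvPolynomial.X m - MvPolynomial.C a) := by
      apply hVn
      change ((e (MvPolynomial.X m - MvPolynomial.C a) : A) : Ω) ∈ V.nonunits
      rw [h2]
      exact ha
    have h4 := map_dvd e.symm h3
    rwa [AlgEquiv.symm_apply_apply] at h4
  obtain ⟨a, ha⟩ := key 0
  obtain ⟨b, hb⟩ := key 1
  have hp : Prime (e.symm φ) := (MulEquiv.prime_iff e.symm.toMulEquiv).2 hφ
  exact coprime (e.symm φ) hp a b ha hb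

end Pool.Agent.SFB
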