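import Pool.Agent.SFB.StmtsT

/-!
# SFB, module NOM: curves in the tubes of disjoint curves do not meet
-/

set_option autoImplicit false

noncomputable section

namespace Pool.Agent.SFB

open scoped Classical
open Pool.Agent.EN2 Pool.Agent.SRF Pool.Agent.DIS IsLocalRing

namespace NOM_

variable {K : Type} [Field K] {O : ValuationSubring K} {F : Type} [Field F] [Algebra K F]

theorem exists_max (x y : F) (V : ValuationSubring F) :
    ∃ a : Fin 3, z x y a ≠ 0 ∧ ∀ b, z x y b / z x y a ∈ V := by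
  obtain ⟨a, ha⟩ := Finite.exists_max (fun i : Fin 3 => V.valuation (z x y i))
  have h0 : z x y a ≠ 0 := by
    intro h
    have h1 := ha 0
    rw [h, map_zero] at h1
    have h2 : z x y 0 = 1 := rfl
    rw [h2, map_one] at h1
    exact absurd h1 (by simp)
  refine ⟨a, h0, fun b => ?_⟩
  rw [← V.valuation_le_one_iff, map_div₀]
  exact div_le_one_of_le₀ (ha b) zero_le

theorem small_res (W : Pl O F) {x y : F} {a : Fin 3} (ha0 : z x y a ≠ 0)
    (ha : ∀ b, z x y b / z x y a ∈ W.W) {f : F} (h : Small x y W.W f) :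
    W.res (f / z x y a) = 0 := by
  obtain ⟨i, hi0, hi⟩ := h
  have h1 : f / z x y a = (z x y i / z x y a) * (f / z x y i) := by
    field_simp
  rw [h1]
  exact W.res_nonunit (W.nonunit_mul (ha i) hi)

end NOM_

open NOM_

theorem nom_proof (hSML : Stmt_SML) (hXPL : Stmt_XPL) (hSLW : Stmt_SLW) (hDSJ : Stmt_DSJ) :
    Stmt_NOM := by
  intro p _ J E hE T i j hij hd e e' he he'
  show ∀ V : ValuationSubring T.F, (∀ c : T.K, algebraMap T.K T.F c ∈ V) →
    ¬ (thr T.K T.x T.y e.1 V ∧ thr T.K T.x T.y e'.1 V)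
  intro V hV hthr
  obtain ⟨h1, h2⟩ := hthr
  obtain ⟨W, hW⟩ := hXPL T.K T.O T.F V hV
  obtain ⟨a, ha0, ha⟩ := exists_max T.x T.y W.W
  obtain ⟨-, hsol, hw, hex, -⟩ := hSLW p J E hE T W a ha0 ha
  refine hDSJ _ _ hsol hw hex i j hij hd (fun c hc => ?_) (fun c hc => ?_)
  · refine small_res W ha0 ha (hSML p J E T i e he V hV h1 W hW _ ?_)
    rw [Equiv.apply_symm_apply]
    exact hc
  · refine small_res W ha0 ha (hSML p J E T j e' he' V hV h2 W hW _ ?_)
    rw [Equiv.apply_symm_apply]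
    exact hc

end Pool.Agent.SFB
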