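import Pool.Agent.SFB.StmtsT
import Pool.Agent.SRF.All
import Pool.Agent.EN2.Sec

/-!
# Special fibre bounds: PFI, MPR, XPL, IOL, TUB from the theorems of `Pool.Agent.EN2`
-/

set_option autoImplicit false

noncomputable section

namespace Pool.Agent.SFB

open scoped Classical
open Pool.Agent.EN2 Pool.Agent.SRF Pool.Agent.DIS IsLocalRing

theorem xpl_proof : Stmt_XPL := by
  intro K _ O F _ _ U hU
  exact exists_place O U hU

theorem iol_proof : Stmt_IOL := by
  intro K _ O F _ _ x y hS n f hf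
  exact intO_L hS hf

theorem mpr_proof (hSCQ : SRF.Stmt_SCQ) : Stmt_MPR := by
  intro K _ _ O hO F _ _ x y hS n f hf hc
  exact maxpr hSCQ hO hS n f hf hc

theorem pfi_proof : Stmt_PFI := by
  intro K _ _ O hO F _ _ x y hS
  have hfin : Finite (Comp O x y) := comp_finite hO hS
  refine ⟨hfin, comp_nonempty hS, comp_vg hS, fun c => ?_⟩
  have : Fintype (Comp O x y) := Fintype.ofFinite _
  obtain ⟨a, ha, haS⟩ := approx_comp hO hS c (Finset.univ.erase c) (Finset.notMem_erase c _)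
  have ha0 : a ≠ 0 := by
    rintro rfl
    exact ha (zero_mem _)
  have h1 := nu_of_inv ha
  have h2 : 1 + a⁻¹ ∈ c.1.W := add_mem (one_mem _) (nu_mem h1)
  have h3 : c.1.res (1 + a⁻¹) = 1 := by
    rw [c.1.res_add (one_mem _) (nu_mem h1), c.1.res_one, c.1.res_nonunit h1, add_zero]
  have h4 : c.1.res (1 + a⁻¹) ≠ 0 := by
    rw [h3]
    exact one_ne_zero
  refine ⟨(1 + a⁻¹)⁻¹, c.1.inv_mem h4, ?_, fun s hs => ?_⟩
  · rw [c.1.res_inv h4, h3, inv_one]
  · have haS' := haS s (Finset.mem_erase.mpr ⟨hs, Finset.mem_univ _⟩)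
    rw [EN2.inv_add_inv' ha0]
    refine nu_mul' haS' ?_
    by_contra h5
    have h6 := nu_of_inv h5
    rw [inv_inv] at h6
    have h7 := nu_sub h6 haS'
    rw [add_sub_cancel_right] at h7
    exact one_not_nu h7

theorem tub_proof : Stmt_TUB := by
  intro p _ J E T j e he i hi
  have hlin : ∀ j : Fin 3, ∃ l : Fin (XV.N + 1) → T.O, z T.x T.y j = ∑ i, (l i : T.K) • T.X i := by
    intro j
    fin_cases j
    · exact T.lin0
    · exact T.linx
    · exact T.liny
  obtain ⟨m, c, P, hc, hc0, hP, h⟩ := tub T.arch T.surf T.X T.coord hlin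
    {i | 1 ≤ (XV.pt i).e j} e he i hi
  have e1 : ∀ P : MvPolynomial (Fin (XV.N + 1)) T.O,
      algebraMap T.K T.F c * MvPolynomial.eval₂ (toF T.O T.F) T.X P =
        c • MvPolynomial.aeval T.X P := by
    intro P
    rw [Algebra.smul_def]
    rfl
  rw [e1] at h
  refine ⟨m, c, P, ?_, hc, hP, h⟩
  by_contra hm
  have hm0 : m = 0 := by omega
  subst hm0
  have hPC := hP.totalDegree_le
  obtain ⟨r, hr⟩ : ∃ r : T.O, P = MvPolynomial.C r :=
    ⟨_, MvPolynomial.totalDegree_eq_zero_iff_eq_C.mp (Nat.le_zero.mp hPC)⟩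
  have e2 : T.X i ^ 0 - c • MvPolynomial.aeval T.X P =
      algebraMap T.K T.F (1 - c * (r : T.K)) := by
    rw [hr, MvPolynomial.aeval_C, pow_zero, Algebra.smul_def, map_sub, map_one, map_mul]
    rfl
  have h1 : (1 - c * (r : T.K)) ≠ 0 := by
    intro h0
    have h2 : c * (r : T.K) ∈ T.O.nonunits := nu_mul' hc r.2
    rw [← sub_eq_zero.mp h0] at h2
    exact one_not_nu h2
  rw [e2] at h
  rcases h with h | h
  · rw [map_eq_zero] at h
    exact h1 h
  · have h3 : ord e.1 (algebraMap T.K T.F (1 - c * (r : T.K))) = 0 := by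
      have h4 := e.2.const_mem T.K T.x T.y (1 - c * (r : T.K))
      have h5 := e.2.const_mem T.K T.x T.y (1 - c * (r : T.K))⁻¹
      have h6 : algebraMap T.K T.F (1 - c * (r : T.K)) ≠ 0 := by rwa [Ne, map_eq_zero]
      rw [map_inv₀] at h5
      rw [e.isOrd.mem _ h6] at h4
      rw [e.isOrd.mem _ (inv_ne_zero h6), e.isOrd.inv h6] at h5
      omega
    rw [h3] at h
    simp at h

end Pool.Agent.SFB
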