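import Pool.Agent.SFB.PLC

/-!
# Special fibre bounds, module PLM: a plane for the class `L + 2 D_j`
-/

set_option autoImplicit false

noncomputable section

namespace Pool.Agent.SFB

open scoped Classical
open Pool.Agent.EN2 Pool.Agent.SRF Pool.Agent.DIS IsLocalRing

namespace PLM_

open PLC_

/-- The class `L + 2 D_j`. -/
def dm (j : Fin 10) (a : Fin 5) : ℕ := 4 + 2 * chi j a

theorem dm_sum (j : Fin 10) : ∑ a, dm j a = 24 := by
  unfold dm
  rw [Finset.sum_add_distrib, ← Finset.mul_sum, chi_sum]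
  simp

theorem dm_sq (j : Fin 10) : ∑ a, dm j a ^ 2 = 120 := by
  have h0 : ∀ a, dm j a ^ 2 = 16 + 20 * chi j a := by
    intro a
    unfold dm
    rcases Nat.le_one_iff_eq_zero_or_eq_one.1 (chi_le j a) with h | h
    · rw [h]; norm_num
    · rw [h]; norm_num
  have h : ∑ a, dm j a ^ 2 = ∑ a, (16 + 20 * chi j a) := Finset.sum_congr rfl fun a _ => h0 a
  rw [h, Finset.sum_add_distrib, ← Finset.mul_sum, chi_sum]
  simp

theorem dm_nef (j : Fin 10) : Nef (dm j) := by
  constructor
  · rw [dm_sum]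
    decide
  · intro k
    rw [dm_sum]
    have h1 := chi_le j (XV.eS k)
    have h2 := chi_le j (XV.eT k)
    unfold dm
    omega

theorem dm_contr (j : Fin 10) : 2 * (dm j (XV.eS j) + dm j (XV.eT j)) = ∑ a, dm j a := by
  rw [dm_sum]
  obtain ⟨h1, h2⟩ := chi_self j
  unfold dm
  omega

end PLM_

open PLC_ PLM_ in
theorem plm_proof (hTOP : Stmt_TOP) (hCTR : Stmt_CTR) (hTRP : Stmt_TRP) (hRHO : Stmt_RHO) :
    Stmt_PLM := by
  intro k Ω _ _ _ _ u v l huv hl hlm j
  have hpk : ∀ i, pk u v i ≠ 0 := pk_ne huv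
  obtain ⟨τ, hfree, hpl, hdeg⟩ := hTRP k Ω u v huv (dm j) (dm_nef j) (by
    rw [dm_sum, dm_sq]
    norm_num)
  rw [dm_sum, dm_sq] at hdeg
  set c : Ω := l / pk u v j ^ 2 with hc
  have hc0 : c ≠ 0 := by
    rw [hc]
    exact div_ne_zero hl (pow_ne_zero _ (hpk j))
  have hcm : c ∈ UV u v k := by
    rw [hc]
    exact div_mem hlm (pow_mem (pk_mem _) _)
  have hrat : ∀ a b, c * τ a / (c * τ b) = τ a / τ b := fun a b => mul_div_mul_left _ _ hc0
  have hdne : ∃ e, Mon (dm j) e := mon_of_sec (hfree.sec 0) (hpl.ne 0)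
  refine ⟨fun i => c * τ i, ⟨fun i => mul_ne_zero hc0 (hpl.ne i), ?_⟩,
    fun i => mul_mem hcm (sec_mem (hfree.sec i)), ?_, ?_⟩
  · simp only [hrat]
    exact hpl.indep
  · have h1 : PF k (fun i => c * τ i) = PF k τ := by
      unfold PF
      simp only [hrat]
    rw [h1]
    omega
  · intro V hP i hi
    simp only [hrat] at hi
    have hPτ : PCurve k τ V := ⟨hP.kv, by simpa only [hrat] using hP.tr⟩
    obtain ⟨e3, he3⟩ := exists_top V hpk hdne
    obtain ⟨hval, e4, he4, hnc⟩ := plane hpk hfree hpl.ne hPτ he3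
    have hon : ¬ On u v V j := by
      intro hon
      obtain ⟨a, ha⟩ := hCTR k Ω u v huv V hP.kv j hon (dm j) (dm_nef j)
        (dm_contr j) e3 e4 he3 he4
      exact hnc a ha
    refine ⟨⟨hP.kv, dm j, e3, e4, dm_nef j, he3, he4, hnc⟩, hon, ?_⟩
    intro e he
    -- a maximal monomial of degree `4 + chi j`
    obtain ⟨e0, he0⟩ : ∃ e0, Top u v V (fun i => 4 + chi j i) e0 := by
      refine exists_top V hpk ⟨e + Pi.single j 1, ?_⟩
      intro a
      rw [mdeg_add, he.1 a, mdeg_single]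
    have hr := (hRHO Ω u v hpk V j e e0 he he0).2 hon
    rw [sim_iff] at hr
    have hr1 : V.valuation (mo u v e0) = V.valuation (pk u v j) * V.valuation (mo u v e) := by
      have h1 := hr.2.2
      have h0 : V.valuation (mo u v e0) ≠ 0 := (map_ne_zero _).2 (mo_ne hpk e0)
      unfold rho at h1
      rw [map_div₀, map_one, div_eq_one_iff_eq h0, map_mul] at h1
      exact h1.symm
    -- two maximal monomials of the same degree
    have hT1 : Top u v V (dm j + (fun _ => 4)) (e3 + e) :=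
      hTOP Ω u v hpk V _ _ _ _ (dm_nef _) nef_four he3 he
    have hT2 : Top u v V (2 • (fun i => 4 + chi j i)) (2 • e0) :=
      top_smul V hTOP hpk (nef_chi j) he0 _
    have hdd : dm j + (fun _ => 4) = 2 • (fun i : Fin 5 => 4 + chi j i) := by
      funext a
      simp only [Pi.add_apply, Pi.smul_apply, smul_eq_mul, dm]
      omega
    rw [hdd] at hT1
    have hv := top_val V hpk hT1 hT2
    rw [mo_add, mo_smul, map_mul, map_pow, hr1] at hv
    have hA : V.valuation (mo u v e) ≠ 0 := (map_ne_zero _).2 (mo_ne hpk e)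
    have hQ : V.valuation (pk u v j) ≠ 0 := (map_ne_zero _).2 (hpk j)
    rw [sim_iff]
    refine ⟨mul_ne_zero hc0 (hpl.ne i), mul_ne_zero hl (mo_ne hpk e), ?_⟩
    rw [map_mul, hval i hi, hc, map_div₀, map_pow, map_mul]
    generalize V.valuation (mo u v e) = A at *
    generalize V.valuation (pk u v j) = Q at *
    generalize V.valuation (mo u v e3) = D at *
    generalize V.valuation l = G
    have h1 : D = Q ^ 2 * A := by
      have h2 : D * A = Q ^ 2 * A * A := by
        rw [hv, mul_pow, pow_two A]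
        ac_rfl
      exact mul_right_cancel₀ hA h2
    rw [div_mul_eq_mul_div, div_eq_iff (pow_ne_zero _ hQ), h1]
    ac_rfl

end Pool.Agent.SFB
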