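import Pool.Agent.SFB.StmtsT

/-!
# SFB, module PLZ: a plane for the class `n₀ L - D_j`
-/

set_option autoImplicit false

noncomputable section

namespace Pool.Agent.SFB

open scoped Classical
open Pool.Agent.EN2 Pool.Agent.SRF Pool.Agent.DIS IsLocalRing

namespace PLZ_

/-! ### Brackets and monomials -/

section brackets

variable {k Ω : Type} [Field k] [Field Ω] [Algebra k Ω] {u v : Ω}

theorem ne_of (h : AlgebraicIndependent k ![u, v]) (P : MvPolynomial (Fin 2) k) (x : Fin 2 → k)
    (hx : MvPolynomial.eval x P ≠ 0) : MvPolynomial.aeval ![u, v] P ≠ 0 := by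
  intro h0
  have h1 : P = 0 := (algebraicIndependent_iff.1 h) P h0
  rw [h1, map_zero] at hx
  exact hx rfl

theorem pk_ne (h : AlgebraicIndependent k ![u, v]) : ∀ i, pk u v i ≠ 0 := by
  have h1 : u ≠ 0 := by
    have := ne_of h (MvPolynomial.X 0) (fun _ => 1) (by simp)
    simpa using this
  have h2 : v ≠ 0 := by
    have := ne_of h (MvPolynomial.X 1) (fun _ => 1) (by simp)
    simpa using this
  have h3 : u - 1 ≠ 0 := by
    have := ne_of h (MvPolynomial.X 0 - 1) (fun _ => 0) (by simp)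
    simpa using this
  have h4 : v - 1 ≠ 0 := by
    have := ne_of h (MvPolynomial.X 1 - 1) (fun _ => 0) (by simp)
    simpa using this
  have h5 : u - v ≠ 0 := by
    have := ne_of h (MvPolynomial.X 0 - MvPolynomial.X 1) (fun i => if i = 0 then 1 else 0)
      (by simp)
    simpa using this
  have h3' : (1 : Ω) - u ≠ 0 := fun h => h3 (by linear_combination -h)
  have h4' : (1 : Ω) - v ≠ 0 := fun h => h4 (by linear_combination -h)
  intro i
  fin_cases i <;> simp [pk, pa, pb, XV.eS, XV.eT, h1, h2, h3', h4', h5]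

theorem mo_add (e e' : Fin 10 → ℕ) : mo u v (e + e') = mo u v e * mo u v e' := by
  unfold mo
  rw [← Finset.prod_mul_distrib]
  exact Finset.prod_congr rfl fun i _ => pow_add _ _ _

theorem mo_smul (n : ℕ) (e : Fin 10 → ℕ) : mo u v (n • e) = mo u v e ^ n := by
  unfold mo
  rw [← Finset.prod_pow]
  refine Finset.prod_congr rfl fun i _ => ?_
  rw [Pi.smul_apply, smul_eq_mul, mul_comm, pow_mul]

theorem mo_ne (h : ∀ i, pk u v i ≠ 0) (e : Fin 10 → ℕ) : mo u v e ≠ 0 :=
  Finset.prod_ne_zero_iff.2 fun i _ => pow_ne_zero _ (h i)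

theorem mdeg_add (e e' : Fin 10 → ℕ) (i : Fin 5) :
    XV.mdeg (e + e') i = XV.mdeg e i + XV.mdeg e' i := by
  unfold XV.mdeg
  rw [← Finset.sum_add_distrib]
  refine Finset.sum_congr rfl fun j _ => ?_
  split_ifs <;> simp

theorem exists_top (h : ∀ i, pk u v i ≠ 0) (V : ValuationSubring Ω) (d : Fin 5 → ℕ)
    (e₀ : Fin 10 → ℕ) (h₀ : Mon d e₀) : ∃ e, Top u v V d e := by
  have hfin : {e : Fin 10 → ℕ | Mon d e}.Finite := by
    refine (Set.finite_Iic (fun i => d (XV.eS i))).subset ?_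
    intro e he i
    show e i ≤ d (XV.eS i)
    rw [← he (XV.eS i)]
    exact XV.le_mdeg e i
  obtain ⟨e, he, hmax⟩ := Set.exists_max_image _ (fun e => V.valuation (mo u v e)) hfin ⟨e₀, h₀⟩
  refine ⟨e, he, fun e' he' => ?_⟩
  rw [← V.valuation_le_one_iff, map_div₀]
  have h1 : 0 < V.valuation (mo u v e) := by
    rw [zero_lt_iff, Ne, map_eq_zero]
    exact mo_ne h e
  exact (div_le_one₀ h1).2 (hmax e' he')

end brackets

/-! ### Sizes -/

section sizes

variable {Ω : Type} [Field Ω] {V : ValuationSubring Ω}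

theorem sim_iff (f g : Ω) :
    Sim V f g ↔ g ≠ 0 ∧ f ≠ 0 ∧ V.valuation f = V.valuation g := by
  constructor
  · rintro ⟨hg, h1, h2, hf⟩
    refine ⟨hg, hf, le_antisymm ?_ ?_⟩
    · have h3 : 0 < V.valuation g := by rwa [zero_lt_iff, Ne, map_eq_zero]
      rw [← V.valuation_le_one_iff, map_div₀] at h1
      exact (div_le_one₀ h3).1 h1
    · have h3 : 0 < V.valuation f := by rwa [zero_lt_iff, Ne, map_eq_zero]
      rw [← V.valuation_le_one_iff, map_div₀] at h2
      exact (div_le_one₀ h3).1 h2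
  · rintro ⟨hg, hf, h⟩
    refine ⟨hg, ?_, ?_, hf⟩
    · rw [← V.valuation_le_one_iff, map_div₀, h, div_self]
      rwa [Ne, map_eq_zero]
    · rw [← V.valuation_le_one_iff, map_div₀, ← h, div_self]
      rwa [Ne, map_eq_zero]

theorem top_sim {u v : Ω} (h : ∀ i, pk u v i ≠ 0) {d : Fin 5 → ℕ} {e e' : Fin 10 → ℕ}
    (he : Top u v V d e) (he' : Top u v V d e') :
    V.valuation (mo u v e) = V.valuation (mo u v e') :=
  ((sim_iff _ _).1 ⟨mo_ne h e', he'.2 e he.1, he.2 e' he'.1, mo_ne h e⟩).2.2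

end sizes

/-! ### Sections -/

section sections

variable {k Ω : Type} [Field k] [Field Ω] [Algebra k Ω] {u v : Ω} {V : ValuationSubring Ω}

theorem val_k (hV : KV k V) {a : k} (ha : a ≠ 0) : V.valuation (algebraMap k Ω a) = 1 := by
  have h1 : V.valuation (algebraMap k Ω a) ≤ 1 := (V.valuation_le_one_iff _).2 (hV a)
  have h2 : V.valuation (algebraMap k Ω a⁻¹) ≤ 1 := (V.valuation_le_one_iff _).2 (hV a⁻¹)
  have h3 : V.valuation (algebraMap k Ω a) * V.valuation (algebraMap k Ω a⁻¹) = 1 := by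
    rw [← map_mul, ← map_mul, mul_inv_cancel₀ ha, map_one, map_one]
  exact le_antisymm h1 (by
    calc (1 : V.ValueGroup) = V.valuation (algebraMap k Ω a) * V.valuation (algebraMap k Ω a⁻¹) :=
          h3.symm
      _ ≤ V.valuation (algebraMap k Ω a) * 1 := mul_le_mul_right h2 _
      _ = _ := mul_one _)

/-- the sections are of the size of the maximal monomial at most -/
theorem sec_mem (hV : KV k V) {d : Fin 5 → ℕ} {e : Fin 10 → ℕ} (he : Top u v V d e) {f : Ω}
    (hf : f ∈ Sec u v k d) : f / mo u v e ∈ V := by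
  refine Submodule.span_induction ?_ ?_ ?_ ?_ hf
  · rintro _ ⟨e', he', rfl⟩
    exact he.2 e' he'
  · rw [zero_div]
    exact zero_mem _
  · intro f g _ _ h1 h2
    rw [add_div]
    exact add_mem h1 h2
  · intro a f _ h1
    rw [Algebra.smul_def, mul_div_assoc]
    exact mul_mem (hV a) h1

/-- if all monomials are constant, then all sections are constant -/
theorem sec_const {d : Fin 5 → ℕ} {e : Fin 10 → ℕ} (hV : KV k V)
    (hc : ∀ e', Mon d e' → ∃ a : k, mo u v e' / mo u v e - algebraMap k Ω a ∈ V.nonunits) {f : Ω}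
    (hf : f ∈ Sec u v k d) : ∃ a : k, f / mo u v e - algebraMap k Ω a ∈ V.nonunits := by
  refine Submodule.span_induction ?_ ?_ ?_ ?_ hf
  · rintro _ ⟨e', he', rfl⟩
    exact hc e' he'
  · refine ⟨0, ?_⟩
    rw [zero_div, map_zero, sub_zero, V.mem_nonunits_iff, map_zero]
    exact zero_lt_one
  · rintro f g _ _ ⟨a, h1⟩ ⟨b, h2⟩
    refine ⟨a + b, ?_⟩
    rw [V.mem_nonunits_iff] at h1 h2 ⊢
    have h3 : (f + g) / mo u v e - algebraMap k Ω (a + b) =
        (f / mo u v e - algebraMap k Ω a) + (g / mo u v e - algebraMap k Ω b) := by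
      rw [map_add, add_div]
      ring
    rw [h3]
    exact V.valuation.map_add_lt h1 h2
  · rintro a f _ ⟨b, h1⟩
    refine ⟨a * b, ?_⟩
    rw [V.mem_nonunits_iff] at h1 ⊢
    have h3 : a • f / mo u v e - algebraMap k Ω (a * b) =
        algebraMap k Ω a * (f / mo u v e - algebraMap k Ω b) := by
      rw [map_mul, Algebra.smul_def]
      ring
    rw [h3, map_mul]
    calc V.valuation (algebraMap k Ω a) * V.valuation (f / mo u v e - algebraMap k Ω b)
        ≤ 1 * V.valuation (f / mo u v e - algebraMap k Ω b) :=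
          mul_le_mul_left ((V.valuation_le_one_iff _).2 (hV a)) _
      _ < 1 := by rwa [one_mul]

/-- quotients of constants -/
theorem const_div (hV : KV k V) {x y : Ω} {a b : k} (hx : V.valuation x = 1)
    (ha : x - algebraMap k Ω a ∈ V.nonunits) (hb : y - algebraMap k Ω b ∈ V.nonunits) :
    y / x - algebraMap k Ω (b / a) ∈ V.nonunits := by
  rw [V.mem_nonunits_iff] at ha hb ⊢
  have ha0 : a ≠ 0 := by
    rintro rfl
    rw [map_zero, sub_zero, hx] at ha
    exact lt_irrefl _ ha
  have hx0 : x ≠ 0 := by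
    rintro rfl
    rw [map_zero] at hx
    exact zero_ne_one hx
  have ha1 : algebraMap k Ω a ≠ 0 := by rwa [Ne, map_eq_zero]
  have h1 : y / x - algebraMap k Ω (b / a) =
      (algebraMap k Ω a * (y - algebraMap k Ω b) +
        (-algebraMap k Ω b) * (x - algebraMap k Ω a)) / (algebraMap k Ω a * x) := by
    rw [map_div₀]
    field_simp
    ring
  rw [h1, map_div₀, map_mul V.valuation (algebraMap k Ω a) x, hx, val_k hV ha0, mul_one, div_one]
  refine V.valuation.map_add_lt ?_ ?_
  · rw [map_mul, val_k hV ha0, one_mul]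
    exact hb
  · rw [map_mul]
    calc V.valuation (-algebraMap k Ω b) * V.valuation (x - algebraMap k Ω a)
        ≤ 1 * V.valuation (x - algebraMap k Ω a) :=
          mul_le_mul_left ((V.valuation_le_one_iff _).2 (neg_mem (hV b))) _
      _ < 1 := by rwa [one_mul]

/-- **the sections of a plane at a valuation ring** -/
theorem free_sim {d : Fin 5 → ℕ} {τ : Fin 3 → Ω} (hτ : Free u v k d τ) (hV : KV k V)
    (h : ∀ i, pk u v i ≠ 0) {e : Fin 10 → ℕ} (he : Top u v V d e) {i : Fin 3}
    (hi : ∀ j, τ j / τ i ∈ V) (h0 : τ i ≠ 0) :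
    V.valuation (τ i) = V.valuation (mo u v e) := by
  have h1 : τ i / mo u v e ∈ V := sec_mem hV he (hτ.sec i)
  obtain ⟨j, hj, h2⟩ := hτ.nz V hV e he
  have h3 : mo u v e / τ i ∈ V := by
    have h4 : mo u v e / τ i = (mo u v e / τ j) * (τ j / τ i) := by
      field_simp
    rw [h4]
    exact mul_mem h2 (hi j)
  exact ((sim_iff _ _).1 ⟨mo_ne h e, h1, h3, h0⟩).2.2

/-- the centre on the moduli space is a curve if the centre on the plane is one -/
theorem free_curve {d : Fin 5 → ℕ} {τ : Fin 3 → Ω} (hτ : Free u v k d τ)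
    (h0 : ∀ i, τ i ≠ 0) (h : ∀ i, pk u v i ≠ 0) (hV : PCurve k τ V) {e : Fin 10 → ℕ}
    (he : Top u v V d e) : ∃ e', Mon d e' ∧
      ∀ a : k, mo u v e' / mo u v e - algebraMap k Ω a ∉ V.nonunits := by
  by_contra hcon
  push Not at hcon
  obtain ⟨i, hi, j, hj⟩ := hV.tr
  obtain ⟨a, ha⟩ := sec_const hV.kv hcon (hτ.sec i)
  obtain ⟨b, hb⟩ := sec_const hV.kv hcon (hτ.sec j)
  have h1 := free_sim hτ hV.kv h he hi (h0 i)
  have h2 : V.valuation (τ i / mo u v e) = 1 := by
    rw [map_div₀, h1, div_self]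
    rw [Ne, map_eq_zero]
    exact mo_ne h e
  refine hj (b / a) ?_
  have h3 := const_div hV.kv h2 ha hb
  have h4 : τ j / mo u v e / (τ i / mo u v e) = τ j / τ i := by
    have := mo_ne h e
    have := h0 i
    field_simp
  rwa [h4] at h3

theorem pcurve_congr {σ τ : Fin 3 → Ω} (h : ∀ i j, σ j / σ i = τ j / τ i) (hV : PCurve k σ V) :
    PCurve k τ V := by
  obtain ⟨i, hi, j, hj⟩ := hV.tr
  refine ⟨hV.kv, i, fun j => ?_, j, fun a => ?_⟩
  · rw [← h]
    exact hi j
  · rw [← h]
    exact hj a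

/-! ### The field `UV` -/

theorem u_mem : u ∈ UV u v k := IntermediateField.subset_adjoin _ _ (Set.mem_insert _ _)

theorem v_mem : v ∈ UV u v k :=
  IntermediateField.subset_adjoin _ _ (Set.mem_insert_of_mem _ rfl)

theorem pk_mem (i : Fin 10) : pk u v i ∈ UV u v k := by
  have ha : ∀ j, pa u v j ∈ UV u v k := by
    intro j
    fin_cases j
    · exact zero_mem _
    · exact one_mem _
    · exact one_mem _
    · exact u_mem
    · exact v_mem
  have hb : ∀ j, (pb j : Ω) ∈ UV u v k := by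
    intro j
    fin_cases j
    · exact one_mem _
    · exact one_mem _
    · exact zero_mem _
    · exact one_mem _
    · exact one_mem _
  exact sub_mem (mul_mem (ha _) (hb _)) (mul_mem (ha _) (hb _))

theorem mo_mem (e : Fin 10 → ℕ) : mo u v e ∈ UV u v k :=
  prod_mem fun i _ => pow_mem (pk_mem i) _

theorem sec_UV {d : Fin 5 → ℕ} {f : Ω} (hf : f ∈ Sec u v k d) : f ∈ UV u v k := by
  refine Submodule.span_induction ?_ ?_ ?_ ?_ hf
  · rintro _ ⟨e, -, rfl⟩
    exact mo_mem e
  · exact zero_mem _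
  · intro f g _ _ h1 h2
    exact add_mem h1 h2
  · intro a f _ h1
    rw [Algebra.smul_def]
    exact mul_mem ((UV u v k).algebraMap_mem a) h1

end sections

/-! ### The class `n L - D_j` -/

section cls

theorem mdeg_smul (n : ℕ) (e : Fin 10 → ℕ) (i : Fin 5) :
    XV.mdeg (n • e) i = n * XV.mdeg e i := by
  unfold XV.mdeg
  rw [Finset.mul_sum]
  refine Finset.sum_congr rfl fun j _ => ?_
  split_ifs <;> simp

theorem mdeg_ind : ∀ (j : Fin 10) (i : Fin 5), XV.mdeg (XV.ind j) i = chi j i := by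
  decide

theorem mdeg_one : ∀ i : Fin 5, XV.mdeg (fun _ => 1) i = 4 := by
  decide

theorem chi_le : ∀ (j : Fin 10) (i : Fin 5), chi j i ≤ 1 := by
  decide

theorem sum_chi : ∀ (j : Fin 10), ∑ i, chi j i = 2 := by
  decide

theorem sum_chi_sq : ∀ (j : Fin 10), ∑ i, chi j i ^ 2 = 2 := by
  decide

theorem nef_chi : ∀ (j : Fin 10), Nef (fun i => 4 + chi j i) := by
  intro j
  constructor
  · rw [Finset.sum_add_distrib, sum_chi]
    exact ⟨11, by simp⟩
  · intro i
    rw [Finset.sum_add_distrib, sum_chi]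
    have h1 := chi_le j (XV.eS i)
    have h2 := chi_le j (XV.eT i)
    simp only [Finset.sum_const, Finset.card_univ, Fintype.card_fin, smul_eq_mul]
    omega

theorem nef_const (m : ℕ) : Nef (fun _ => 4 * m) := by
  constructor
  · refine ⟨10 * m, ?_⟩
    simp only [Finset.sum_const, Finset.card_univ, Fintype.card_fin, smul_eq_mul]
    ring
  · intro i
    simp only [Finset.sum_const, Finset.card_univ, Fintype.card_fin, smul_eq_mul]
    omega

variable {j : Fin 10} {n : ℕ}

theorem sum_d (hn : 1 ≤ n) : ∑ i, (4 * n - chi j i) + 2 = 20 * n := by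
  rw [← sum_chi j, ← Finset.sum_add_distrib]
  have h1 : ∀ i ∈ Finset.univ, 4 * n - chi j i + chi j i = 4 * n := by
    intro i _
    have := chi_le j i
    omega
  rw [Finset.sum_congr rfl h1]
  simp only [Finset.sum_const, Finset.card_univ, Fintype.card_fin, smul_eq_mul]
  ring

theorem sum_d_sq (hn : 1 ≤ n) : ∑ i, (4 * n - chi j i) ^ 2 + 16 * n = 80 * n ^ 2 + 2 := by
  have h1 : ∀ i ∈ Finset.univ, (4 * n - chi j i) ^ 2 + 8 * n * chi j i =
      16 * n ^ 2 + chi j i ^ 2 := by
    intro i _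
    have h2 := chi_le j i
    obtain ⟨m, hm⟩ : ∃ m, 4 * n = m + chi j i := ⟨4 * n - chi j i, by omega⟩
    have h3 : 16 * n ^ 2 = (m + chi j i) ^ 2 := by rw [← hm]; ring
    have h4 : 8 * n = 2 * (m + chi j i) := by rw [← hm]; ring
    rw [h3, h4, hm, Nat.add_sub_cancel]
    ring
  have h2 := Finset.sum_congr rfl h1
  rw [Finset.sum_add_distrib, ← Finset.mul_sum, sum_chi, Finset.sum_add_distrib, sum_chi_sq] at h2
  simp only [Finset.sum_const, Finset.card_univ, Fintype.card_fin, smul_eq_mul] at h2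
  linarith

theorem nef_d (hn : 1 ≤ n) : Nef (fun i => 4 * n - chi j i) := by
  have h : ∑ i, (fun i => 4 * n - chi j i) i + 2 = 20 * n := sum_d (j := j) hn
  constructor
  · exact ⟨10 * n - 1, by omega⟩
  · intro i
    show 2 * (4 * n - chi j (XV.eS i) + (4 * n - chi j (XV.eT i))) ≤ _
    omega

theorem mon_d (hn : 1 ≤ n) : Mon (fun i => 4 * n - chi j i) (fun i => n - XV.ind j i) := by
  intro i
  have h1 : (fun i => n - XV.ind j i) + XV.ind j = n • (fun _ => 1 : Fin 10 → ℕ) := by
    funext l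
    have h2 : XV.ind j l ≤ 1 := by
      unfold XV.ind
      split_ifs <;> omega
    show n - XV.ind j l + XV.ind j l = n * 1
    omega
  have h2 := congrArg (fun e => XV.mdeg e i) h1
  simp only [mdeg_add, mdeg_smul, mdeg_one, mdeg_ind] at h2
  have h3 := chi_le j i
  show XV.mdeg (fun i => n - XV.ind j i) i = 4 * n - chi j i
  omega

end cls

end PLZ_

open PLZ_ in
theorem PLZ_proof (hTOP : Stmt_TOP) (hTRP : Stmt_TRP) (_hRHO : Stmt_RHO) : Stmt_PLZ := by
  intro k Ω _ _ _ _ u v l hind hl hlUV j n hn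
  have hpk := pk_ne hind
  have hnef := nef_d (j := j) hn
  have hs := sum_d (j := j) hn
  have hq := sum_d_sq (j := j) hn
  obtain ⟨τ, hfree, hpl, hdeg⟩ := hTRP k Ω u v hind _ hnef (by
    zify at hs hq ⊢
    have h1 : ((∑ i, ((4 * n - chi j i : ℕ) : ℤ)) : ℤ) = 20 * n - 2 := by linarith
    have h2 : (∑ i, ((4 * n - chi j i : ℕ) : ℤ) ^ 2) = 80 * n ^ 2 + 2 - 16 * n := by linarith
    rw [h1, h2]
    have h3 : (1 : ℤ) ≤ n := by exact_mod_cast hn
    nlinarith)
  set σ : Fin 3 → Ω := fun i => l ^ n * τ i * pk u v j with hσ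
  have hσ0 : ∀ i, σ i ≠ 0 := fun i =>
    mul_ne_zero (mul_ne_zero (pow_ne_zero _ hl) (hpl.ne i)) (hpk j)
  have hrat : ∀ i i', σ i' / σ i = τ i' / τ i := by
    intro i i'
    have h1 := hpl.ne i
    have h2 := hpk j
    simp only [hσ]
    field_simp
  have hPF : PF k σ = PF k τ := by
    unfold PF
    rw [hrat, hrat]
  refine ⟨σ, ⟨hσ0, ?_⟩, ?_, ?_, ?_⟩
  · rw [hrat, hrat]
    exact hpl.indep
  · intro i
    exact mul_mem (mul_mem (pow_mem hlUV _) (sec_UV (hfree.sec i))) (pk_mem j)
  · rw [hPF]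
    zify at hs hq hdeg ⊢
    have h1 : ((∑ i, ((4 * n - chi j i : ℕ) : ℤ)) : ℤ) = 20 * n - 2 := by linarith
    have h2 : (∑ i, ((4 * n - chi j i : ℕ) : ℤ) ^ 2) = 80 * n ^ 2 + 2 - 16 * n := by linarith
    rw [h1, h2] at hdeg
    have h3 : (1 : ℤ) ≤ n := by exact_mod_cast hn
    nlinarith
  · intro V hV i hi
    have hVτ := pcurve_congr hrat hV
    obtain ⟨e₁, he₁⟩ := exists_top hpk V _ _ (mon_d (j := j) hn)
    obtain ⟨e₂, he₂, he₂'⟩ := free_curve hfree hpl.ne hpk hVτ he₁
    refine ⟨⟨hV.kv, _, e₁, e₂, hnef, he₁, he₂, he₂'⟩, fun e e' he he' => ?_⟩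
    have h1 : V.valuation (τ i) = V.valuation (mo u v e₁) :=
      free_sim hfree hV.kv hpk he₁ (fun j => by rw [← hrat]; exact hi j) (hpl.ne i)
    -- the maximal monomials of degree `4 (n + 1)`
    have h2 : ∀ m : ℕ, Top u v V (fun _ => 4 * (m + 1)) ((m + 1) • e) := by
      intro m
      induction m with
      | zero => simpa using he
      | succ m ih =>
        have h3 := hTOP Ω u v hpk V _ _ _ _ (nef_const (m + 1)) (nef_const 1) ih
          (by simpa using he)
        have h4 : (fun _ => 4 * (m + 1) : Fin 5 → ℕ) + (fun _ => 4 * 1) =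
            fun _ => 4 * (m + 1 + 1) := by
          funext i
          show 4 * (m + 1) + 4 * 1 = _
          ring
        rw [h4, ← succ_nsmul] at h3
        exact h3
    have h3 := hTOP Ω u v hpk V _ _ _ _ hnef (nef_chi j) he₁ he'
    have h4 : (fun i => 4 * n - chi j i) + (fun i => 4 + chi j i) =
        (fun _ => 4 * (n + 1) : Fin 5 → ℕ) := by
      funext i
      have := chi_le j i
      show 4 * n - chi j i + (4 + chi j i) = _
      omega
    rw [h4] at h3
    have h5 := top_sim hpk h3 (h2 n)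
    rw [mo_add, mo_smul, map_mul, map_pow] at h5
    rw [sim_iff]
    have h6 := mo_ne hpk e'
    have h7 := mo_ne hpk e
    refine ⟨mul_ne_zero (pow_ne_zero _ (mul_ne_zero hl h7)) (div_ne_zero (mul_ne_zero (hpk j) h7)
      h6), hσ0 i, ?_⟩
    have h8 : V.valuation (mo u v e') ≠ 0 := by rwa [Ne, map_eq_zero]
    simp only [hσ, rho, map_mul, map_pow, map_div₀]
    rw [← mul_div_assoc, eq_div_iff h8, h1]
    calc V.valuation l ^ n * V.valuation (mo u v e₁) * V.valuation (pk u v j) *
          V.valuation (mo u v e') = V.valuation l ^ n * V.valuation (pk u v j) *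
          (V.valuation (mo u v e₁) * V.valuation (mo u v e')) := by
            simp only [mul_comm, mul_left_comm, mul_assoc]
      _ = _ := by
        rw [h5, mul_pow, pow_succ]
        simp only [mul_comm, mul_left_comm, mul_assoc]

end Pool.Agent.SFB
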