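import Pool.Agent.SFB.DSJ

/-!
# Special fibre bounds, module PTC: the crossing points are rational

After a permutation of the five points the edges are `01` and `23`, and on the points with
`w = 0`, `e_01 = e_23 = 0` the three-term relations lose one term: the values at all these points
are equal to the value at one fixed point.
-/

set_option autoImplicit false

noncomputable section

namespace Pool.Agent.SFB

open Pool.Agent.XV

namespace PTC_

open DSJ_

/-- the exponents of the base point -/
def e00 : Fin 10 → ℕ := ![0, 2, 2, 0, 2, 0, 2, 0, 0, 2]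

/-- the base point -/
def g00 : Pt := ⟨0, e00, by
  refine ⟨?_, Nat.zero_le _, fun _ => Nat.zero_le _, fun _ => Nat.zero_le _,
    fun _ _ _ => Nat.zero_le _⟩
  decide +kernel⟩

/-- disjoint edges are the images of `01` and `23` under a permutation -/
theorem perm : ∀ i j : Fin 10, Disj i j → ∃ π : Equiv.Perm (Fin 5), pe π 0 = i ∧ pe π 7 = j := by
  decide +kernel

theorem base (hTri : XV.Stmt_Tri) {Ω : Type} [Field Ω] (s : Pt → Ω) (hs : IsSol s)
    (h0 : ∀ c, 1 ≤ c.e 0 → s c = 0) (h7 : ∀ c, 1 ≤ c.e 7 → s c = 0) :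
    ∀ (n : ℕ) (g : Pt), g.e 3 + g.e 8 + g.e 5 = n → g.w = 0 → g.e 0 = 0 → g.e 7 = 0 →
      s g = s g00 := by
  intro n
  induction n using Nat.strong_induction_on with
  | _ n ih =>
    intro g hn gw g0 g7
    obtain ⟨d0, d1, d2, d3, d4⟩ := deg_eqs g.e (fun i => by
      have := g.adm.deg i
      rw [gw] at this
      omega)
    by_cases g3 : 1 ≤ g.e 3
    · have g45 : 1 ≤ g.e 4 ∨ 1 ≤ g.e 5 := by omega
      rcases g45 with g4 | g5
      · obtain ⟨k1, c, cw, hc⟩ := move g gw 3 4 0 8 (by decide) g3 g4 (by decide +kernel)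
        obtain ⟨k2, c', cw', hc'⟩ := move g gw 3 4 1 6 (by decide) g3 g4 (by decide +kernel)
        have h := hTri Ω s hs 0 1 2 4 (by decide) (by decide) (by decide)
          (fun k => g.e k - ind 3 k - ind 4 k) c c' g (by rw [cw, cw']) (by rw [gw, cw'])
          hc hc' k1
        have e1 : s c = 0 := h0 c (by
          rw [hc 0]
          show 1 ≤ _ + 1 + _
          omega)
        rw [e1, zero_add] at h
        rw [← h]
        have q3 : c'.e 3 = g.e 3 - 1 := hc' 3
        have q8 : c'.e 8 = g.e 8 := hc' 8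
        have q5 : c'.e 5 = g.e 5 := hc' 5
        have q0 : c'.e 0 = g.e 0 := hc' 0
        have q7 : c'.e 7 = g.e 7 := hc' 7
        exact ih (c'.e 3 + c'.e 8 + c'.e 5) (by omega) c' rfl cw' (by omega) (by omega)
      · obtain ⟨k1, c, cw, hc⟩ := move g gw 3 5 0 9 (by decide) g3 g5 (by decide +kernel)
        obtain ⟨k2, c', cw', hc'⟩ := move g gw 3 5 2 6 (by decide) g3 g5 (by decide +kernel)
        have h := hTri Ω s hs 0 1 3 4 (by decide) (by decide) (by decide)
          (fun k => g.e k - ind 3 k - ind 5 k) c c' g (by rw [cw, cw']) (by rw [gw, cw'])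
          hc hc' k1
        have e1 : s c = 0 := h0 c (by
          rw [hc 0]
          show 1 ≤ _ + 1 + _
          omega)
        rw [e1, zero_add] at h
        rw [← h]
        have q3 : c'.e 3 = g.e 3 - 1 := hc' 3
        have q8 : c'.e 8 = g.e 8 := hc' 8
        have q5 : c'.e 5 = g.e 5 - 1 := hc' 5
        have q0 : c'.e 0 = g.e 0 := hc' 0
        have q7 : c'.e 7 = g.e 7 := hc' 7
        exact ih (c'.e 3 + c'.e 8 + c'.e 5) (by omega) c' rfl cw' (by omega) (by omega)
    by_cases g8 : 1 ≤ g.e 8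
    · have g25 : 1 ≤ g.e 2 ∨ 1 ≤ g.e 5 := by omega
      rcases g25 with g2 | g5
      · obtain ⟨k1, c, cw, hc⟩ := move g gw 2 8 1 9 (by decide) g2 g8 (by decide +kernel)
        obtain ⟨k2, c', cw', hc'⟩ := move g gw 2 8 3 7 (by decide) g2 g8 (by decide +kernel)
        have h := hTri Ω s hs 0 2 3 4 (by decide) (by decide) (by decide)
          (fun k => g.e k - ind 2 k - ind 8 k) c g c' (by rw [cw, gw]) (by rw [gw, cw'])
          hc k1 hc'
        have e1 : s c' = 0 := h7 c' (by
          rw [hc' 7]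
          show 1 ≤ _ + _ + 1
          omega)
        rw [e1, add_zero] at h
        rw [h]
        have q3 : c.e 3 = g.e 3 := hc 3
        have q8 : c.e 8 = g.e 8 - 1 := hc 8
        have q5 : c.e 5 = g.e 5 := hc 5
        have q0 : c.e 0 = g.e 0 := hc 0
        have q7 : c.e 7 = g.e 7 := hc 7
        exact ih (c.e 3 + c.e 8 + c.e 5) (by omega) c rfl cw (by omega) (by omega)
      · obtain ⟨k1, c, cw, hc⟩ := move g gw 5 8 4 9 (by decide) g5 g8 (by decide +kernel)
        obtain ⟨k2, c', cw', hc'⟩ := move g gw 5 8 6 7 (by decide) g5 g8 (by decide +kernel)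
        have h := hTri Ω s hs 1 2 3 4 (by decide) (by decide) (by decide)
          (fun k => g.e k - ind 5 k - ind 8 k) c g c' (by rw [cw, gw]) (by rw [gw, cw'])
          hc k1 hc'
        have e1 : s c' = 0 := h7 c' (by
          rw [hc' 7]
          show 1 ≤ _ + _ + 1
          omega)
        rw [e1, add_zero] at h
        rw [h]
        have q3 : c.e 3 = g.e 3 := hc 3
        have q8 : c.e 8 = g.e 8 - 1 := hc 8
        have q5 : c.e 5 = g.e 5 - 1 := hc 5
        have q0 : c.e 0 = g.e 0 := hc 0
        have q7 : c.e 7 = g.e 7 := hc 7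
        exact ih (c.e 3 + c.e 8 + c.e 5) (by omega) c rfl cw (by omega) (by omega)
    by_cases g5 : 1 ≤ g.e 5
    · have g1 : 1 ≤ g.e 1 := by omega
      obtain ⟨k1, c, cw, hc⟩ := move g gw 1 5 0 7 (by decide) g1 g5 (by decide +kernel)
      obtain ⟨k2, c', cw', hc'⟩ := move g gw 1 5 2 4 (by decide) g1 g5 (by decide +kernel)
      have h := hTri Ω s hs 0 1 2 3 (by decide) (by decide) (by decide)
        (fun k => g.e k - ind 1 k - ind 5 k) c g c' (by rw [cw, gw]) (by rw [gw, cw'])
        hc k1 hc'
      have e1 : s c = 0 := h0 c (by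
        rw [hc 0]
        show 1 ≤ _ + 1 + _
        omega)
      rw [e1, zero_add] at h
      rw [h]
      have q3 : c'.e 3 = g.e 3 := hc' 3
      have q8 : c'.e 8 = g.e 8 := hc' 8
      have q5 : c'.e 5 = g.e 5 - 1 := hc' 5
      have q0 : c'.e 0 = g.e 0 := hc' 0
      have q7 : c'.e 7 = g.e 7 := hc' 7
      exact ih (c'.e 3 + c'.e 8 + c'.e 5) (by omega) c' rfl cw' (by omega) (by omega)
    have hg : g = g00 := by
      refine Pt.ext gw (funext fun k => ?_)
      fin_cases k
      · show g.e 0 = 0
        omega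
      · show g.e 1 = 2
        omega
      · show g.e 2 = 2
        omega
      · show g.e 3 = 0
        omega
      · show g.e 4 = 2
        omega
      · show g.e 5 = 0
        omega
      · show g.e 6 = 2
        omega
      · show g.e 7 = 0
        omega
      · show g.e 8 = 0
        omega
      · show g.e 9 = 2
        omega
    rw [hg]

end PTC_

open PTC_ in
theorem ptc_proof (hTri : XV.Stmt_Tri) (hSym : XV.Stmt_Sym) : Stmt_PTC := by
  intro i j hd
  obtain ⟨π, rfl, rfl⟩ := perm i j hd
  refine ⟨fun c => if c.w = 0 ∧ c.e (pe π 0) = 0 ∧ c.e (pe π 7) = 0 then sgn π (act π⁻¹ c) else 0,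
    ?_⟩
  intro Ω _ s hs hw hi hj
  refine ⟨tws π s g00, fun c => ?_⟩
  dsimp only
  split_ifs with h
  · obtain ⟨h1, h2, h3⟩ := h
    have hz : ∀ c, s (act π c) = 0 → tws π s c = 0 := by
      intro c h
      unfold tws
      rw [h, mul_zero]
    have hb := base hTri (tws π s) (hSym Ω s π hs)
      (fun c hc => hz c (hi _ (by rw [act_e]; exact hc)))
      (fun c hc => hz c (hj _ (by rw [act_e]; exact hc))) _ (act π⁻¹ c) rfl h1 (by
        show c.e (pe π⁻¹⁻¹ 0) = 0
        rw [inv_inv]
        exact h2) (by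
        show c.e (pe π⁻¹⁻¹ 7) = 0
        rw [inv_inv]
        exact h3)
    rw [← hb]
    have h4 : act π (act π⁻¹ c) = c := by
      ext k
      · rfl
      · show c.e (pe π⁻¹⁻¹ (pe π⁻¹ k)) = c.e k
        rw [← pe_mul, inv_mul_cancel, pe_one]
    unfold tws
    rw [h4]
    have hsg : IsUnit (sgn π (act π⁻¹ c)) := by
      unfold sgn
      refine (IsUnit.prod_univ_iff).2 fun k => IsUnit.pow _ ?_
      unfold sg
      split_ifs
      · exact isUnit_one
      · exact isUnit_one.neg
    rcases Int.isUnit_iff.1 hsg with h | h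
    · rw [h]
      simp
    · rw [h]
      simp
  · rw [Int.cast_zero, zero_mul]
    by_cases h1 : c.w = 0
    · by_cases h2 : c.e (pe π 0) = 0
      · exact hj c (Nat.one_le_iff_ne_zero.2 fun h3 => h ⟨h1, h2, h3⟩)
      · exact hi c (Nat.one_le_iff_ne_zero.2 h2)
    · exact hw c (Nat.one_le_iff_ne_zero.2 h1)

end Pool.Agent.SFB
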