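import Pool.Agent.SFB.StmtsT
import Pool.Agent.SRF.Stmts

/-!
# REG: reductions of functions without poles near `V`
-/

set_option autoImplicit false

noncomputable section

namespace Pool.Agent.SFB

open scoped Classical
open Pool.Agent.EN2 Pool.Agent.SRF Pool.Agent.DIS IsLocalRing

namespace REG_

/-! ## Brackets -/

theorem pk_ne {k Ω : Type} [Field k] [Field Ω] [Algebra k Ω] {u v : Ω}
    (h : AlgebraicIndependent k ![u, v]) (i : Fin 10) : pk u v i ≠ 0 := by
  have hu : Transcendental k u := by simpa using h.transcendental 0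
  have hv : Transcendental k v := by simpa using h.transcendental 1
  have huv : u ≠ v := by
    intro huv
    have := h.injective (a₁ := 0) (a₂ := 1) (by simpa using huv)
    exact absurd this (by decide)
  have hu0 : u ≠ 0 := by rintro rfl; exact hu isAlgebraic_zero
  have hv0 : v ≠ 0 := by rintro rfl; exact hv isAlgebraic_zero
  have hu1 : u ≠ 1 := by rintro rfl; exact hu isAlgebraic_one
  have hv1 : v ≠ 1 := by rintro rfl; exact hv isAlgebraic_one
  fin_cases i <;> simp [pk, pa, pb, XV.eS, XV.eT, sub_eq_zero, hu0, hv0, hu1, hv1, huv, huv.symm,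
    hu1.symm, hv1.symm]

theorem mo_ne {k Ω : Type} [Field k] [Field Ω] [Algebra k Ω] {u v : Ω}
    (h : AlgebraicIndependent k ![u, v]) (e : Fin 10 → ℕ) : mo u v e ≠ 0 :=
  Finset.prod_ne_zero_iff.mpr fun i _ => pow_ne_zero _ (pk_ne h i)

theorem sec_div {k Ω : Type} [Field k] [Field Ω] [Algebra k Ω] {u v : Ω}
    {V : ValuationSubring Ω} (hV : KV k V) {d : Fin 5 → ℕ} {e : Fin 10 → ℕ} (he : Top u v V d e)
    {f : Ω} (hf : f ∈ Sec u v k d) : f / mo u v e ∈ V := by
  induction hf using Submodule.span_induction with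
  | mem f hf =>
    obtain ⟨e', he', rfl⟩ := hf
    exact he.2 e' he'
  | zero => rw [zero_div]; exact zero_mem _
  | add f g _ _ hf hg => rw [add_div]; exact add_mem hf hg
  | smul a f _ hf =>
    rw [Algebra.smul_def, mul_div_assoc]
    exact mul_mem (hV a) hf

/-! ## The coordinates of the plane -/

section

variable {K : Type} [Field K] {O : ValuationSubring K} {F : Type} [Field F] [Algebra K F]
  {x y : F}

theorem z_ne (hs : IsSurf K x y) (i : Fin 3) : z x y i ≠ 0 := by
  have hx : Transcendental K x := by simpa using hs.indep.transcendental 0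
  have hy : Transcendental K y := by simpa using hs.indep.transcendental 1
  have hx0 : x ≠ 0 := by rintro rfl; exact hx isAlgebraic_zero
  have hy0 : y ≠ 0 := by rintro rfl; exact hy isAlgebraic_zero
  fin_cases i <;> simp [z, hx0, hy0]

/-- `z a` is maximal at `W`. -/
def Mx (x y : F) (W : ValuationSubring F) (a : Fin 3) : Prop := ∀ b, z x y b / z x y a ∈ W

theorem exists_mx (hz : ∀ i, z x y i ≠ 0) (W : ValuationSubring F) : ∃ a, Mx x y W a := by
  obtain ⟨a, -, ha⟩ := Finset.exists_max_image Finset.univ (fun i => W.valuation (z x y i))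
    ⟨(0 : Fin 3), Finset.mem_univ _⟩
  refine ⟨a, fun b => ?_⟩
  rw [← W.valuation_le_one_iff, map_div₀]
  have h0 : W.valuation (z x y a) ≠ 0 := (Valuation.ne_zero_iff _).mpr (hz a)
  exact div_le_one_of_le₀ (ha b (Finset.mem_univ _)) zero_le

theorem intO_iff (hz : ∀ i, z x y i ≠ 0) {n : ℕ} {f : F} :
    IntO O x y n f ↔ ∀ W : Pl O F, ∀ a, Mx x y W.W a → f / z x y a ^ n ∈ W.W := by
  constructor
  · intro h W a ha
    obtain ⟨i, hi⟩ := h W
    have h1 : f / z x y a ^ n = f / z x y i ^ n * (z x y i / z x y a) ^ n := by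
      have := hz i
      have := hz a
      rw [div_pow]
      field_simp
    rw [h1]
    exact mul_mem hi (pow_mem (ha i) n)
  · intro h W
    obtain ⟨a, ha⟩ := exists_mx hz W.W
    exact ⟨a, h W a ha⟩

theorem intO_one : IntO O x y 0 1 := fun W => ⟨0, by simp only [pow_zero, div_one]; exact one_mem _⟩

theorem intO_mul (hz : ∀ i, z x y i ≠ 0) {n m : ℕ} {f g : F} (hf : IntO O x y n f)
    (hg : IntO O x y m g) : IntO O x y (n + m) (f * g) := by
  rw [intO_iff hz] at *
  intro W a ha
  rw [pow_add, mul_div_mul_comm]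
  exact mul_mem (hf W a ha) (hg W a ha)

theorem intO_pow (hz : ∀ i, z x y i ≠ 0) {n : ℕ} {f : F} (hf : IntO O x y n f) (m : ℕ) :
    IntO O x y (m * n) (f ^ m) := by
  induction m with
  | zero => rw [zero_mul, pow_zero]; exact intO_one
  | succ m ih =>
    rw [pow_succ, Nat.succ_mul]
    exact intO_mul hz ih hf

theorem intO_sub (hz : ∀ i, z x y i ≠ 0) {n : ℕ} {f g : F} (hf : IntO O x y n f)
    (hg : IntO O x y n g) : IntO O x y n (f - g) := by
  rw [intO_iff hz] at *
  intro W a ha
  rw [sub_div]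
  exact sub_mem (hf W a ha) (hg W a ha)

theorem intO_smul {n : ℕ} {f : F} (hf : IntO O x y n f) {κ : K} (hκ : κ ∈ O) :
    IntO O x y n (κ • f) := by
  intro W
  obtain ⟨i, hi⟩ := hf W
  refine ⟨i, ?_⟩
  rw [Algebra.smul_def, mul_div_assoc]
  exact mul_mem (W.mem_alg hκ) hi

theorem intO_aeval (hz : ∀ i, z x y i ≠ 0) {N : ℕ} {X : Fin N → F}
    (hX : ∀ i, IntO O x y 1 (X i)) {m : ℕ} {P : MvPolynomial (Fin N) O}
    (hP : P.IsHomogeneous m) : IntO O x y m (MvPolynomial.aeval X P) := by
  rw [intO_iff hz]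
  intro W a ha
  rw [MvPolynomial.aeval_def, MvPolynomial.eval₂_eq', Finset.sum_div]
  refine sum_mem fun d hd => ?_
  have hd' : ∑ i, d i = m := by
    have := hP (MvPolynomial.mem_support_iff.mp hd)
    rw [← this, Finsupp.weight_apply, Finsupp.sum_fintype]
    · simp
    · intro i; simp
  rw [← hd', ← Finset.prod_pow_eq_pow_sum, mul_div_assoc, ← Finset.prod_div_distrib]
  refine mul_mem (W.mem_alg (MvPolynomial.coeff d P).2) (prod_mem fun i _ => ?_)
  rw [← div_pow]
  refine pow_mem ?_ _
  have := (intO_iff hz).mp (hX i) W a ha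
  rwa [pow_one] at this

/-- Integral functions are bounded. -/
theorem intO_bd (hz : ∀ i, z x y i ≠ 0) {n : ℕ} {f : F} (hf : IntO O x y n f) : Bd O x y f := by
  intro c
  obtain ⟨i, hi⟩ := hf c.1
  have hzi : z x y i ∈ c.1.W := by
    fin_cases i
    · exact one_mem _
    · exact c.2.memx
    · exact c.2.memy
  have h1 : f = f / z x y i ^ n * z x y i ^ n := by
    have := hz i
    field_simp
  rw [h1]
  exact mul_mem hi (pow_mem hzi n)

theorem res_ne_of_inv {W : Pl O F} {f : F} (hf : f ∈ W.W) (hf' : f⁻¹ ∈ W.W) (h0 : f ≠ 0) :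
    W.res f ≠ 0 := by
  intro h
  have h1 := W.res_mul hf hf'
  rw [mul_inv_cancel₀ h0, W.res_one, h, zero_mul] at h1
  exact one_ne_zero h1

/-- A sum of a unit and a nonunit. -/
theorem res_sub_ne {W : Pl O F} {f g : F} (hf : W.res f ≠ 0) (hg : g ∈ W.W.nonunits) :
    W.res (f - g) ≠ 0 := by
  rw [W.res_sub (W.mem_of_res hf) (W.mem_of_nonunit hg), W.res_nonunit hg, sub_zero]
  exact hf

end

/-! ## Multipliers -/

section

variable {p : ℕ} [Fact p.Prime] {J : Type} {E : FRM.Eqs p XV.N J}

theorem H_nonneg (T : ExactSurf E) (e : PP T.K T.x T.y) : 0 ≤ H T.K T.x T.y e := le_max_left _ _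

theorem exists_mult (hTUB : Stmt_TUB) (hIOL : Stmt_IOL) (T : ExactSurf E) (j : Edge)
    (i : Fin (XV.N + 1)) (hi : 1 ≤ (XV.pt i).e j) (W : Pl T.O T.F) (a : Fin 3)
    (ha : Mx T.x T.y W.W a) (hX : W.res (T.X i / z T.x T.y a) ≠ 0)
    (M : PP T.K T.x T.y → ℕ) (S : Finset (PP T.K T.x T.y)) (hS : ∀ e ∈ S, T.Tub j e) :
    ∃ (N : ℕ) (h : T.F), IntO T.O T.x T.y N h ∧ W.res (h / z T.x T.y a ^ N) ≠ 0 ∧
      ∀ e ∈ S, (M e : ℤ) ≤ ord e.1 h + N * H T.K T.x T.y e := by
  have hz := z_ne T.surf
  induction S using Finset.induction_on with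
  | empty =>
    refine ⟨0, 1, intO_one, ?_, ?_⟩
    · rw [pow_zero, div_one, W.res_one]; exact one_ne_zero
    · intro e he; simp at he
  | insert e S heS ih =>
    obtain ⟨N, h, h1, h2, h3⟩ := ih fun e he => hS e (Finset.mem_insert_of_mem he)
    obtain ⟨m, α, P, hm, hα, hP, hv⟩ := hTUB p J E T j e (hS e (Finset.mem_insert_self _ _)) i hi
    set q : T.F := T.X i ^ m - α • MvPolynomial.aeval T.X P with hq
    have hP' : IntO T.O T.x T.y m (MvPolynomial.aeval T.X P) := intO_aeval hz T.coord hP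
    have hq1 : IntO T.O T.x T.y m q := by
      refine intO_sub hz ?_ (intO_smul hP' (nonunit_mem hα))
      have := intO_pow hz (T.coord i) m
      rwa [mul_one] at this
    have hq2 : W.res (q / z T.x T.y a ^ m) ≠ 0 := by
      rw [hq, sub_div, ← div_pow]
      refine res_sub_ne ?_ ?_
      · rw [W.res_pow (W.mem_of_res hX)]
        exact pow_ne_zero _ hX
      · rw [Algebra.smul_def, mul_div_assoc, ← Algebra.smul_def]
        exact W.smul_nonunit hα ((intO_iff hz).mp hP' W a ha)
    have hq0 : q ≠ 0 := by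
      intro h0
      rw [h0, zero_div, W.res_zero] at hq2
      exact hq2 rfl
    have h0 : h ≠ 0 := by
      intro h0
      rw [h0, zero_div, W.res_zero] at h2
      exact h2 rfl
    have hv' := hv.resolve_left hq0
    have hLq : ∀ e' : PP T.K T.x T.y, 0 ≤ ord e'.1 q + m * H T.K T.x T.y e' := by
      intro e'
      have := ((mem_L _ _ _).mp (hIOL T.K T.O T.F T.x T.y T.surf m q hq1)).resolve_left hq0 e'
      linarith
    have hLh : ∀ e' : PP T.K T.x T.y, 0 ≤ ord e'.1 h + N * H T.K T.x T.y e' := by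
      intro e'
      have := ((mem_L _ _ _).mp (hIOL T.K T.O T.F T.x T.y T.surf N h h1)).resolve_left h0 e'
      linarith
    have hord : ∀ e' : PP T.K T.x T.y, ord e'.1 (h * q ^ M e) + (N + M e * m : ℕ) *
        H T.K T.x T.y e' = (ord e'.1 h + N * H T.K T.x T.y e') +
          M e * (ord e'.1 q + m * H T.K T.x T.y e') := by
      intro e'
      rw [e'.isOrd.mul _ _ h0 (pow_ne_zero _ hq0), e'.isOrd.pow hq0]
      push_cast
      ring
    refine ⟨N + M e * m, h * q ^ M e, intO_mul hz h1 (intO_pow hz hq1 _), ?_, ?_⟩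
    · rw [pow_add, mul_div_mul_comm, mul_comm (M e) m, pow_mul, ← div_pow,
        W.res_mul (W.mem_of_res h2) (pow_mem (W.mem_of_res hq2) _),
        W.res_pow (W.mem_of_res hq2)]
      exact mul_ne_zero h2 (pow_ne_zero _ hq2)
    · intro e' he'
      rw [hord]
      rcases Finset.mem_insert.mp he' with rfl | he'
      · have h4 := hLh e'
        have h5 : (M e' : ℤ) * 1 ≤ M e' * (ord e'.1 q + m * H T.K T.x T.y e') :=
          mul_le_mul_of_nonneg_left hv' (by positivity)
        linarith
      · have h4 := h3 e' he'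
        have h5 : 0 ≤ (M e : ℤ) * (ord e'.1 q + m * H T.K T.x T.y e') :=
          mul_nonneg (by positivity) (hLq e')
        linarith

end

end REG_

open REG_ in
theorem reg_proof (hMPR : Stmt_MPR) (hTUB : Stmt_TUB) (hCPP : Stmt_CPP) (_hSLW : Stmt_SLW)
    (hSUP : Pool.Agent.SRF.Stmt_SUP) (hIOL : Stmt_IOL) : Stmt_REG := by
  intro p _ J E T c u v l hF V hV e he n g hg
  have hz := z_ne T.surf
  have hmo : ∀ e, mo u v e ≠ 0 := mo_ne hF.ind
  obtain ⟨⟨W, hW⟩, hcp⟩ := hCPP T.K T.O T.F c.1 V hV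
  -- the maximal coordinate of the plane
  obtain ⟨a, ha0, ha1⟩ := hF.free.nz V hV e he
  have hxi0 : ∀ b, xi T.O T.x T.y c.1 b / l / mo u v e ∈ V := fun b =>
    sec_div hV he (hF.free.sec b)
  have hxa : xi T.O T.x T.y c.1 a ≠ 0 := by
    intro h
    apply ha0
    simp only [h, zero_div]
  have hl : l ≠ 0 := hF.l_ne
  have hres : ∀ b, c.1.res (z T.x T.y b) = xi T.O T.x T.y c.1 b := by
    intro b
    fin_cases b <;> simp [z, xi]
  have hzc : ∀ b, z T.x T.y b ∈ c.1.W := by
    intro b
    fin_cases b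
    · exact one_mem _
    · exact c.2.memx
    · exact c.2.memy
  have hza : c.1.res (z T.x T.y a) ≠ 0 := by rw [hres]; exact hxa
  have hmx : Mx T.x T.y W.W a := by
    intro b
    rw [hW]
    refine ⟨c.1.div_mem (hzc b) hza, ?_⟩
    rw [c.1.res_div (hzc b) hza, hres, hres]
    have h1 : xi T.O T.x T.y c.1 b / xi T.O T.x T.y c.1 a =
        (xi T.O T.x T.y c.1 b / l / mo u v e) * (mo u v e / (xi T.O T.x T.y c.1 a / l)) := by
      have := hmo e
      field_simp
    rw [h1]
    exact mul_mem (hxi0 b) ha1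
  -- the last step
  have hlast : g / z T.x T.y a ^ n ∈ W.W → c.1.res g / (l * mo u v e) ^ n ∈ V := by
    intro h
    rw [hW] at h
    have h1 := h.2
    have hzn : c.1.res (z T.x T.y a ^ n) ≠ 0 := by
      rw [c.1.res_pow (hzc a)]
      exact pow_ne_zero _ hza
    rw [c.1.res_div (hg c) hzn, c.1.res_pow (hzc a), hres] at h1
    have h2 : c.1.res g / (l * mo u v e) ^ n =
        c.1.res g / xi T.O T.x T.y c.1 a ^ n * (xi T.O T.x T.y c.1 a / l / mo u v e) ^ n := by
      have := hmo e
      rw [div_pow, div_pow, mul_pow]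
      field_simp
    rw [h2]
    exact mul_mem h1 (pow_mem (hxi0 a) n)
  constructor
  · intro hgn
    apply hlast
    have h1 : g ∈ L T.K T.x T.y (fun e => n * H T.K T.x T.y e) := by
      rcases hgn with h0 | h0
      · exact Or.inl h0
      · exact Or.inr fun O => h0 O (by simp)
    exact (intO_iff hz).mp (hMPR T.K T.O T.arch T.F T.x T.y T.surf n g h1 hg) W a hmx
  · intro j hj hgn
    by_cases hg0 : g = 0
    · rw [hg0, c.1.res_zero, zero_div]
      exact zero_mem _
    apply hlast
    -- the coordinate which is a unit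
    unfold On at hj
    push Not at hj
    obtain ⟨e4, he4, hj4⟩ := hj
    have hadm : XV.Adm 1 0 e4 := by
      refine ⟨fun i => ?_, by omega, fun k => by omega, fun k => by omega,
        fun k l _ => by omega⟩
      rw [he4.1 i]
    obtain ⟨i, hi⟩ := XV.pt.surjective ⟨0, e4, hadm⟩
    have hie : (XV.pt i).e = e4 := by rw [hi]
    have hiw : (XV.pt i).w = 0 := by rw [hi]
    have hXi : c.1.res (T.X i) = l * mo u v e4 := by rw [hF.sol0 i hiw, hie]
    have hXi0 : c.1.res (T.X i) ≠ 0 := by rw [hXi]; exact mul_ne_zero hl (hmo _)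
    have hXW : W.res (T.X i / z T.x T.y a) ≠ 0 := by
      have h1 : T.X i / z T.x T.y a ∈ W.W := by
        have := (intO_iff hz).mp (T.coord i) W a hmx
        rwa [pow_one] at this
      have h2 : (T.X i / z T.x T.y a)⁻¹ ∈ W.W := by
        rw [inv_div, hW]
        refine ⟨c.1.div_mem (hzc a) hXi0, ?_⟩
        rw [c.1.res_div (hzc a) hXi0, hres, hXi]
        have h3 : xi T.O T.x T.y c.1 a / (l * mo u v e4) =
            (xi T.O T.x T.y c.1 a / l / mo u v e) * (mo u v e / mo u v e4) := by
          have := hmo e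
          have := hmo e4
          field_simp
        rw [h3]
        exact mul_mem (hxi0 a) (he4.2 e he.1)
      refine res_ne_of_inv h1 h2 (div_ne_zero ?_ (hz a))
      exact c.1.ne_zero_of_res hXi0
    -- the multiplier
    have hfin := hSUP T.K T.F T.x T.y T.surf g hg0
    obtain ⟨N, h, h1, h2, h3⟩ := exists_mult hTUB hIOL T j i
      (by rw [hie]; exact Nat.one_le_iff_ne_zero.mpr hj4) W a hmx hXW
      (fun e => (ord e.1 g).natAbs) (hfin.toFinset.filter fun e => T.Tub j e)
      (fun e he => (Finset.mem_filter.mp he).2)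
    have hh0 : h ≠ 0 := by
      intro h0
      rw [h0, zero_div, W.res_zero] at h2
      exact h2 rfl
    have hLh : ∀ e' : PP T.K T.x T.y, 0 ≤ ord e'.1 h + N * H T.K T.x T.y e' := by
      intro e'
      have := ((mem_L _ _ _).mp (hIOL T.K T.O T.F T.x T.y T.surf N h h1)).resolve_left hh0 e'
      linarith
    have hG : g * h ∈ L T.K T.x T.y (fun e => (n + N : ℕ) * H T.K T.x T.y e) := by
      refine Or.inr fun e' => ?_
      rw [e'.isOrd.mul _ _ hg0 hh0]
      have hH := H_nonneg T e'
      have hnH : 0 ≤ (n : ℤ) * H T.K T.x T.y e' := mul_nonneg (by positivity) hH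
      push_cast
      by_cases hm : T.Tub j e'
      · by_cases h0 : ord e'.1 g = 0
        · have := hLh e'
          rw [h0]
          linarith
        · have h4 := h3 e' (Finset.mem_filter.mpr ⟨by simpa using h0, hm⟩)
          have h5 : - ord e'.1 g ≤ ((ord e'.1 g).natAbs : ℤ) := by omega
          linarith
      · have h4 : -((n : ℤ) * H T.K T.x T.y e') ≤ ord e'.1 g :=
          (hgn : g = 0 ∨ _).resolve_left hg0 e' hm
        have := hLh e'
        linarith
    have hB : Bd T.O T.x T.y (g * h) := fun c' => mul_mem (hg c') (intO_bd hz h1 c')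
    have h4 := (intO_iff hz).mp
      (hMPR T.K T.O T.arch T.F T.x T.y T.surf (n + N) (g * h) hG hB) W a hmx
    have h5 : g / z T.x T.y a ^ n = g * h / z T.x T.y a ^ (n + N) *
        (h / z T.x T.y a ^ N)⁻¹ := by
      have := hz a
      rw [pow_add]
      field_simp
    rw [h5]
    exact mul_mem h4 (W.inv_mem h2)

end Pool.Agent.SFB
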