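import Pool.Agent.SFB.StmtsT
import Pool.Agent.SFB.PLZ

/-!
RHO: size of the local equation.
-/

set_option autoImplicit false

namespace Pool.Agent.SFB

open PLZ_ in
theorem rho_proof (hTOP : Stmt_TOP) : Stmt_RHO := by
  intro Ω _ u v hpk V j e e' he he'
  have hne : ∀ f, mo u v f ≠ 0 := mo_ne hpk
  have hind : mo u v (XV.ind j) = pk u v j := by
    unfold mo
    rw [Finset.prod_eq_single j]
    · simp [XV.ind]
    · intro b _ hb
      simp [XV.ind, hb]
    · intro h
      exact absurd (Finset.mem_univ j) h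
  have hrho : rho u v j e e' ≠ 0 :=
    div_ne_zero (mul_ne_zero (hpk j) (hne e)) (hne e')
  have h1 : rho u v j e e' ∈ V := by
    have h2 : Mon (fun i => 4 + chi j i) (e + XV.ind j) := by
      intro i
      rw [mdeg_add, he.1 i, mdeg_ind]
    have h3 := he'.2 _ h2
    rw [mo_add, hind] at h3
    unfold rho
    rw [mul_comm (pk u v j)]
    exact h3
  refine ⟨h1, fun hOn => ⟨one_ne_zero, by rw [div_one]; exact h1, ?_, hrho⟩⟩
  unfold On at hOn
  push Not at hOn
  obtain ⟨e4, h4, h5⟩ := hOn
  have hsub : XV.ind j + (e4 - XV.ind j) = e4 := by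
    funext i
    simp only [Pi.add_apply, Pi.sub_apply, XV.ind]
    split_ifs with h
    · have : e4 i ≠ 0 := by rw [h]; exact h5
      omega
    · omega
  have h6 : Top u v V ((fun _ => 4) + fun _ => 4) (e + e) :=
    hTOP Ω u v hpk V _ _ _ _ (nef_const 1) (nef_const 1) he he
  have h7 : Mon ((fun _ => 4) + fun _ => 4) (e' + (e4 - XV.ind j)) := by
    intro i
    have a1 := he'.1 i
    have a2 := h4.1 i
    rw [← hsub, mdeg_add, mdeg_ind] at a2
    rw [mdeg_add, a1]
    simp only [Pi.add_apply]
    dsimp only at a2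
    omega
  have h8 := h6.2 _ h7
  have h9 := h4.2 _ he.1
  have h10 := V.mul_mem _ _ h8 h9
  have h11 : mo u v e4 = pk u v j * mo u v (e4 - XV.ind j) := by
    conv_lhs => rw [← hsub]
    rw [mo_add, hind]
  have h12 : 1 / rho u v j e e' = mo u v (e' + (e4 - XV.ind j)) / mo u v (e + e) *
      (mo u v e / mo u v e4) := by
    rw [h11, mo_add, mo_add]
    unfold rho
    have b1 := hpk j
    have b2 := hne e
    have b3 := hne e'
    have b4 := hne (e4 - XV.ind j)
    field_simp
  rw [h12]
  exact h10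

end Pool.Agent.SFB
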