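import Pool.Agent.SFB.StmtsT

set_option autoImplicit false

/-!
Module SLW of squad SFB: the coordinates at a place over `O`.
-/

noncomputable section

namespace Pool.Agent.SFB

open scoped Classical
open MvPolynomial Pool.Agent.EN2 Pool.Agent.SRF Pool.Agent.DIS Pool.Agent.FRM IsLocalRing

namespace SLW_

/-- The ghost polynomials are homogeneous (copy of `FRM.Eqs.hom₁`). -/
theorem hom1 {p N : ℕ} [Fact p.Prime] {J : Type} (E : Eqs p N J) (j : J) :
    (E.g₁ j).IsHomogeneous (p * E.e j) := by
  have hp : (p : ℤ) ≠ 0 := by exact_mod_cast (Fact.out : p.Prime).ne_zero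
  have h1 : (C (p : ℤ) * E.g₁ j).IsHomogeneous (p * E.e j) := by
    rw [E.ghost]
    apply IsHomogeneous.sub
    · intro m hm
      have h2 : m ∈ (expand p (E.g j)).support := by rwa [mem_support_iff]
      obtain ⟨m', hm', rfl⟩ := Finset.mem_image.1 (support_expand_subset _ h2)
      have h3 := E.hom j (mem_support_iff.1 hm')
      change Finsupp.weight 1 (p • m') = _
      rw [map_nsmul, h3, smul_eq_mul]
    · rw [mul_comm]
      exact (E.hom j).pow p
  intro m hm
  apply h1
  rw [coeff_C_mul]
  exact mul_ne_zero hp hm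

section

variable {R F σ : Type} [CommRing R] [Field F] [Algebra R F] [Fintype σ]

theorem aeval_hom (g : MvPolynomial σ R) (n : ℕ) (hg : g.IsHomogeneous n) (r : F) (Y : σ → F) :
    aeval (fun i => r * Y i) g = r ^ n * aeval Y g := by
  rw [aeval_def, aeval_def, eval₂_eq', eval₂_eq', Finset.mul_sum]
  refine Finset.sum_congr rfl fun m hm => ?_
  have h1 : ∑ i, m i = n := by
    have h2 := hg (mem_support_iff.1 hm)
    rw [← h2, Finsupp.weight_apply, Finsupp.sum_fintype _ _ (fun i => by simp)]
    exact Finset.sum_congr rfl fun i _ => by simp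
  have h3 : ∏ i, (r * Y i) ^ m i = r ^ n * ∏ i, Y i ^ m i := by
    rw [← h1, ← Finset.prod_pow_eq_pow_sum, ← Finset.prod_mul_distrib]
    exact Finset.prod_congr rfl fun i _ => mul_pow _ _ _
  rw [h3]
  ring

theorem aeval_div (g : MvPolynomial σ R) (n : ℕ) (hg : g.IsHomogeneous n) (r : F) (hr : r ≠ 0)
    (X : σ → F) : aeval X g = r ^ n * aeval (fun i => X i / r) g := by
  rw [← aeval_hom g n hg]
  congr 2
  funext i
  field_simp

theorem aeval_mem (W : ValuationSubring F) (hR : ∀ r : R, algebraMap R F r ∈ W)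
    (g : MvPolynomial σ R) (Y : σ → F) (hY : ∀ i, Y i ∈ W) : aeval Y g ∈ W := by
  rw [aeval_def, eval₂_eq']
  exact sum_mem fun m _ => mul_mem (hR _) (prod_mem fun i _ => pow_mem (hY i) _)

end

section

variable {K : Type} [Field K] {O : ValuationSubring K} {F : Type} [Field F] [Algebra K F]
  {x y : F}

theorem z_ne (hS : IsSurf K x y) (i : Fin 3) : z x y i ≠ 0 := by
  have hx : x ≠ 0 := hS.indep.ne_zero 0
  have hy : y ≠ 0 := hS.indep.ne_zero 1
  fin_cases i
  · exact one_ne_zero
  · exact hx
  · exact hy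

/-- bounds at a place -/
theorem intO_mem (hS : IsSurf K x y) {n : ℕ} {f : F} (hf : IntO O x y n f) (W : Pl O F)
    (a : Fin 3) (hW : ∀ b, z x y b / z x y a ∈ W.W) : f / z x y a ^ n ∈ W.W := by
  obtain ⟨i, hi⟩ := hf W
  have h1 : f / z x y a ^ n = f / z x y i ^ n * (z x y i / z x y a) ^ n := by
    have h2 := z_ne hS i
    have h3 := z_ne hS a
    rw [div_pow]
    field_simp
  rw [h1]
  exact mul_mem hi (pow_mem (hW i) n)

/-- a maximal coordinate -/
theorem exists_max (W : ValuationSubring F) (_hS : IsSurf K x y) :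
    ∃ a, ∀ b, z x y b / z x y a ∈ W := by
  obtain ⟨a, -, ha⟩ := Finset.exists_max_image (Finset.univ : Finset (Fin 3))
    (fun i => W.valuation (z x y i)) Finset.univ_nonempty
  refine ⟨a, fun b => ?_⟩
  rw [← W.valuation_le_one_iff, map_div₀]
  exact div_le_one_of_le₀ (ha b (Finset.mem_univ _)) zero_le

end

end SLW_

open SLW_ in
theorem slw_proof : Stmt_SLW := by
  intro p _ J E hE T W a ha hW
  have hS := T.surf
  set Y : Fin (XV.N + 1) → T.F := fun i => T.X i / z T.x T.y a with hY
  have hYW : ∀ i, Y i ∈ W.W := by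
    intro i
    have h := intO_mem hS (T.coord i) W a hW
    rwa [pow_one] at h
  have hZ : ∀ r : ℤ, algebraMap ℤ T.F r ∈ W.W := by
    intro r
    rw [algebraMap_int_eq, eq_intCast]
    exact intCast_mem _ r
  have htn : ∀ n : ℕ, 0 < n → algebraMap T.K T.F (T.t ^ n) ∈ W.W.nonunits := by
    intro n hn
    rw [W.alg_nonunit]
    obtain ⟨m, rfl⟩ := Nat.exists_eq_succ_of_ne_zero hn.ne'
    rw [pow_succ']
    exact nonunit_mul_mem T.t_mem (pow_mem (nonunit_mem T.t_mem) m)
  -- the equations
  have hsol : XV.IsSol fun c => W.res (T.X (XV.pt.symm c) / z T.x T.y a) := by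
    let y' : Fin (XV.N + 1) → W.W := fun i => ⟨Y i, hYW i⟩
    have hres : ∀ i, W.res (T.X (XV.pt.symm (XV.pt i)) / z T.x T.y a) = residue W.W (y' i) := by
      intro i
      rw [Equiv.symm_apply_apply]
      exact W.res_of_mem (hYW i)
    have hev : ∀ g : MvPolynomial (Fin (XV.N + 1)) ℤ,
        eval₂ (Int.castRingHom (ResidueField W.W))
          (fun i => W.res (T.X (XV.pt.symm (XV.pt i)) / z T.x T.y a)) g =
        residue W.W (eval₂ (Int.castRingHom W.W) y' g) := by
      intro g
      rw [hom_eval₂]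
      have h1 : (residue W.W).comp (Int.castRingHom W.W) =
          Int.castRingHom (ResidueField W.W) := RingHom.ext_int _ _
      rw [h1]
      have h2 : (fun i => W.res (T.X (XV.pt.symm (XV.pt i)) / z T.x T.y a)) =
          fun i => residue W.W (y' i) := funext hres
      rw [h2]
    have hcoe : ∀ g : MvPolynomial (Fin (XV.N + 1)) ℤ,
        ((eval₂ (Int.castRingHom W.W) y' g : W.W) : T.F) = aeval Y g := by
      intro g
      have h1 : ((eval₂ (Int.castRingHom W.W) y' g : W.W) : T.F) =
          W.W.subtype (eval₂ (Int.castRingHom W.W) y' g) := rfl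
      have h2 : W.W.subtype.comp (Int.castRingHom W.W) = algebraMap ℤ T.F :=
        RingHom.ext_int _ _
      rw [h1, hom_eval₂, aeval_def, h2]
      rfl
    intro g hg
    rw [← hE.span] at hg
    have hle : Ideal.span (Set.range E.g) ≤
        RingHom.ker (eval₂Hom (Int.castRingHom (ResidueField W.W))
          (fun i => W.res (T.X (XV.pt.symm (XV.pt i)) / z T.x T.y a))) := by
      rw [Ideal.span_le]
      rintro _ ⟨j, rfl⟩
      show eval₂ (Int.castRingHom (ResidueField W.W))
          (fun i => W.res (T.X (XV.pt.symm (XV.pt i)) / z T.x T.y a)) (E.g j) = 0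
      rw [hev]
      have hmem := aeval_mem W.W hZ (E.g j) Y hYW
      have hmem1 := aeval_mem W.W hZ (E.g₁ j) Y hYW
      have h1 := intO_mem hS (T.close j) W a hW
      have hza : z T.x T.y a ≠ 0 := ha
      rw [aeval_div (E.g j) _ (E.hom j) _ hza, aeval_div (E.g₁ j) _ (hom1 E j) _ hza] at h1
      have ht0 : algebraMap T.K T.F T.t ≠ 0 := by
        rw [Ne, map_eq_zero]
        exact T.t_ne
      have h2 : aeval Y (E.g j) ^ p =
          algebraMap T.K T.F (T.t ^ (p + 1)) * (algebraMap T.K T.F (T.t⁻¹ ^ (p + 1)) *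
            ((z T.x T.y a ^ E.e j * aeval (fun i => T.X i / z T.x T.y a) (E.g j)) ^ p +
              algebraMap T.K T.F (T.t ^ p) * (z T.x T.y a ^ (p * E.e j) *
                aeval (fun i => T.X i / z T.x T.y a) (E.g₁ j))) / z T.x T.y a ^ (p * E.e j)) -
          algebraMap T.K T.F (T.t ^ p) * aeval Y (E.g₁ j) := by
        have key : ∀ τ ζ A B : T.F, τ ≠ 0 → ζ ≠ 0 → A ^ p = τ ^ (p + 1) *
            (τ⁻¹ ^ (p + 1) * ((ζ ^ E.e j * A) ^ p + τ ^ p * (ζ ^ (p * E.e j) * B)) /
              ζ ^ (p * E.e j)) - τ ^ p * B := by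
          intro τ ζ A B hτ hζ
          have h3 : (ζ ^ E.e j * A) ^ p = ζ ^ (p * E.e j) * A ^ p := by
            rw [mul_pow, ← pow_mul, mul_comm (E.e j) p]
          have h4 : ζ ^ (p * E.e j) ≠ 0 := pow_ne_zero _ hζ
          have h5 : τ ^ (p + 1) ≠ 0 := pow_ne_zero _ hτ
          rw [h3, inv_pow]
          field_simp
          ring
        simp only [map_pow, map_inv₀]
        exact key _ _ _ _ ht0 hza
      have h4 : aeval Y (E.g j) ^ p ∈ W.W.nonunits := by
        rw [h2]
        refine W.nonunit_sub ?_ ?_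
        · rw [mul_comm]
          exact W.nonunit_mul h1 (htn _ (Nat.succ_pos _))
        · rw [mul_comm]
          exact W.nonunit_mul hmem1 (htn _ (Fact.out : p.Prime).pos)
      have h5 : W.res (aeval Y (E.g j)) = 0 := by
        have h6 := (W.res_eq_zero (pow_mem hmem p)).2 h4
        rw [W.res_pow hmem] at h6
        exact pow_eq_zero_iff (Fact.out : p.Prime).ne_zero |>.1 h6
      rw [W.res_of_mem hmem] at h5
      rw [← h5]
      congr 1
      exact Subtype.ext (hcoe _)
    exact hle hg
  have hlin : ∀ b, ∃ l : XV.Pt → ResidueField T.O, W.res (z T.x T.y b / z T.x T.y a) =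
      ∑ i, algebraMap (ResidueField T.O) (ResidueField W.W) (l (XV.pt i)) *
        W.res (T.X i / z T.x T.y a) := by
    intro b
    obtain ⟨l, hl⟩ : ∃ l : Fin (XV.N + 1) → T.O, z T.x T.y b = ∑ i, (l i : T.K) • T.X i := by
      fin_cases b
      · exact T.lin0
      · exact T.linx
      · exact T.liny
    refine ⟨fun c => residue T.O (l (XV.pt.symm c)), ?_⟩
    have h1 : z T.x T.y b / z T.x T.y a = ∑ i, (l i : T.K) • Y i := by
      rw [hl, Finset.sum_div]
      refine Finset.sum_congr rfl fun i _ => ?_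
      rw [hY]
      exact smul_div_assoc _ _ _
    have h2 : ∀ s : Finset (Fin (XV.N + 1)), (∑ i ∈ s, (l i : T.K) • Y i) ∈ W.W ∧
        W.res (∑ i ∈ s, (l i : T.K) • Y i) =
          ∑ i ∈ s, algebraMap (ResidueField T.O) (ResidueField W.W) (residue T.O (l i)) *
            W.res (Y i) := by
      intro s
      induction s using Finset.induction_on with
      | empty =>
        rw [Finset.sum_empty, Finset.sum_empty]
        exact ⟨zero_mem _, W.res_zero⟩
      | insert i s hi ih =>
        rw [Finset.sum_insert hi, Finset.sum_insert hi]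
        have h3 := W.smul_mem (l i).2 (hYW i)
        refine ⟨add_mem h3 ih.1, ?_⟩
        rw [W.res_add h3 ih.1, ih.2, W.res_smul (l i).2 (hYW i)]
    rw [h1, (h2 Finset.univ).2]
    refine Finset.sum_congr rfl fun i _ => ?_
    show _ = algebraMap (ResidueField T.O) (ResidueField W.W)
      (residue T.O (l (XV.pt.symm (XV.pt i)))) * W.res (T.X i / z T.x T.y a)
    rw [Equiv.symm_apply_apply]
  refine ⟨hYW, hsol, ?_, ?_, hlin⟩
  · intro c hc
    obtain ⟨α, hα, hα0, hint⟩ := T.tube (XV.pt.symm c) (by rwa [Equiv.apply_symm_apply])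
    have h1 := intO_mem hS hint W a hW
    rw [pow_one] at h1
    have h2 : T.X (XV.pt.symm c) / z T.x T.y a =
        α • (α⁻¹ • T.X (XV.pt.symm c) / z T.x T.y a) := by
      rw [smul_div_assoc, smul_smul, mul_inv_cancel₀ hα0, one_smul]
    rw [h2]
    exact W.res_nonunit (W.smul_nonunit hα h1)
  · by_contra hcon
    push Not at hcon
    obtain ⟨l, hl⟩ := hlin a
    rw [div_self ha, W.res_one] at hl
    have h1 : ∀ i, W.res (T.X i / z T.x T.y a) = 0 := by
      intro i
      have := hcon (XV.pt i)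
      rwa [Equiv.symm_apply_apply] at this
    rw [Finset.sum_eq_zero fun i _ => by rw [h1 i, mul_zero]] at hl
    exact one_ne_zero hl

end Pool.Agent.SFB
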