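import Pool.Agent.SFB.SLW
import Pool.Agent.SRF.Stmts

set_option autoImplicit false

/-!
Module SML of squad SFB: near the centre of a valuation ring on a curve of a tube the coordinates
are small.
-/

noncomputable section

namespace Pool.Agent.SFB

open scoped Classical
open MvPolynomial Pool.Agent.EN2 Pool.Agent.SRF Pool.Agent.DIS Pool.Agent.FRM IsLocalRing

open SLW_ in
theorem sml_proof (hTUB : Stmt_TUB) (hIOL : Stmt_IOL) (hCEN : SRF.Stmt_CEN) (hTHC : SRF.Stmt_THC)
    (hSEC : SRF.Stmt_SEC) (hHCH : SRF.Stmt_HCH) : Stmt_SML := by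
  intro p _ J E T j e hTe V hVK hthr W hWV i hi
  have hS := T.surf
  obtain ⟨m, α, P, hm, hα, hP, hh⟩ := hTUB p J E T j e hTe i hi
  obtain ⟨a, ha⟩ := exists_max W.W hS
  have hza := z_ne hS a
  have hXW : ∀ (W' : Pl T.O T.F) (b : Fin 3), (∀ b', z T.x T.y b' / z T.x T.y b ∈ W'.W) →
      ∀ i, T.X i / z T.x T.y b ∈ W'.W := by
    intro W' b hb i
    have h := intO_mem hS (T.coord i) W' b hb
    rwa [pow_one] at h
  have hOW : ∀ (W' : Pl T.O T.F) (r : T.O), algebraMap T.O T.F r ∈ W'.W := by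
    intro W' r
    exact (W'.mem_iff r).2 r.2
  -- the form divided by the power of a coordinate
  have hdiv : ∀ b : Fin 3, (T.X i ^ m - α • aeval T.X P) / z T.x T.y b ^ m =
      (T.X i / z T.x T.y b) ^ m - α • aeval (fun i => T.X i / z T.x T.y b) P := by
    intro b
    have hzb := z_ne hS b
    rw [aeval_div P m hP _ hzb, sub_div, div_pow]
    congr 1
    rw [smul_div_assoc, mul_div_cancel_left₀ _ (pow_ne_zero m hzb)]
  have hint : IntO T.O T.x T.y m (T.X i ^ m - α • aeval T.X P) := by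
    intro W'
    obtain ⟨b, hb⟩ := exists_max W'.W hS
    refine ⟨b, ?_⟩
    rw [hdiv b]
    exact sub_mem (pow_mem (hXW W' b hb i) m)
      (W'.smul_mem (nonunit_mem hα) (aeval_mem W'.W (hOW W') P _ (hXW W' b hb)))
  have hL := hIOL T.K T.O T.F T.x T.y hS m _ hint
  have hchV : chart T.K T.x T.y a ≤ V.toSubring :=
    ((hCEN T.K T.F T.x T.y hS V hVK).2 a).2 fun b => hWV (ha b)
  obtain ⟨hche, hprop⟩ := hTHC T.K T.F T.x T.y hS e V hVK hthr a hchV
  have hch := (hSEC T.K T.F T.x T.y hS m _).1 hL a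
  -- the form is small at `W`
  have hsmall : (T.X i ^ m - α • aeval T.X P) / z T.x T.y a ^ m ∈ W.W.nonunits := by
    by_cases h0 : T.X i ^ m - α • aeval T.X P = 0
    · rw [h0, zero_div, W.nonunits_iff]
      exact ⟨zero_mem _, W.res_zero⟩
    · have h1 := hh.resolve_left h0
      have hne : (T.X i ^ m - α • aeval T.X P) / z T.x T.y a ^ m ≠ 0 :=
        div_ne_zero h0 (pow_ne_zero m hza)
      have hH := ((hHCH T.K T.F T.x T.y hS e).2.2 a).1 hche
      have hord : 1 ≤ ord e.1 ((T.X i ^ m - α • aeval T.X P) / z T.x T.y a ^ m) := by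
        rw [div_eq_mul_inv, e.isOrd.mul _ _ h0 (inv_ne_zero (pow_ne_zero m hza)),
          e.isOrd.inv (pow_ne_zero m hza), e.isOrd.pow hza]
        rw [hH] at h1
        linarith
      have hinv : ((T.X i ^ m - α • aeval T.X P) / z T.x T.y a ^ m)⁻¹ ∉ e.1 := by
        intro hmem
        have h2 := (e.isOrd.mem _ (inv_ne_zero hne)).1 hmem
        rw [e.isOrd.inv hne] at h2
        linarith
      have hV := hprop _ hch hne hinv
      have hW : ((T.X i ^ m - α • aeval T.X P) / z T.x T.y a ^ m)⁻¹ ∉ W.W := fun h => hV (hWV h)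
      have h3 := W.not_mem_inv hW
      rwa [inv_inv] at h3
  rw [hdiv a] at hsmall
  have hPm : α • aeval (fun i => T.X i / z T.x T.y a) P ∈ W.W.nonunits :=
    W.smul_nonunit hα (aeval_mem W.W (hOW W) P _ (hXW W a ha))
  have hpow : (T.X i / z T.x T.y a) ^ m ∈ W.W.nonunits := by
    have h4 := W.nonunit_add hsmall hPm
    rwa [sub_add_cancel] at h4
  refine ⟨a, hza, ?_⟩
  have hXa := hXW W a ha i
  have h5 := (W.res_eq_zero (pow_mem hXa m)).2 hpow
  rw [W.res_pow hXa] at h5
  exact (W.res_eq_zero hXa).1 (pow_eq_zero_iff hm.ne' |>.1 h5)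

end Pool.Agent.SFB
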