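import Pool.Agent.SFB.StmtsT
import Pool.Agent.SFR.Stmts

/-!
# UPB: the upper bound for the sections with poles in one tube
-/

set_option autoImplicit false

noncomputable section

namespace Pool.Agent.SFB

open scoped Classical
open Pool.Agent.EN2 Pool.Agent.SRF Pool.Agent.DIS IsLocalRing

namespace UPB_

/-- the residue field of a valuation ring of an algebraically closed field -/
theorem ac {K : Type} [Field K] [IsAlgClosed K] (O : ValuationSubring K) :
    IsAlgClosed (ResidueField O) := by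
  apply IsAlgClosed.of_exists_root
  intro q hq hirr
  obtain ⟨P, hP, hdeg, hmon⟩ := Polynomial.lifts_and_degree_eq_and_monic
    ((Polynomial.mem_lifts _).mpr (Polynomial.map_surjective _ residue_surjective q)) hq
  have hd : P.degree ≠ 0 := by
    rw [hdeg]
    exact hirr.degree_pos.ne'
  have hd' : (P.map O.subtype).degree ≠ 0 := by
    rwa [hmon.degree_map]
  obtain ⟨x, hx⟩ := IsAlgClosed.exists_root _ hd'
  have hint : IsIntegral O x := ⟨P, hmon, by
    rw [Polynomial.IsRoot.def, Polynomial.eval_map] at hx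
    exact hx⟩
  obtain ⟨y, hy⟩ := (IsIntegrallyClosed.isIntegral_iff (R := O) (K := K)).mp hint
  refine ⟨residue O y, ?_⟩
  have h1 : P.eval y = 0 := by
    apply O.subtype_injective
    rw [map_zero, ← Polynomial.eval₂_hom, ← Polynomial.eval_map]
    have : O.subtype y = x := hy
    rw [this]
    exact hx
  rw [← hP, Polynomial.eval_map, Polynomial.eval₂_hom, h1, map_zero]

/-- maximal monomials exist -/
theorem exists_top {Ω : Type} [Field Ω] (u v : Ω) (V : ValuationSubring Ω) :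
    ∃ e, Top u v V (fun _ => 4) e := by
  have hfin : {e : Fin 10 → ℕ | Mon (fun _ => 4) e}.Finite := by
    refine (Set.Finite.pi' (t := fun _ : Fin 10 => Set.Iic 4) fun _ => Set.finite_Iic 4).subset ?_
    intro e he k
    have h1 := XV.le_mdeg e k
    rw [he] at h1
    exact h1
  have hne : {e : Fin 10 → ℕ | Mon (fun _ => 4) e}.Nonempty := by
    refine ⟨![2, 0, 0, 2, 2, 0, 0, 2, 0, 2], ?_⟩
    show ∀ i, XV.mdeg _ i = 4
    decide
  obtain ⟨e, he, hmax⟩ := Set.exists_max_image _ (fun e => V.valuation (mo u v e)) hfin hne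
  refine ⟨e, he, fun e' he' => ?_⟩
  rw [← V.valuation_le_one_iff, map_div₀]
  exact div_le_one_of_le₀ (hmax e' he') zero_le

section

variable {k Ω : Type} [Field k] [Field Ω] [Algebra k Ω]

theorem PF_div {σ : Fin 3 → Ω} {l : Ω} (hl : l ≠ 0) :
    PF k (fun i => σ i / l) = PF k σ := by
  unfold PF
  rw [div_div_div_cancel_right₀ hl, div_div_div_cancel_right₀ hl]

theorem IsPl_div {σ : Fin 3 → Ω} {l : Ω} (hl : l ≠ 0) (h : IsPl k σ) :
    IsPl k (fun i => σ i / l) := by
  refine ⟨fun i => div_ne_zero (h.ne i) hl, ?_⟩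
  have h1 := h.indep
  rw [div_div_div_cancel_right₀ hl, div_div_div_cancel_right₀ hl]
  exact h1

end

section

variable (S : NUM.Sf)

theorem H_nonneg (e : S.P) : 0 ≤ S.H e := le_max_left _ _

theorem WW_mono (A : Set S.P) {n m : ℕ} (h : n ≤ m) : S.WW A n ≤ S.WW A m := by
  rintro f (hf | hf)
  · exact Or.inl hf
  · refine Or.inr fun O hO => ?_
    have h1 := hf O hO
    have h2 := H_nonneg S O
    have h3 : (n : ℤ) * S.H O ≤ m * S.H O :=
      mul_le_mul_of_nonneg_right (by exact_mod_cast h) h2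
    linarith

theorem WW_mul (A : Set S.P) {n d : ℕ} {b f : S.F} (hb : b ∈ S.L (fun e => d * S.H e))
    (hf : f ∈ S.WW A n) : b * f ∈ S.WW A (n + d) := by
  rcases hf with hf | hf
  · exact Or.inl (by rw [hf, mul_zero])
  by_cases hb0 : b = 0
  · exact Or.inl (by rw [hb0, zero_mul])
  by_cases hf0 : f = 0
  · exact Or.inl (by rw [hf0, mul_zero])
  refine Or.inr fun O hO => ?_
  have h1 := hf O hO
  have h2 := (mem_L S.k S.x S.y).1 hb
  have h3 := h2.resolve_left hb0 O
  have h4 : S.o O (b * f) = S.o O b + S.o O f := O.isOrd.mul b f hb0 hf0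
  rw [h4]
  have h5 : -((d : ℤ) * S.H O) ≤ S.o O b := h3
  push_cast
  linarith

end

end UPB_

open UPB_

theorem upb_proof (hRED : Stmt_RED) (hDEG : Stmt_DEG) (hFIV : Stmt_FIV) (hREG : Stmt_REG)
    (hINT : Stmt_INT) (hPLM : Stmt_PLM) (hPFI : Stmt_PFI) (_hRHO : Stmt_RHO)
    (hFRP : SFR.Stmt_FRP) (hFRK : SFR.Stmt_FRK) : Stmt_UPB := by
  intro p _ J E hE T j
  have hac : IsAlgClosed (ResidueField T.O) := ac T.O
  obtain ⟨-, ⟨c₀⟩, hVG, -⟩ := hPFI T.K T.O T.arch T.F T.x T.y T.surf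
  obtain ⟨d, b, hb, hred⟩ := hRED T.K T.O T.arch T.dvr T.F T.x T.y T.surf
  choose u v l hfv using hFIV p J E hE T
  choose σ hσ1 hσ2 hσ3 hσ4 using fun c : Comp T.O T.x T.y =>
    hPLM (ResidueField T.O) (ResidueField c.1.W) (u c) (v c) (l c) (hfv c).ind (hfv c).l_ne
      (hfv c).lmem j
  refine ⟨d, fun n => ?_⟩
  set V : Submodule T.K T.F := (sf T).WW {e | T.Tub j e} n with hV
  have key := hred (GX T) ?_ ?_ σ hσ1 ?_ 20 24 ?_ ?_ (n + d) 1 one_pos V ?_ c₀ ⊥ inferInstance
    ?_ ?_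
  · rw [finrank_bot, add_zero, Nat.div_one] at key
    exact key
  · intro g hg c
    obtain ⟨i, -, rfl⟩ := Finset.mem_image.1 hg
    exact (hfv c).mem i
  · intro c
    rw [(hfv c).rf]
    exact ⟨(hfv c).xmem, (hfv c).ymem⟩
  · intro c i
    rw [(hfv c).rf]
    exact hσ2 c i
  · intro c
    rw [(hfv c).rf, ← PF_div (l := l c) (hfv c).l_ne]
    exact hDEG _ _ (u c) (v c) (hfv c).ind _ (hfv c).free (IsPl_div (hfv c).l_ne (hfv c).pl)
  · intro c
    rw [(hfv c).rf]
    exact hσ3 c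
  · intro c g hg
    have hgWW : g ∈ (sf T).WW {e | T.Tub j e} (n + d) := by
      obtain ⟨-, κ, f, hf, rfl | rfl⟩ := hg
      · exact Submodule.smul_mem _ _ (WW_mono (sf T) _ (Nat.le_add_right n d) hf)
      · exact Submodule.smul_mem _ _ (WW_mul (sf T) _ (hb.sec c) hf)
    have hfin := hFRP (ResidueField T.O) (ResidueField c.1.W) _ (σ c) (hfv c).pl (hσ1 c)
      (hFRK T.K T.O T.arch T.F T.x T.y T.surf hVG c).2
    refine hINT (ResidueField T.O) (ResidueField c.1.W) (σ c) (hσ1 c) hfin _ _ _ ?_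
    intro V' hV' i hi
    obtain ⟨hC, hOn, hSim⟩ := hσ4 c V' hV' i hi
    obtain ⟨e, he⟩ := exists_top (u c) (v c) V'
    have h1 := (hREG p J E T c (u c) (v c) (l c) (hfv c) V' hC.kv e he (n + d) g hg.1).2 j hOn hgWW
    obtain ⟨h2, -, h3, h4⟩ := hSim e he
    have e1 : c.1.res g ^ 1 / σ c i ^ (n + d) =
        c.1.res g / (l c * mo (u c) (v c) e) ^ (n + d) *
          (l c * mo (u c) (v c) e / σ c i) ^ (n + d) := by
      rw [pow_one, div_pow, div_mul_div_cancel₀ (pow_ne_zero _ h2)]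
    rw [e1]
    exact mul_mem h1 (pow_mem h3 _)
  · intro z hz
    rw [Submodule.mem_bot] at hz
    rw [hz]
    refine ⟨zero_mem _, fun i => ?_⟩
    rw [pow_one, zero_div]
    exact isIntegral_zero
  · intro f _ _ hz
    exact (Submodule.mem_bot _).1 hz

end Pool.Agent.SFB
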