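import Pool.Agent.SFB.StmtsT

/-!
# SFB, module ZEE: sections with large poles on one curve of the moduli space
-/

set_option autoImplicit false

noncomputable section

namespace Pool.Agent.SFB

open scoped Classical
open Pool.Agent.EN2 Pool.Agent.SRF Pool.Agent.DIS IsLocalRing

namespace ZEE_

section
variable {Ω : Type} [Field Ω] (u v : Ω)

theorem mo_add (e e' : Fin 10 → ℕ) : mo u v (e + e') = mo u v e * mo u v e' := by
  unfold mo
  rw [← Finset.prod_mul_distrib]
  exact Finset.prod_congr rfl fun k _ => pow_add _ _ _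

theorem mo_zero : mo u v 0 = 1 := by simp [mo]

theorem mo_ne (h : ∀ k, pk u v k ≠ 0) (e : Fin 10 → ℕ) : mo u v e ≠ 0 :=
  Finset.prod_ne_zero_iff.2 fun k _ => pow_ne_zero _ (h k)

theorem le_deg {d : Fin 5 → ℕ} {e : Fin 10 → ℕ} (h : Mon d e) (k : Fin 10) :
    e k ≤ d (XV.eS k) := by
  rw [← h (XV.eS k)]
  unfold XV.mdeg
  have h1 := Finset.single_le_sum
    (f := fun l => if XV.eS l = XV.eS k ∨ XV.eT l = XV.eS k then e l else 0)
    (fun _ _ => Nat.zero_le _) (Finset.mem_univ k)
  simpa using h1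

theorem fin_Mon (d : Fin 5 → ℕ) : {e | Mon d e}.Finite := by
  have h : {e : Fin 10 → ℕ | Mon d e} ⊆ Set.Iic (fun k => d (XV.eS k)) := fun e he k => le_deg he k
  exact (Set.finite_Iic _).subset h

theorem exists_Top (V : ValuationSubring Ω) (d : Fin 5 → ℕ) (e₀ : Fin 10 → ℕ) (h₀ : Mon d e₀) :
    ∃ e, Top u v V d e := by
  obtain ⟨e, he, hmax⟩ := Set.exists_max_image {e | Mon d e}
    (fun e => V.valuation (mo u v e)) (fin_Mon d) ⟨e₀, h₀⟩
  refine ⟨e, he, fun e' he' => ?_⟩
  rw [← V.valuation_le_one_iff, map_div₀]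
  exact div_le_one_of_le₀ (hmax e' he') zero_le

variable (k : Type) [Field k] [Algebra k Ω]

theorem sec_mem {V : ValuationSubring Ω} (hV : KV k V) {d : Fin 5 → ℕ} {e : Fin 10 → ℕ}
    (he : Top u v V d e) {f : Ω} (hf : f ∈ Sec u v k d) : f / mo u v e ∈ V := by
  unfold Sec at hf
  induction hf using Submodule.span_induction with
  | mem y hy =>
    obtain ⟨e', he', rfl⟩ := hy
    exact he.2 e' he'
  | zero => rw [zero_div]; exact zero_mem _
  | add a b _ _ ha hb => rw [add_div]; exact add_mem ha hb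
  | smul a b _ hb =>
    rw [Algebra.smul_def, mul_div_assoc]
    exact mul_mem (hV a) hb

theorem pk_mem_UV (i : Fin 10) : pk u v i ∈ UV u v k := by
  have hu : u ∈ UV u v k := IntermediateField.subset_adjoin _ _ (by simp)
  have hv : v ∈ UV u v k := IntermediateField.subset_adjoin _ _ (by simp)
  have ha : ∀ m : Fin 5, pa u v m ∈ UV u v k := by
    intro m
    fin_cases m
    · exact zero_mem _
    · exact one_mem _
    · exact one_mem _
    · exact hu
    · exact hv
  have hb : ∀ m : Fin 5, (pb m : Ω) ∈ UV u v k := by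
    intro m
    fin_cases m
    · exact one_mem _
    · exact one_mem _
    · exact zero_mem _
    · exact one_mem _
    · exact one_mem _
  exact sub_mem (mul_mem (ha _) (hb _)) (mul_mem (ha _) (hb _))

theorem sec_UV {d : Fin 5 → ℕ} {f : Ω} (hf : f ∈ Sec u v k d) : f ∈ UV u v k := by
  unfold Sec at hf
  induction hf using Submodule.span_induction with
  | mem y hy =>
    obtain ⟨e', -, rfl⟩ := hy
    exact prod_mem fun i _ => pow_mem (pk_mem_UV u v k i) _
  | zero => exact zero_mem _
  | add a b _ _ ha hb => exact add_mem ha hb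
  | smul a b _ hb =>
    rw [Algebra.smul_def]
    exact mul_mem ((UV u v k).algebraMap_mem a) hb

theorem pk_ne (h : AlgebraicIndependent k ![u, v]) (i : Fin 10) : pk u v i ≠ 0 := by
  have key := algebraicIndependent_iff.1 h
  have hu : u ≠ 0 := by
    intro h0
    have h1 := key (MvPolynomial.X 0) (by simpa using h0)
    exact MvPolynomial.X_ne_zero _ h1
  have hv : v ≠ 0 := by
    intro h0
    have h1 := key (MvPolynomial.X 1) (by simpa using h0)
    exact MvPolynomial.X_ne_zero _ h1
  have hu1 : 1 - u ≠ 0 := by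
    intro h0
    have h1 := key (1 - MvPolynomial.X 0) (by simpa using h0)
    have h2 := congrArg (MvPolynomial.eval (fun _ => (0 : k))) h1
    simp at h2
  have hv1 : 1 - v ≠ 0 := by
    intro h0
    have h1 := key (1 - MvPolynomial.X 1) (by simpa using h0)
    have h2 := congrArg (MvPolynomial.eval (fun _ => (0 : k))) h1
    simp at h2
  have huv : u - v ≠ 0 := by
    intro h0
    have h1 := key (MvPolynomial.X 0 - MvPolynomial.X 1) (by simpa using h0)
    have h2 := congrArg (MvPolynomial.eval (![1, 0] : Fin 2 → k)) h1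
    simp at h2
  fin_cases i <;> simp [pk, pa, pb, XV.eS, XV.eT, hu, hv, hu1, hv1, huv]

end

theorem nef4 : Nef (fun _ => 4) := by
  refine ⟨by decide, by decide⟩

theorem nef5 (j : Fin 10) : Nef (fun i => 4 + chi j i) := by
  revert j
  unfold Nef
  decide

theorem nef6 (j : Fin 10) : Nef (fun i => 4 + 2 * chi j i) := by
  revert j
  unfold Nef
  decide

theorem nef_mul (n : ℕ) (d : Fin 5 → ℕ) (h : Nef d) : Nef (fun i => n * d i) := by
  refine ⟨?_, fun i => ?_⟩
  · rw [← Finset.mul_sum]
    exact h.1.mul_left n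
  · rw [← Finset.mul_sum]
    have := Nat.mul_le_mul_left n (h.2 i)
    calc 2 * (n * d (XV.eS i) + n * d (XV.eT i)) = n * (2 * (d (XV.eS i) + d (XV.eT i))) := by ring
      _ ≤ _ := this

theorem mon4 : Mon (fun _ => 4) (fun _ => 1) := by
  unfold Mon XV.mdeg
  decide

theorem mon5 (j : Fin 10) : Mon (fun i => 4 + chi j i) (fun k => if k = j then 2 else 1) := by
  revert j
  unfold Mon XV.mdeg
  decide

theorem mon6 (j : Fin 10) : Mon (fun i => 4 + 2 * chi j i) (fun k => if k = j then 3 else 1) := by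
  revert j
  unfold Mon XV.mdeg
  decide

theorem top_mul (hTOP : Stmt_TOP) {Ω : Type} [Field Ω] (u v : Ω) (hpk : ∀ k, pk u v k ≠ 0)
    (V : ValuationSubring Ω) (d : Fin 5 → ℕ) (hd : Nef d) (e : Fin 10 → ℕ)
    (he : Top u v V d e) (n : ℕ) :
    Top u v V (fun i => n * d i) (fun i => n * e i) := by
  induction n with
  | zero =>
    refine ⟨fun i => ?_, fun e' he' => ?_⟩
    · simp [XV.mdeg]
    · have h0 : e' = 0 := by
        funext i
        have h1 := le_deg he' i
        simpa using h1
      have h1 : (fun i => 0 * e i) = 0 := by funext i; simp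
      rw [h0, h1, mo_zero, div_one]
      exact one_mem _
  | succ n ih =>
    have h1 := hTOP Ω u v hpk V _ _ _ _ (nef_mul n d hd) hd ih he
    have h2 : ((fun i => n * d i) + d) = fun i => (n + 1) * d i := by
      funext i
      simp only [Pi.add_apply]
      ring
    have h3 : ((fun i => n * e i) + e) = fun i => (n + 1) * e i := by
      funext i
      simp only [Pi.add_apply]
      ring
    rwa [h2, h3] at h1

theorem mo_mul {Ω : Type} [Field Ω] (u v : Ω) (e : Fin 10 → ℕ) (n : ℕ) :
    mo u v (fun i => n * e i) = mo u v e ^ n := by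
  unfold mo
  rw [← Finset.prod_pow]
  refine Finset.prod_congr rfl fun k _ => ?_
  rw [← pow_mul, mul_comm]

end ZEE_

open ZEE_

theorem zee_proof (hTOP : Stmt_TOP) (hZED : Stmt_ZED) (hRHO : Stmt_RHO) : Stmt_ZEE := by
  intro k Ω _ _ _ _ u v l hind hl hlm j n r hr
  have hpk := pk_ne u v k hind
  obtain ⟨Z₀, hfin, hdim, hsec, hpole⟩ := hZED k Ω u v hind j n r hr
  have hc : l ^ n / pk u v j ^ (2 * n) ≠ 0 := div_ne_zero (pow_ne_zero _ hl) (pow_ne_zero _ (hpk j))
  set c : Ω := l ^ n / pk u v j ^ (2 * n) with hcdef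
  have hinj : Function.Injective (LinearMap.mulLeft k c) := by
    intro a b hab
    exact mul_left_cancel₀ hc hab
  refine ⟨Z₀.map (LinearMap.mulLeft k c), ?_, ?_, ?_, ?_, ?_⟩
  · infer_instance
  · have h1 : Module.finrank k (Z₀.map (LinearMap.mulLeft k c)) = Module.finrank k Z₀ :=
      (LinearEquiv.finrank_eq (Submodule.equivMapOfInjective _ hinj Z₀)).symm
    rw [h1]
    exact hdim
  · rintro _ ⟨z, hz, rfl⟩
    exact mul_mem (div_mem (pow_mem hlm _) (pow_mem (pk_mem_UV u v k j) _))
      (sec_UV u v k (hsec z hz))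
  · rintro _ ⟨z, hz, rfl⟩ V hV hon e he
    obtain ⟨e', he'⟩ := exists_Top u v V _ _ (mon5 j)
    obtain ⟨e'', he''⟩ := exists_Top u v V _ _ (mon6 j)
    have h1 := sec_mem u v k hV (top_mul hTOP u v hpk V _ (nef6 j) e'' he'' n) (hsec z hz)
    rw [mo_mul] at h1
    have h2 := hTOP Ω u v hpk V _ _ _ _ nef4 (nef6 j) he he''
    have h3 := hTOP Ω u v hpk V _ _ _ _ (nef5 j) (nef5 j) he' he'
    have h4 : ((fun i => 4 + chi j i) + (fun i => 4 + chi j i) : Fin 5 → ℕ) =
        (fun _ => 4) + (fun i => 4 + 2 * chi j i) := by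
      funext i
      simp only [Pi.add_apply]
      ring
    rw [h4] at h3
    have h5 := h3.2 _ h2.1
    rw [mo_add, mo_add] at h5
    obtain ⟨-, h6⟩ := hRHO Ω u v hpk V j e e' he he'
    obtain ⟨-, -, h7, -⟩ := h6 hon
    have hM := mo_ne u v hpk e
    have hM' := mo_ne u v hpk e'
    have hM'' := mo_ne u v hpk e''
    have hP := hpk j
    have h8 : mo u v e'' / (pk u v j ^ 2 * mo u v e) ∈ V := by
      have h9 := mul_mem h5 (pow_mem h7 2)
      have h10 : mo u v e'' / (pk u v j ^ 2 * mo u v e) =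
          mo u v e * mo u v e'' / (mo u v e' * mo u v e') * (1 / rho u v j e e') ^ 2 := by
        unfold rho
        field_simp
      rw [h10]
      exact h9
    have h9 : LinearMap.mulLeft k c z / (l * mo u v e) ^ n =
        z / mo u v e'' ^ n * (mo u v e'' / (pk u v j ^ 2 * mo u v e)) ^ n := by
      rw [LinearMap.mulLeft_apply, hcdef, div_pow, mul_pow, mul_pow, ← pow_mul]
      have h11 : mo u v e'' ^ n ≠ 0 := pow_ne_zero _ hM''
      have h12 : mo u v e ^ n ≠ 0 := pow_ne_zero _ hM
      have h13 : pk u v j ^ (2 * n) ≠ 0 := pow_ne_zero _ hP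
      have h14 : l ^ n ≠ 0 := pow_ne_zero _ hl
      generalize mo u v e'' ^ n = A at *
      generalize mo u v e ^ n = B at *
      generalize pk u v j ^ (2 * n) = D at *
      generalize l ^ n = G at *
      field_simp
    rw [h9]
    exact mul_mem h1 (pow_mem h8 n)
  · rintro _ ⟨z, hz, rfl⟩ hne V hV hon e e' he he'
    have hz0 : z ≠ 0 := by
      rintro rfl
      exact hne (map_zero _)
    have h1 := hpole z hz hz0 V hV hon e e' he he'
    have hM := mo_ne u v hpk e
    have hM' := mo_ne u v hpk e'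
    have hP := hpk j
    have hρ : rho u v j e e' ≠ 0 := div_ne_zero (mul_ne_zero hP hM) hM'
    have h2 : (l * mo u v e) ^ n / (LinearMap.mulLeft k c z * rho u v j e e' ^ (2 * n - r)) =
        (mo u v e' ^ 2 / mo u v e) ^ n * (pk u v j * mo u v e / mo u v e') ^ r / z := by
      obtain ⟨s, hs⟩ : ∃ s, 2 * n = r + s := ⟨2 * n - r, by omega⟩
      have h3 : 2 * n - r = s := by omega
      have h4 : (mo u v e' ^ 2 / mo u v e) * rho u v j e e' ^ 2 = pk u v j ^ 2 * mo u v e := by
        unfold rho
        field_simp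
      have h5 : (mo u v e' ^ 2 / mo u v e) ^ n * rho u v j e e' ^ r * rho u v j e e' ^ s =
          pk u v j ^ (2 * n) * mo u v e ^ n := by
        rw [mul_assoc, ← pow_add, ← hs, pow_mul (rho u v j e e'), ← mul_pow, h4, mul_pow, pow_mul]
      have h6 : pk u v j * mo u v e / mo u v e' = rho u v j e e' := rfl
      rw [h3, h6, LinearMap.mulLeft_apply, hcdef, mul_pow]
      have h12 : mo u v e ^ n ≠ 0 := pow_ne_zero _ hM
      have h13 : pk u v j ^ (2 * n) ≠ 0 := pow_ne_zero _ hP
      have h14 : l ^ n ≠ 0 := pow_ne_zero _ hl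
      have h15 : rho u v j e e' ^ s ≠ 0 := pow_ne_zero _ hρ
      have h16 : (mo u v e' ^ 2 / mo u v e) ^ n * rho u v j e e' ^ r =
          pk u v j ^ (2 * n) * mo u v e ^ n / rho u v j e e' ^ s := by
        rw [eq_div_iff h15, h5]
      rw [h16]
      generalize mo u v e ^ n = B at *
      generalize pk u v j ^ (2 * n) = D at *
      generalize l ^ n = G at *
      generalize rho u v j e e' ^ s = A at *
      field_simp
    rw [h2]
    exact h1

end Pool.Agent.SFB
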