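import Pool.Agent.SFB.NIN
import Pool.Agent.SFB.UPB
import Pool.Agent.SFB.CRZ
import Pool.Agent.SFB.CRC
import Pool.Agent.SFB.FUL
import Pool.Agent.SFB.INQ
import Pool.Agent.SFB.NOM
import Pool.Agent.SFB.DJT
import Pool.Agent.SFB.SML
import Pool.Agent.SFB.DSJ
import Pool.Agent.SFB.FIV
import Pool.Agent.SFB.REG
import Pool.Agent.SFB.SLW
import Pool.Agent.SFB.CPP
import Pool.Agent.SFB.INT
import Pool.Agent.SFB.PLM
import Pool.Agent.SFB.PLZ
import Pool.Agent.SFB.PLC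
import Pool.Agent.SFB.PTC
import Pool.Agent.SFB.RHO
import Pool.Agent.SFB.ZEE
import Pool.Agent.SFB.PLA
import Pool.Agent.XV.All
import Pool.Agent.SFR.All
import Pool.Agent.SFS.All

/-!
# Special fibre bounds: assembly
-/

set_option autoImplicit false

namespace Pool.Agent.SFB.All

open Pool.Agent Pool.Agent.SFB

theorem nin_of (hRED : Stmt_RED) (hFRP : SFR.Stmt_FRP) (hFRK : SFR.Stmt_FRK)
    (hTOP : Stmt_TOP) (hCTR : Stmt_CTR) (hCRV : Stmt_CRV) (hTRP : Stmt_TRP) (hDEG : Stmt_DEG)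
    (hZED : Stmt_ZED) (hGNS : Stmt_GNS)
    (hRHO : Stmt_RHO) (hPLM : Stmt_PLM) (hPTC : Stmt_PTC) : Stmt_NIN := by
  have hPFI := pfi_proof
  have hMPR := mpr_proof SRF.All.scq
  have hXPL := xpl_proof
  have hIOL := iol_proof
  have hTUB := tub_proof
  have hSLW := slw_proof
  have hCPP := cpp_proof
  have hINT := int_proof
  have hFIV := fiv_proof hSLW hGNS hCPP hPFI
  have hREG := reg_proof hMPR hTUB hCPP hSLW SRF.All.sup hIOL
  have hZEE := zee_proof hTOP hZED hRHO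
  have hPLZ := PLZ_proof hTOP hTRP hRHO
  have hPLC := plc_proof hTOP hCTR hTRP hRHO
  have hFUL := ful_proof hRED hDEG hFIV hREG hINT hPLM hZEE hPFI hRHO hCRV
  have hUPB := upb_proof hRED hDEG hFIV hREG hINT hPLM hPFI hRHO hFRP hFRK
  have hCRZ := crz_proof hRED hDEG hFIV hREG hINT hPLZ hFUL hRHO hPFI hCRV
  have hCRC := crc_proof hRED hDEG hFIV hREG hINT hPLC hFUL hRHO hPFI hCRV
  have hSML := sml_proof hTUB hIOL SRF.All.cen SRF.All.thc SRF.All.sec SRF.All.hch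
  have hDSJ := dsj_proof XV.tri XV.sym
  have hNOM := nom_proof hSML hXPL hSLW hDSJ
  have hDJT := djt_proof hNOM hSML hXPL hSLW hPTC SRF.All.nal SRF.All.ax3 SRF.All.cen SRF.All.thc
  exact nin_proof hUPB hCRZ hCRC inq_proof hNOM hDJT

/-- The input of the numerics. -/
theorem nin : Stmt_NIN :=
  nin_of SFR.red SFR.frp_proof (SFR.frk_proof SFR.fun') SFS.a_top SFS.a_ctr SFS.a_crv SFS.a_trp
    SFS.a_deg SFS.a_zed SFS.a_gns (rho_proof SFS.a_top)
    (plm_proof SFS.a_top SFS.a_ctr SFS.a_trp (rho_proof SFS.a_top)) (ptc_proof XV.tri XV.sym)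

end Pool.Agent.SFB.All
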