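import Pool.Agent.SFB.Defs

/-!
# Special fibre bounds: the main statements

`NT`, `RED` : areas of linear algebra over valuation rings;
`S..`       : facts on the moduli space of five points;
`NIN`       : the result, the input of `Pool.Agent.NUM`.
-/

set_option autoImplicit false

noncomputable section

namespace Pool.Agent.SFB

open scoped Classical
open Pool.Agent.EN2 Pool.Agent.SRF Pool.Agent.DIS IsLocalRing

/-- NT: the norm trick. -/
def Stmt_NT : Prop :=
  ∀ (k Ω : Type) [Field k] [Infinite k] [Field Ω] [Algebra k Ω] (σ : Fin 3 → Ω), IsPl k σ →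
    FiniteDimensional (PF k σ) Ω → ∀ (Y : Submodule (PF k σ) Ω) (U : Submodule k Ω),
    FiniteDimensional k U → (∀ f ∈ U, f ∈ Y) → ∀ n n₀ : ℕ, 0 < n₀ → (∀ f ∈ U, IntS k σ n n₀ f) →
    Module.finrank k U ≤ Module.finrank (PF k σ) Y * (n / n₀ + 2).choose 2

/-- RED: dimension of a space of functions in terms of its reductions on the components. The field
`Σ_c` generated by the residues of the elements of `G` has degree at least `δ` over the plane
`(1, x, y)` and degree at most `A` over the plane with coordinates `σ c`. All the bounded multiples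
of elements of `V` (possibly twisted at `c`) have reductions which are integral of degree `n / n₀`
over `σ c`. The reductions on `c₀` of the bounded elements of `V` do not meet `Z`. -/
def Stmt_RED : Prop :=
  ∀ (K : Type) [Field K] [IsAlgClosed K] (O : ValuationSubring K), Arch O → Dvrs O →
    ∀ (F : Type) [Field F] [Algebra K F] (x y : F), IsSurf K x y →
    ∃ (d : ℕ) (b : Comp O x y → F), IsTwist K O x y d b ∧
    ∀ G : Finset F, (∀ g ∈ G, Bd O x y g) →
    (∀ c : Comp O x y, c.1.res x ∈ RF O c.1 G ∧ c.1.res y ∈ RF O c.1 G) →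
    ∀ (σ : ∀ c : Comp O x y, Fin 3 → ResidueField c.1.W),
    (∀ c, IsPl (ResidueField O) (σ c)) → (∀ c i, σ c i ∈ RF O c.1 G) → ∀ δ A : ℕ,
    (∀ c : Comp O x y, δ ≤ (PF (ResidueField O) (xi O x y c.1)).relfinrank (RF O c.1 G)) →
    (∀ c : Comp O x y, (PF (ResidueField O) (σ c)).relfinrank (RF O c.1 G) ≤ A) →
    ∀ n n₀ : ℕ, 0 < n₀ → ∀ V : Submodule K F,
    (∀ (c : Comp O x y) (g : F), InTw O x y b V c g → IntS (ResidueField O) (σ c) n n₀ (c.1.res g)) →
    ∀ (c₀ : Comp O x y) (Z : Submodule (ResidueField O) (ResidueField c₀.1.W)),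
    FiniteDimensional (ResidueField O) Z →
    (∀ z ∈ Z, z ∈ RF O c₀.1 G ∧ IntS (ResidueField O) (σ c₀) n n₀ z) →
    (∀ f ∈ V, Bd O x y f → c₀.1.res f ∈ Z → c₀.1.res f = 0) →
    FiniteDimensional K V ∧
      δ * (Module.finrank K V + Module.finrank (ResidueField O) Z) ≤
        deg K x y * A * (n / n₀ + 2).choose 2

/-! ## The moduli space of five points -/

/-- TOP: products of maximal monomials are maximal. -/
def Stmt_TOP : Prop :=
  ∀ (Ω : Type) [Field Ω] (u v : Ω), (∀ k, pk u v k ≠ 0) → ∀ (V : ValuationSubring Ω)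
    (d d' : Fin 5 → ℕ) (e e' : Fin 10 → ℕ), Nef d → Nef d' → Top u v V d e → Top u v V d' e' →
    Top u v V (d + d') (e + e')

/-- CTR: the class `d` is constant on the curve `i` if its degree there is zero. -/
def Stmt_CTR : Prop :=
  ∀ (k Ω : Type) [Field k] [Field Ω] [Algebra k Ω] (u v : Ω), AlgebraicIndependent k ![u, v] →
    ∀ (V : ValuationSubring Ω), KV k V → ∀ i : Fin 10, On u v V i → ∀ (d : Fin 5 → ℕ), Nef d →
    2 * (d (XV.eS i) + d (XV.eT i)) = ∑ j, d j → ∀ e e', Top u v V d e → Mon d e' →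
    ∃ a : k, mo u v e' / mo u v e - algebraMap k Ω a ∈ V.nonunits

/-- CRV: if the centre is not a closed point it lies on at most one of the ten curves. -/
def Stmt_CRV : Prop :=
  ∀ (k Ω : Type) [Field k] [IsAlgClosed k] [Field Ω] [Algebra k Ω] (u v : Ω),
    AlgebraicIndependent k ![u, v] → ∀ V : ValuationSubring Ω, Curve u v k V →
    ∀ i j, On u v V j → i ≠ j → ¬ On u v V i

/-- TRP: coordinates of planes. -/
def Stmt_TRP : Prop :=
  ∀ (k Ω : Type) [Field k] [IsAlgClosed k] [Field Ω] [Algebra k Ω] (u v : Ω),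
    AlgebraicIndependent k ![u, v] → ∀ d : Fin 5 → ℕ, Nef d →
    4 * ∑ i, d i ^ 2 < (∑ i, d i) ^ 2 →
    ∃ σ : Fin 3 → Ω, Free u v k d σ ∧ IsPl k σ ∧
      4 * (PF k σ).relfinrank (UV u v k) + 4 * ∑ i, d i ^ 2 ≤ (∑ i, d i) ^ 2

/-- DEG: the degree of the embedded surface is twenty. -/
def Stmt_DEG : Prop :=
  ∀ (k Ω : Type) [Field k] [IsAlgClosed k] [Field Ω] [Algebra k Ω] (u v : Ω),
    AlgebraicIndependent k ![u, v] → ∀ l : Fin 3 → Ω, Free u v k (fun _ => 4) l → IsPl k l →
    20 ≤ (PF k l).relfinrank (UV u v k)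

/-- ZED: sections of the multiples of `L + 2 D_j` with large poles on `D_j`. -/
def Stmt_ZED : Prop :=
  ∀ (k Ω : Type) [Field k] [IsAlgClosed k] [Field Ω] [Algebra k Ω] (u v : Ω),
    AlgebraicIndependent k ![u, v] → ∀ (j : Fin 10) (n r : ℕ), r ≤ n →
    ∃ Z : Submodule k Ω, FiniteDimensional k Z ∧ r * (r + 1) ≤ 2 * Module.finrank k Z ∧
      (∀ z ∈ Z, z ∈ Sec u v k (fun i => n * (4 + 2 * chi j i))) ∧
      ∀ z ∈ Z, z ≠ 0 → ∀ V : ValuationSubring Ω, Curve u v k V → On u v V j →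
        ∀ e e', Top u v V (fun _ => 4) e → Top u v V (fun i => 4 + chi j i) e' →
        (mo u v e' ^ 2 / mo u v e) ^ n * (pk u v j * mo u v e / mo u v e') ^ r / z ∈ V

/-- GNS: generic solutions of the equations of `X` and of `G`. -/
def Stmt_GNS : Prop :=
  ∀ (k Ω : Type) [Field k] [IsAlgClosed k] [Field Ω] [Algebra k Ω] (s : XV.Pt → Ω), XV.IsSol s →
    (∀ c, 1 ≤ c.w → s c = 0) → ∀ c₀ : XV.Pt, s c₀ ≠ 0 →
    (∃ f g, f ∈ IntermediateField.adjoin k (Set.range fun c => s c / s c₀) ∧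
      g ∈ IntermediateField.adjoin k (Set.range fun c => s c / s c₀) ∧
      AlgebraicIndependent k ![f, g]) →
    ∃ u v l : Ω, l ≠ 0 ∧ AlgebraicIndependent k ![u, v] ∧
      (∀ c : XV.Pt, c.w = 0 → s c = l * mo u v c.e) ∧
      u ∈ IntermediateField.adjoin k (Set.range fun c => s c / s c₀) ∧
      v ∈ IntermediateField.adjoin k (Set.range fun c => s c / s c₀)

/-! ## The result -/

/-- The surface in the sense of `Pool.Agent.NUM`. -/
def sf {p : ℕ} [Fact p.Prime] {J : Type} {E : FRM.Eqs p XV.N J} (T : ExactSurf E) : NUM.Sf where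
  k := T.K
  F := T.F
  x := T.x
  y := T.y
  surf := T.surf

/-- NIN: the input of the numerics. -/
def Stmt_NIN : Prop :=
  ∀ (p : ℕ) [Fact p.Prime] (J : Type) [Finite J] (E : FRM.Eqs p XV.N J), XV.GoodEqs E →
    ∀ T : ExactSurf E, T.Full →
    (sf T).NumIn XV.Disj (fun s => {e | T.Tub s e}) ((deg T.K T.x T.y : ℝ) / 20)

end Pool.Agent.SFB
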