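import Pool.Agent.NUM.Defs
import Pool.Agent.DIS.Interface
import Pool.Agent.EN2.Basic
import Pool.Agent.EN2.CompDef

/-!
# Special fibre bounds: definitions

The components `c : Comp O x y` of the special fibre are the places of `F` over `O` for which the
residues of `x`, `y` are algebraically independent.
-/

set_option autoImplicit false

noncomputable section

namespace Pool.Agent.SFB

open scoped Classical
open Pool.Agent.EN2 Pool.Agent.SRF Pool.Agent.DIS IsLocalRing

/-! ## Planes -/

section norm

variable (k : Type) {Ω : Type} [Field k] [Field Ω] [Algebra k Ω]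

/-- `f ^ n₀` is integral of degree `n` over `k[σ₀, σ₁, σ₂]`. -/
def IntS (σ : Fin 3 → Ω) (n n₀ : ℕ) (f : Ω) : Prop :=
  ∀ i, IsIntegral (Algebra.adjoin k (Set.range fun j => σ j / σ i)) (f ^ n₀ / σ i ^ n)

/-- The field of the projective plane with the coordinates `σ`. -/
def PF (σ : Fin 3 → Ω) : IntermediateField k Ω :=
  IntermediateField.adjoin k {σ 1 / σ 0, σ 2 / σ 0}

/-- `σ` are coordinates of a plane. -/
structure IsPl (σ : Fin 3 → Ω) : Prop where
  ne : ∀ i, σ i ≠ 0
  indep : AlgebraicIndependent k ![σ 1 / σ 0, σ 2 / σ 0]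

/-- The valuation ring `V` is trivial on `k`. -/
def KV (V : ValuationSubring Ω) : Prop := ∀ a : k, algebraMap k Ω a ∈ V

/-- The centre of `V` on the plane with the coordinates `σ` is not a closed point. -/
structure PCurve (σ : Fin 3 → Ω) (V : ValuationSubring Ω) : Prop where
  kv : KV k V
  tr : ∃ i, (∀ j, σ j / σ i ∈ V) ∧ ∃ j, ∀ a : k, σ j / σ i - algebraMap k Ω a ∉ V.nonunits

end norm

/-! ## Components -/

section comp

variable {K : Type} [Field K] (O : ValuationSubring K) {F : Type} [Field F] [Algebra K F]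
  (x y : F)

/-- `f` is bounded by one on all components. -/
def Bd (f : F) : Prop := ∀ c : Comp O x y, f ∈ c.1.W

/-- The subfield of the residue field of `c` generated by the residues of `G`. -/
def RF (c : Pl O F) (G : Finset F) :
    IntermediateField (ResidueField O) (ResidueField c.W) :=
  IntermediateField.adjoin (ResidueField O) (c.res '' (G : Set F))

/-- The residues of the coordinates of the plane. -/
def xi (c : Pl O F) : Fin 3 → ResidueField c.W := ![1, c.res x, c.res y]

variable (K)

/-- Twists: `b c` has norm `> 1` at `c` and `≤ 1` at the other components. -/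
structure IsTwist (d : ℕ) (b : Comp O x y → F) : Prop where
  sec : ∀ c, b c ∈ L K x y (fun e => d * H K x y e)
  ne : ∀ c, b c ≠ 0 ∧ (b c)⁻¹ ∈ c.1.W.nonunits
  le : ∀ c c' : Comp O x y, c' ≠ c → b c ∈ c'.1.W

variable {K}

/-- The bounded multiples of the elements of `V`, possibly twisted at `c`. -/
def InTw (b : Comp O x y → F) (V : Submodule K F) (c : Comp O x y) (g : F) : Prop :=
  Bd O x y g ∧ ∃ κ : K, ∃ f ∈ V, g = κ • f ∨ g = κ • (b c * f)

end comp

/-! ## Composite places -/

section composite

variable {K : Type} [Field K] {O : ValuationSubring K} {F : Type} [Field F] [Algebra K F]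

/-- The composite of a place and a valuation ring of its residue field. -/
def cpW (c : Pl O F) (V : ValuationSubring (ResidueField c.W)) : ValuationSubring F where
  carrier := {f | f ∈ c.W ∧ c.res f ∈ V}
  mul_mem' := by
    rintro f g ⟨hf, hf'⟩ ⟨hg, hg'⟩
    exact ⟨mul_mem hf hg, by rw [c.res_mul hf hg]; exact mul_mem hf' hg'⟩
  one_mem' := ⟨one_mem _, by rw [c.res_one]; exact one_mem _⟩
  add_mem' := by
    rintro f g ⟨hf, hf'⟩ ⟨hg, hg'⟩
    exact ⟨add_mem hf hg, by rw [c.res_add hf hg]; exact add_mem hf' hg'⟩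
  zero_mem' := ⟨zero_mem _, by rw [c.res_zero]; exact zero_mem _⟩
  neg_mem' := by
    rintro f ⟨hf, hf'⟩
    exact ⟨neg_mem hf, by rw [c.res_neg hf]; exact neg_mem hf'⟩
  mem_or_inv_mem' := by
    intro f
    by_cases hf : f ∈ c.W
    · by_cases h0 : c.res f = 0
      · left
        exact ⟨hf, by rw [h0]; exact zero_mem _⟩
      · rcases V.mem_or_inv_mem (c.res f) with h | h
        · exact Or.inl ⟨hf, h⟩
        · right
          exact ⟨c.inv_mem h0, by rw [c.res_inv h0]; exact h⟩
    · right
      have h := c.not_mem_inv hf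
      exact ⟨c.mem_of_nonunit h, by rw [c.res_nonunit h]; exact zero_mem _⟩

end composite

/-! ## Five points on the line -/

section five

variable {Ω : Type} [Field Ω] (u v : Ω)

/-- The points `0 : 1`, `1 : 1`, `1 : 0`, `u : 1`, `v : 1`: first coordinates. -/
def pa : Fin 5 → Ω := ![0, 1, 1, u, v]

/-- The points `0 : 1`, `1 : 1`, `1 : 0`, `u : 1`, `v : 1`: second coordinates. -/
def pb : Fin 5 → Ω := ![1, 1, 0, 1, 1]

/-- The brackets. -/
def pk (k : Fin 10) : Ω := pa u v (XV.eS k) * pb (XV.eT k) - pa u v (XV.eT k) * pb (XV.eS k)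

/-- The monomial in the brackets. -/
def mo (e : Fin 10 → ℕ) : Ω := ∏ k, pk u v k ^ e k

/-- Multigraphs with given vertex degrees. -/
def Mon (d : Fin 5 → ℕ) (e : Fin 10 → ℕ) : Prop := ∀ i, XV.mdeg e i = d i

/-- The class with vertex degrees `d` is nef. -/
def Nef (d : Fin 5 → ℕ) : Prop :=
  Even (∑ i, d i) ∧ ∀ k, 2 * (d (XV.eS k) + d (XV.eT k)) ≤ ∑ i, d i

/-- The vertex degrees of the edge `k`. -/
def chi (k : Fin 10) (i : Fin 5) : ℕ := if XV.eS k = i ∨ XV.eT k = i then 1 else 0

/-- `e` is a maximal monomial of its degree for `V`. -/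
def Top (V : ValuationSubring Ω) (d : Fin 5 → ℕ) (e : Fin 10 → ℕ) : Prop :=
  Mon d e ∧ ∀ e', Mon d e' → mo u v e' / mo u v e ∈ V

/-- `V` is centred on the curve `k`. -/
def On (V : ValuationSubring Ω) (k : Fin 10) : Prop :=
  ∀ e, Top u v V (fun _ => 4) e → e k = 0

variable (k : Type) [Field k] [Algebra k Ω]

/-- The function field of the moduli space of five points. -/
def UV : IntermediateField k Ω := IntermediateField.adjoin k {u, v}

/-- The sections with vertex degrees `d`. -/
def Sec (d : Fin 5 → ℕ) : Submodule k Ω := Submodule.span k {f | ∃ e, Mon d e ∧ f = mo u v e}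

/-- The centre of `V` on the moduli space of five points is not a closed point. -/
structure Curve (V : ValuationSubring Ω) : Prop where
  kv : KV k V
  tr : ∃ d e e', Nef d ∧ Top u v V d e ∧ Mon d e' ∧
    ∀ a : k, mo u v e' / mo u v e - algebraMap k Ω a ∉ V.nonunits

/-- `σ` are sections with vertex degrees `d` without common zero. -/
structure Free (d : Fin 5 → ℕ) (σ : Fin 3 → Ω) : Prop where
  sec : ∀ i, σ i ∈ Sec u v k d
  nz : ∀ V : ValuationSubring Ω, KV k V → ∀ e, Top u v V d e →
    ∃ i, σ i ≠ 0 ∧ mo u v e / σ i ∈ V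

end five

end Pool.Agent.SFB
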