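import Pool.Agent.SFB.ZEE
import Pool.Agent.SFB.FinC

/-!
# Special fibre bounds: the common part of CRZ and CRC

Upper bound for the dimension of the space of sections with poles on `S` and zeros in the tube `j`.
-/

set_option autoImplicit false

noncomputable section

namespace Pool.Agent.SFB

open scoped Classical
open Pool.Agent.EN2 Pool.Agent.SRF Pool.Agent.DIS IsLocalRing

namespace GenC_

/-- the residue field of a valuation ring of an algebraically closed field -/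
theorem ac {K : Type} [Field K] [IsAlgClosed K] (O : ValuationSubring K) :
    IsAlgClosed (ResidueField O) := by
  apply IsAlgClosed.of_exists_root
  intro q hq hirr
  obtain ⟨P, hP, hdeg, hmon⟩ := Polynomial.lifts_and_degree_eq_and_monic
    ((Polynomial.mem_lifts _).mpr (Polynomial.map_surjective _ residue_surjective q)) hq
  have hd : P.degree ≠ 0 := by
    rw [hdeg]
    exact hirr.degree_pos.ne'
  have hd' : (P.map O.subtype).degree ≠ 0 := by
    rwa [hmon.degree_map]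
  obtain ⟨x, hx⟩ := IsAlgClosed.exists_root _ hd'
  have hint : IsIntegral O x := ⟨P, hmon, by
    rw [Polynomial.IsRoot.def, Polynomial.eval_map] at hx
    exact hx⟩
  obtain ⟨y, hy⟩ := (IsIntegrallyClosed.isIntegral_iff (R := O) (K := K)).mp hint
  refine ⟨residue O y, ?_⟩
  have h1 : P.eval y = 0 := by
    apply O.subtype_injective
    rw [map_zero, ← Polynomial.eval₂_hom, ← Polynomial.eval_map]
    have : O.subtype y = x := hy
    rw [this]
    exact hx
  rw [← hP, Polynomial.eval_map, Polynomial.eval₂_hom, h1, map_zero]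

section val

variable {Ω : Type} [Field Ω] (V : ValuationSubring Ω)

theorem div_iff {a b : Ω} (hb : b ≠ 0) : a / b ∈ V ↔ V.valuation a ≤ V.valuation b := by
  rw [← V.valuation_le_one_iff, map_div₀, div_le_one₀]
  exact zero_lt_iff.mpr (by rwa [Ne, map_eq_zero])

/-- the size estimate -/
theorem est {R R' L ρ : Ω} {N q s n₀ : ℕ} (hL : L ≠ 0) (hρ : ρ ≠ 0) (hR' : R' ≠ 0)
    (h1 : R * R' / L ^ (N + q) ∈ V) (h2 : L ^ q / (R' * ρ ^ s) ∈ V) (h3 : ρ ∈ V)
    (h4 : N ≤ n₀ * s) : R ^ n₀ / (L ^ n₀ * ρ) ^ N ∈ V := by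
  have hν : ∀ a : Ω, a ≠ 0 → V.valuation a ≠ 0 := fun a ha => by rwa [Ne, map_eq_zero]
  rw [div_iff V (pow_ne_zero _ hL)] at h1
  rw [div_iff V (mul_ne_zero hR' (pow_ne_zero _ hρ))] at h2
  rw [div_iff V (pow_ne_zero _ (mul_ne_zero (pow_ne_zero _ hL) hρ))]
  rw [← V.valuation_le_one_iff] at h3
  simp only [map_mul, map_pow] at *
  generalize V.valuation R = r at *
  have hr' := hν R' hR'
  have hl := hν L hL
  have hp := hν ρ hρ
  generalize V.valuation R' = r' at *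
  generalize V.valuation L = l at *
  generalize V.valuation ρ = p at *
  have h5 : r ≤ l ^ N * p ^ s := by
    have h6 : r' * r ≤ r' * (l ^ N * p ^ s) := by
      calc r' * r = r * r' := mul_comm _ _
        _ ≤ l ^ (N + q) := h1
        _ = l ^ N * l ^ q := pow_add _ _ _
        _ ≤ l ^ N * (r' * p ^ s) := by gcongr
        _ = r' * (l ^ N * p ^ s) := by ac_rfl
    exact le_of_mul_le_mul_left h6 (zero_lt_iff.mpr hr')
  calc r ^ n₀ ≤ (l ^ N * p ^ s) ^ n₀ := pow_le_pow_left₀ zero_le' h5 _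
    _ = l ^ (n₀ * N) * p ^ (n₀ * s) := by rw [mul_pow, ← pow_mul, ← pow_mul]; congr 2 <;> ring
    _ ≤ l ^ (n₀ * N) * p ^ N := by
      exact mul_le_mul' le_rfl (pow_le_pow_right_of_le_one' h3 h4)
    _ = (l ^ n₀ * p) ^ N := by rw [mul_pow, ← pow_mul]

/-- the size estimate off the curve `j` -/
theorem est' {R L ρ : Ω} {N n₀ : ℕ} (hL : L ≠ 0) (hρ : Sim V ρ 1)
    (h1 : R / L ^ N ∈ V) : R ^ n₀ / (L ^ n₀ * ρ) ^ N ∈ V := by
  obtain ⟨-, h3, h4, hρ0⟩ := hρ
  rw [div_iff V (pow_ne_zero _ hL)] at h1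
  rw [div_iff V (pow_ne_zero _ (mul_ne_zero (pow_ne_zero _ hL) hρ0))]
  rw [div_iff V one_ne_zero] at h3
  rw [div_iff V hρ0] at h4
  have h5 := le_antisymm h3 h4
  rw [map_one] at h5
  simp only [map_mul, map_pow, h5, mul_one] at *
  calc V.valuation R ^ n₀ ≤ (V.valuation L ^ N) ^ n₀ := pow_le_pow_left₀ zero_le' h1 _
    _ = (V.valuation L ^ n₀) ^ N := by rw [← pow_mul, ← pow_mul, mul_comm]

theorem sim_trans {a b R : Ω} {n₀ N : ℕ} (h : Sim V a b) (h1 : R ^ n₀ / b ^ N ∈ V) :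
    R ^ n₀ / a ^ N ∈ V := by
  obtain ⟨hb, h3, h4, ha⟩ := h
  have : R ^ n₀ / a ^ N = (R ^ n₀ / b ^ N) * (b / a) ^ N := by
    rw [div_pow]
    field_simp
  rw [this]
  exact mul_mem h1 (pow_mem h4 N)

end val

section planes

variable {k Ω : Type} [Field k] [Field Ω] [Algebra k Ω]

theorem PF_scale (σ : Fin 3 → Ω) {l : Ω} (hl : l ≠ 0) : PF k (fun i => σ i / l) = PF k σ := by
  unfold PF
  have h : ∀ a b : Ω, a / l / (b / l) = a / b := fun a b => by
    rw [div_div_div_cancel_right₀ hl]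
  simp only [h]

theorem IsPl_scale {σ : Fin 3 → Ω} {l : Ω} (hl : l ≠ 0) (h : IsPl k σ) :
    IsPl k (fun i => σ i / l) := by
  have h' : ∀ a b : Ω, a / l / (b / l) = a / b := fun a b => by
    rw [div_div_div_cancel_right₀ hl]
  refine ⟨fun i => div_ne_zero (h.ne i) hl, ?_⟩
  simp only [h']
  exact h.indep

end planes

section sections

variable (T : NUM.Sf)

theorem H_nonneg (O : T.P) : 0 ≤ T.H O := le_max_left _ _

variable {T}

theorem WW_mono {S : Set T.P} {n m : ℕ} (h : n ≤ m) {f : T.F} (hf : f ∈ T.WW S n) :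
    f ∈ T.WW S m := by
  rcases hf with hf | hf
  · exact Or.inl hf
  · refine Or.inr fun O hO => le_trans ?_ (hf O hO)
    have h1 := H_nonneg T O
    have h2 : (n : ℤ) ≤ m := by exact_mod_cast h
    nlinarith

theorem WW_mul {S : Set T.P} {n d : ℕ} {f b : T.F} (hf : f ∈ T.WW S n)
    (hb : b ∈ SRF.L T.k T.x T.y (fun e => d * SRF.H T.k T.x T.y e)) :
    b * f ∈ T.WW S (n + d) := by
  by_cases h0 : b * f = 0
  · exact Or.inl h0
  have hb0 : b ≠ 0 := left_ne_zero_of_mul h0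
  have hf0 : f ≠ 0 := right_ne_zero_of_mul h0
  refine Or.inr fun O hO => ?_
  have h1 := hf.resolve_left hf0 O hO
  have h2 := hb.resolve_left hb0 O
  have h3 : T.o O (b * f) = T.o O b + T.o O f := O.isOrd.mul _ _ hb0 hf0
  rw [h3]
  push_cast
  have h4 : -(d * T.H O) ≤ T.o O b := h2
  linarith

theorem WZ_mul {S S' : Set T.P} {n q : ℕ} {f g : T.F} (hf : f ∈ T.WZ S S' n q)
    (hg : g ∈ T.WW S' q) : f * g ∈ T.WW S (n + q) := by
  by_cases h0 : f * g = 0
  · exact Or.inl h0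
  have hf0 : f ≠ 0 := left_ne_zero_of_mul h0
  have hg0 : g ≠ 0 := right_ne_zero_of_mul h0
  refine Or.inr fun O hO => ?_
  have h3 : T.o O (f * g) = T.o O f + T.o O g := O.isOrd.mul _ _ hf0 hg0
  rw [h3]
  by_cases hO' : O ∈ S'
  · have h1 := (hf.2 g hg hg0).resolve_left hf0 O hO'
    linarith
  · have h1 := hf.1.resolve_left hf0 O hO
    have h2 := hg.resolve_left hg0 O hO'
    push_cast
    linarith

end sections

section main

variable {p : ℕ} [Fact p.Prime] {J : Type} {E : FRM.Eqs p XV.N J}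

/-- Planes for sections with poles on `S` and zeros in the tube `j`. -/
def Planes (T : ExactSurf E) (S : Set (sf T).P) (j : Fin 10) (n₀ A : ℕ) : Prop :=
  ∀ (c : Comp T.O T.x T.y) (u v l : ResidueField c.1.W), Fv T c u v l →
    ∃ σ : Fin 3 → ResidueField c.1.W, IsPl (ResidueField T.O) σ ∧
      (∀ i, σ i ∈ UV u v (ResidueField T.O)) ∧
      (PF (ResidueField T.O) σ).relfinrank (UV u v (ResidueField T.O)) ≤ A ∧
      ∀ V : ValuationSubring (ResidueField c.1.W), PCurve (ResidueField T.O) σ V →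
        ∀ i, (∀ i', σ i' / σ i ∈ V) →
        Curve u v (ResidueField T.O) V ∧
        (∀ e, Top u v V (fun _ => 4) e → ∀ (n : ℕ) (g : T.F), Bd T.O T.x T.y g →
          g ∈ (sf T).WW S n → c.1.res g / (l * mo u v e) ^ n ∈ V) ∧
        ∀ e e', Top u v V (fun _ => 4) e → Top u v V (fun i => 4 + chi j i) e' →
          Sim V (σ i) ((l * mo u v e) ^ n₀ * rho u v j e e')

theorem gen (hRED : Stmt_RED) (hDEG : Stmt_DEG) (hFIV : Stmt_FIV) (hINT : Stmt_INT)
    (hFUL : Stmt_FUL) (hRHO : Stmt_RHO) (hPFI : Stmt_PFI)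
    (hE : XV.GoodEqs E) (T : ExactSurf E) (hT : T.Full) (S : Set (sf T).P)
    (j : Fin 10) : ∃ d : ℕ, ∀ m : ℕ, 0 < m → ∃ q₀ : ℕ, ∀ n q : ℕ, q₀ ≤ q →
    ∀ n₀ A : ℕ, 1 ≤ n₀ → Planes T S j n₀ A → n + d ≤ n₀ * (2 * q - q / m) →
      20 * Module.finrank (sf T).k ((sf T).WZ S {e | T.Tub j e} n q) ≤
        deg T.K T.x T.y * A * ((n + d) / n₀ + 2).choose 2 := by
  haveI hk : IsAlgClosed (ResidueField T.O) := ac T.O
  obtain ⟨d, b, hb, hred⟩ := hRED T.K T.O T.arch T.dvr T.F T.x T.y T.surf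
  refine ⟨d, fun m hm => ?_⟩
  obtain ⟨q₀, hq₀⟩ := hFUL p J E hE T hT j m hm
  refine ⟨q₀, fun n q hq n₀ A hn₀ hpl hineq => ?_⟩
  choose u v l hF using hFIV p J E hE T
  choose σ hσpl hσmem hσdeg hσV using fun c => hpl c (u c) (v c) (l c) (hF c)
  obtain ⟨-, ⟨c₀⟩, -, -⟩ := hPFI T.K T.O T.arch T.F T.x T.y T.surf
  have h := (hred (GX T) ?_ ?_ σ hσpl ?_ 20 A ?_ ?_ (n + d) n₀ hn₀
    ((sf T).WZ S {e | T.Tub j e} n q) ?_ c₀ ⊥ inferInstance ?_ ?_).2
  · rw [finrank_bot, add_zero] at h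
    exact h
  · intro g hg c
    obtain ⟨i, -, rfl⟩ := Finset.mem_image.mp hg
    exact (hF c).mem i
  · intro c
    rw [(hF c).rf]
    exact ⟨(hF c).xmem, (hF c).ymem⟩
  · intro c i
    rw [(hF c).rf]
    exact hσmem c i
  · intro c
    rw [(hF c).rf, ← PF_scale (xi T.O T.x T.y c.1) (hF c).l_ne]
    exact hDEG _ _ (u c) (v c) (hF c).ind _ (hF c).free (IsPl_scale (hF c).l_ne (hF c).pl)
  · intro c
    rw [(hF c).rf]
    exact hσdeg c
  · rintro c g ⟨hg, κ, f, hf, hgf⟩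
    refine hINT _ _ (σ c) (hσpl c) (finC T.surf c (σ c) (hσpl c)) _ _ _ fun V hV i hi => ?_
    obtain ⟨hcur, hreg, hsim⟩ := hσV c V hV i hi
    have hpk := fun i => ZEE_.pk_ne (u c) (v c) (ResidueField T.O) (hF c).ind i
    obtain ⟨e, he⟩ := ZEE_.exists_Top (u c) (v c) V (fun _ => 4) _ ZEE_.mon4
    obtain ⟨e', he'⟩ := ZEE_.exists_Top (u c) (v c) V (fun i => 4 + chi j i) _ (ZEE_.mon5 j)
    refine sim_trans V (hsim e e' he he') ?_
    have hL : l c * mo (u c) (v c) e ≠ 0 := mul_ne_zero (hF c).l_ne (ZEE_.mo_ne _ _ hpk e)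
    obtain ⟨hρ1, hρ2⟩ := hRHO _ (u c) (v c) hpk V j e e' he he'
    have hρ0 : rho (u c) (v c) j e e' ≠ 0 :=
      div_ne_zero (mul_ne_zero (hpk j) (ZEE_.mo_ne _ _ hpk e)) (ZEE_.mo_ne _ _ hpk e')
    have hgW : g ∈ (sf T).WW S (n + d) := by
      rcases hgf with rfl | rfl
      · exact Submodule.smul_mem _ κ (WW_mono (Nat.le_add_right n d) hf.1)
      · exact Submodule.smul_mem _ κ (WW_mul hf.1 (hb.sec c))
    by_cases hon : On (u c) (v c) V j
    · have hex : ∃ g' : T.F, g' ∈ (sf T).WW {e | T.Tub j e} q ∧ Bd T.O T.x T.y g' ∧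
          c.1.res g' ≠ 0 ∧ ∀ e e', Top (u c) (v c) V (fun _ => 4) e →
            Top (u c) (v c) V (fun i => 4 + chi j i) e' →
            (l c * mo (u c) (v c) e) ^ q /
              (c.1.res g' * rho (u c) (v c) j e e' ^ (2 * q - q / m)) ∈ V :=
        hq₀ q hq c (u c) (v c) (l c) (hF c) V hcur hon
      obtain ⟨g', hg'W, hg'B, hg'0, hg'⟩ := hex
      have h2 := hg' e e' he he'
      have hgg : g * g' ∈ (sf T).WW S (n + d + q) := by
        rcases hgf with rfl | rfl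
        · rw [smul_mul_assoc]
          refine Submodule.smul_mem _ κ (WW_mono ?_ (WZ_mul hf hg'W))
          omega
        · rw [smul_mul_assoc, mul_assoc]
          refine Submodule.smul_mem _ κ ?_
          have h3 := WW_mul (WZ_mul hf hg'W) (hb.sec c)
          have h4 : n + q + d = n + d + q := by ring
          rwa [h4] at h3
      have h1 := hreg e he (n + d + q) (g * g') (fun c' => mul_mem (hg c') (hg'B c')) hgg
      rw [c.1.res_mul (hg c) (hg'B c)] at h1
      exact est V hL hρ0 hg'0 h1 h2 hρ1 hineq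
    · exact est' V hL (hρ2 hon) (hreg e he (n + d) g hg hgW)
  · intro z hz
    rw [Submodule.mem_bot] at hz
    subst hz
    refine ⟨zero_mem _, fun i => ?_⟩
    rw [zero_pow (by omega), zero_div]
    exact isIntegral_zero
  · intro f _ _ hf
    exact (Submodule.mem_bot _).mp hf

end main

end GenC_

end Pool.Agent.SFB
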