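import Pool.Agent.SFB.StmtsT

/-!
# The input of the numerics
-/

set_option autoImplicit false

noncomputable section

namespace Pool.Agent.SFB

open scoped Classical
open Pool.Agent.EN2 Pool.Agent.SRF Pool.Agent.DIS IsLocalRing Filter

namespace NIN_

theorem disj_symm : ∀ i j, XV.Disj i j → XV.Disj j i := by decide

theorem disj_irr : ∀ i, ¬ XV.Disj i i := by decide

/-- The limit of the upper bound. -/
theorem up_aux (N : ℝ) (hN : 0 ≤ N) (d : ℕ) (ε : ℝ) (hε : 0 < ε) :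
    ∀ᶠ n : ℕ in atTop, N * (12 * ((n : ℝ) + d + 2) * (n + d + 1)) ≤ (12 * N + ε) * n ^ 2 := by
  -- `12 N ((2 d + 3) n + (d + 2)(d + 1)) ≤ ε n ^ 2`
  obtain ⟨n₁, hn₁⟩ := exists_nat_gt
    ((12 * N * ((2 * d + 3) + (d + 2) * (d + 1))) / ε)
  filter_upwards [eventually_ge_atTop (max n₁ 1)] with n hn
  have h1 : (1 : ℝ) ≤ n := by exact_mod_cast le_trans (le_max_right _ _) hn
  have h2 : (n₁ : ℝ) ≤ n := by exact_mod_cast le_trans (le_max_left _ _) hn
  have h3 : 12 * N * ((2 * d + 3) + (d + 2) * (d + 1)) ≤ ε * n := by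
    have := (hn₁.le).trans h2
    rw [div_le_iff₀ hε] at this
    linarith
  have hd : (0 : ℝ) ≤ d := Nat.cast_nonneg d
  have h4 : 12 * N * ((2 * d + 3) * n + (d + 2) * (d + 1)) ≤
      12 * N * ((2 * d + 3) + (d + 2) * (d + 1)) * n := by
    have h5 : ((d : ℝ) + 2) * (d + 1) ≤ (d + 2) * (d + 1) * n := by
      nlinarith [mul_nonneg hd hd]
    have h6 : (2 * (d : ℝ) + 3) * n + (d + 2) * (d + 1) ≤
        ((2 * d + 3) + (d + 2) * (d + 1)) * n := by linarith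
    calc 12 * N * ((2 * (d : ℝ) + 3) * n + (d + 2) * (d + 1))
        ≤ 12 * N * (((2 * d + 3) + (d + 2) * (d + 1)) * n) :=
          mul_le_mul_of_nonneg_left h6 (by positivity)
      _ = _ := by ring
  have h7 : ε * n * n = ε * n ^ 2 := by ring
  have h8 : 12 * N * ((2 * d + 3) + (d + 2) * (d + 1)) * n ≤ ε * n * n :=
    mul_le_mul_of_nonneg_right h3 (by linarith)
  nlinarith

theorem choose_two (m : ℕ) : (((m + 2).choose 2 : ℕ) : ℝ) = ((m : ℝ) + 2) * (m + 1) / 2 := by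
  have h : (m + 2).choose 2 * 2 = (m + 2) * (m + 1) := by
    have := Nat.triangle_succ (m + 1)
    rw [Nat.choose_two_right]
    rw [Nat.div_mul_cancel]
    · rfl
    · exact (Nat.even_mul_pred_self (m + 2)).two_dvd
  have h' : (((m + 2).choose 2 : ℕ) : ℝ) * 2 = ((m : ℝ) + 2) * (m + 1) := by exact_mod_cast h
  linarith

/-- Scaling. -/
theorem scale {N X ε C' B : ℝ} {n q : ℕ} (hN : 0 ≤ N) (hε : 0 < ε)
    (h : X ≤ N * (B + ε / (N + 1) * n ^ 2 + C' * q ^ 2)) :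
    X ≤ N * B + ε * n ^ 2 + N * C' * q ^ 2 := by
  have h1 : N * (ε / (N + 1)) ≤ ε := by
    rw [mul_div_assoc', div_le_iff₀ (by linarith)]
    nlinarith
  have h2 : N * (ε / (N + 1)) * n ^ 2 ≤ ε * n ^ 2 :=
    mul_le_mul_of_nonneg_right h1 (by positivity)
  calc X ≤ N * (B + ε / (N + 1) * n ^ 2 + C' * q ^ 2) := h
    _ = N * B + N * (ε / (N + 1)) * n ^ 2 + N * C' * q ^ 2 := by ring
    _ ≤ _ := by linarith

end NIN_

open NIN_

theorem nin_proof (hUPB : Stmt_UPB) (hCRZ : Stmt_CRZ) (hCRC : Stmt_CRC) (hINQ : Stmt_INQ)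
    (hNOM : Stmt_NOM) (hDJT : Stmt_DJT) : Stmt_NIN := by
  intro p hp J _ E hE T hT
  set D : ℝ := (deg T.K T.x T.y : ℝ) with hD
  have hD0 : 0 ≤ D := Nat.cast_nonneg _
  have hN : 0 ≤ D / 20 := by positivity
  have hfd : ∀ j n, FiniteDimensional (sf T).k ((sf T).WW {e | T.Tub j e} n) := fun j n =>
    ((hUPB p J E hE T j).choose_spec n).1
  have key : ∀ (X A : ℕ), 20 * X ≤ deg T.K T.x T.y * A → (X : ℝ) ≤ D / 20 * A := by
    intro X A h
    have h' : (20 : ℝ) * X ≤ D * A := by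
      rw [hD]; exact_mod_cast h
    linarith
  refine ⟨?_, disj_symm, disj_irr, ?_, ?_, hfd, ?_, ?_, ?_, ?_⟩
  · show ((((deg T.K T.x T.y : ℕ) : ℤ)) : ℝ) = 20 * (D / 20)
    rw [hD]
    push_cast
    ring
  · intro i j hij
    rw [Set.disjoint_left]
    intro e hi hj
    exact hDJT p J E hE T i j hij e hi hj
  · intro i j hij hc e he e' he'
    exact hNOM p J E hE T i j hij hc e e' he he'
  · intro j ε hε
    obtain ⟨d, hd⟩ := hUPB p J E hE T j
    filter_upwards [up_aux (D / 20) hN d ε hε] with n hn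
    refine le_trans ?_ hn
    have h1 := key _ (24 * (n + d + 2).choose 2) ((hd n).2.trans (le_of_eq (by ring)))
    refine h1.trans (le_of_eq ?_)
    push_cast
    rw [choose_two]
    push_cast
    ring
  · intro j ε hε
    obtain ⟨n₀, hn₀⟩ := hT j ε hε
    filter_upwards [eventually_ge_atTop n₀] with n hn
    obtain ⟨W, hW, hW'⟩ := hn₀ n hn
    have hf : FiniteDimensional T.K (PolesOn T.K T.x T.y (T.Tub j) n) := hfd j n
    have h1 : Module.finrank T.K W ≤ Module.finrank T.K (PolesOn T.K T.x T.y (T.Tub j) n) :=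
      Submodule.finrank_mono hW
    have h2 : (Module.finrank T.K W : ℝ) ≤
        Module.finrank T.K (PolesOn T.K T.x T.y (T.Tub j) n) := by exact_mod_cast h1
    refine le_trans (le_trans (le_of_eq ?_) hW') h2
    rw [hD]; ring
  · intro j
    obtain ⟨d, hd⟩ := hCRZ p J E hE T hT j
    obtain ⟨C, hC⟩ := hINQ 20 4 (by norm_num) (by norm_num) d
    refine ⟨D / 20 * C, fun ε hε => ?_⟩
    obtain ⟨m, hm, hm'⟩ := hC (ε / (D / 20 + 1)) (by positivity)
    obtain ⟨q₀, hq₀⟩ := hd m hm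
    obtain ⟨n₁, hn₁, hn₁'⟩ := hm' q₀
    refine ⟨n₁, fun n q hq hqn => ?_⟩
    obtain ⟨n₀, h1, h2, h3⟩ := hn₁' n q hq hqn
    have h4 := hq₀ n q (hn₁.trans hq) n₀ h1 h2
    have h5 := key _ ((20 * n₀ ^ 2 - 4 * n₀) * ((n + d) / n₀ + 2).choose 2)
      (h4.trans (le_of_eq (mul_assoc _ _ _)))
    have h6 := h5.trans (mul_le_mul_of_nonneg_left h3 hN)
    refine scale (B := 10 * n ^ 2 - 4 * q * n) hN hε (h6.trans (le_of_eq ?_))
    norm_num
  · intro i j hij
    obtain ⟨d, hd⟩ := hCRC p J E hE T hT i j hij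
    obtain ⟨C, hC⟩ := hINQ 24 8 (by norm_num) (by norm_num) d
    refine ⟨D / 20 * C, fun ε hε => ?_⟩
    obtain ⟨m, hm, hm'⟩ := hC (ε / (D / 20 + 1)) (by positivity)
    obtain ⟨q₀, hq₀⟩ := hd m hm
    obtain ⟨n₁, hn₁, hn₁'⟩ := hm' q₀
    refine ⟨n₁, fun n q hq hqn => ?_⟩
    obtain ⟨n₀, h1, h2, h3⟩ := hn₁' n q hq hqn
    have h4 := hq₀ n q (hn₁.trans hq) n₀ h1 h2
    have h5 := key _ ((24 * n₀ ^ 2 - 8 * n₀) * ((n + d) / n₀ + 2).choose 2)
      (h4.trans (le_of_eq (mul_assoc _ _ _)))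
    have h6 := h5.trans (mul_le_mul_of_nonneg_left h3 hN)
    refine scale (B := 12 * n ^ 2 - 8 * q * n) hN hε (h6.trans (le_of_eq ?_))
    norm_num

end Pool.Agent.SFB
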