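import Pool.Agent.SFB.StmtsT

/-!
# Special fibre bounds, module PLC: a plane for the class `n₀ (L + 2 D_i) - D_i - D_j`
-/

set_option autoImplicit false

noncomputable section

namespace Pool.Agent.SFB

open scoped Classical
open Pool.Agent.EN2 Pool.Agent.SRF Pool.Agent.DIS IsLocalRing

namespace PLC_

/-! ## Degrees -/

theorem chi_le (k : Fin 10) (i : Fin 5) : chi k i ≤ 1 := by
  unfold chi; split_ifs <;> omega

theorem chi_sum (k : Fin 10) : ∑ i, chi k i = 2 := by
  revert k; unfold chi; decide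

theorem chi_self (k : Fin 10) : chi k (XV.eS k) = 1 ∧ chi k (XV.eT k) = 1 := by
  unfold chi; simp

theorem chi_disj (i j : Fin 10) (h : XV.Disj i j) (a : Fin 5) : chi i a = 0 ∨ chi j a = 0 := by
  obtain ⟨h1, h2, h3, h4⟩ := h
  by_cases hi : XV.eS i = a ∨ XV.eT i = a
  · right
    unfold chi
    rw [if_neg]
    rintro (h5 | h5)
    · rcases hi with h6 | h6
      · exact h1 (h6.trans h5.symm)
      · exact h3 (h6.trans h5.symm)
    · rcases hi with h6 | h6
      · exact h2 (h6.trans h5.symm)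
      · exact h4 (h6.trans h5.symm)
  · left
    unfold chi
    rw [if_neg hi]

theorem mdeg_add (e e' : Fin 10 → ℕ) (i : Fin 5) :
    XV.mdeg (e + e') i = XV.mdeg e i + XV.mdeg e' i := by
  unfold XV.mdeg
  rw [← Finset.sum_add_distrib]
  refine Finset.sum_congr rfl fun k _ => ?_
  split_ifs <;> simp

theorem mdeg_smul (n : ℕ) (e : Fin 10 → ℕ) (i : Fin 5) :
    XV.mdeg (n • e) i = n * XV.mdeg e i := by
  unfold XV.mdeg
  rw [Finset.mul_sum]
  refine Finset.sum_congr rfl fun k _ => ?_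
  split_ifs <;> simp

theorem mdeg_single (k : Fin 10) (i : Fin 5) :
    XV.mdeg (Pi.single k 1) i = chi k i := by
  unfold XV.mdeg chi
  rw [Finset.sum_eq_single k]
  · simp
  · intro l _ hl
    rw [Pi.single_eq_of_ne hl]; simp
  · intro h; exact absurd (Finset.mem_univ _) h

theorem mon_add {d d' : Fin 5 → ℕ} {e e' : Fin 10 → ℕ} (h : Mon d e) (h' : Mon d' e') :
    Mon (d + d') (e + e') := by
  intro i
  rw [mdeg_add, h i, h' i]; rfl

theorem mon_le {d : Fin 5 → ℕ} {e : Fin 10 → ℕ} (h : Mon d e) (k : Fin 10) :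
    e k ≤ d (XV.eS k) := by
  rw [← h (XV.eS k)]
  unfold XV.mdeg
  refine le_trans (le_of_eq ?_) (Finset.single_le_sum (fun l _ => Nat.zero_le _)
    (Finset.mem_univ k))
  simp

theorem mon_finite (d : Fin 5 → ℕ) : {e | Mon d e}.Finite :=
  (Set.finite_Icc (0 : Fin 10 → ℕ) fun k => d (XV.eS k)).subset fun _ he =>
    ⟨fun _ => Nat.zero_le _, fun k => mon_le he k⟩

theorem nef_add {d d' : Fin 5 → ℕ} (h : Nef d) (h' : Nef d') : Nef (d + d') := by
  constructor
  · simp only [Pi.add_apply, Finset.sum_add_distrib]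
    exact h.1.add h'.1
  · intro k
    have h1 := h.2 k
    have h2 := h'.2 k
    simp only [Pi.add_apply, Finset.sum_add_distrib]
    omega

theorem nef_zero : Nef 0 := by
  constructor <;> simp

theorem nef_smul {d : Fin 5 → ℕ} (h : Nef d) (n : ℕ) : Nef (n • d) := by
  induction n with
  | zero => rw [zero_smul]; exact nef_zero
  | succ n ih => rw [succ_nsmul]; exact nef_add ih h

theorem nef_four : Nef (fun _ => 4) := by
  constructor
  · simp; decide
  · intro k; simp

theorem nef_chi (k : Fin 10) : Nef (fun i => 4 + chi k i) := by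
  constructor
  · rw [Finset.sum_add_distrib, chi_sum]; simp; decide
  · intro l
    rw [Finset.sum_add_distrib, chi_sum]
    have h1 := chi_le k (XV.eS l)
    have h2 := chi_le k (XV.eT l)
    simp
    omega

/-! ## Monomials -/

section mono

variable {Ω : Type} [Field Ω] {u v : Ω}

theorem mo_ne (hpk : ∀ k, pk u v k ≠ 0) (e : Fin 10 → ℕ) : mo u v e ≠ 0 :=
  Finset.prod_ne_zero_iff.2 fun k _ => pow_ne_zero _ (hpk k)

theorem mo_add (e e' : Fin 10 → ℕ) : mo u v (e + e') = mo u v e * mo u v e' := by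
  simp [mo, pow_add, Finset.prod_mul_distrib]

theorem mo_smul (n : ℕ) (e : Fin 10 → ℕ) : mo u v (n • e) = mo u v e ^ n := by
  unfold mo
  rw [← Finset.prod_pow]
  refine Finset.prod_congr rfl fun k _ => ?_
  rw [← pow_mul]
  simp [mul_comm]

theorem mo_zero : mo u v 0 = 1 := by
  simp [mo]

variable (V : ValuationSubring Ω)

theorem div_mem_iff {f g : Ω} (hg : g ≠ 0) : f / g ∈ V ↔ V.valuation f ≤ V.valuation g := by
  rw [← V.valuation_le_one_iff, map_div₀, div_le_one₀]
  exact (zero_lt_iff.2 ((map_ne_zero _).2 hg))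

theorem top_iff (hpk : ∀ k, pk u v k ≠ 0) (d : Fin 5 → ℕ) (e : Fin 10 → ℕ) :
    Top u v V d e ↔ Mon d e ∧ ∀ e', Mon d e' → V.valuation (mo u v e') ≤ V.valuation (mo u v e) := by
  unfold Top
  constructor
  · rintro ⟨h1, h2⟩
    exact ⟨h1, fun e' he' => (div_mem_iff V (mo_ne hpk e)).1 (h2 e' he')⟩
  · rintro ⟨h1, h2⟩
    exact ⟨h1, fun e' he' => (div_mem_iff V (mo_ne hpk e)).2 (h2 e' he')⟩

theorem sim_iff (f g : Ω) : Sim V f g ↔ f ≠ 0 ∧ g ≠ 0 ∧ V.valuation f = V.valuation g := by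
  unfold Sim
  constructor
  · rintro ⟨h1, h2, h3, h4⟩
    exact ⟨h4, h1, le_antisymm ((div_mem_iff V h1).1 h2) ((div_mem_iff V h4).1 h3)⟩
  · rintro ⟨h4, h1, h⟩
    exact ⟨h1, (div_mem_iff V h1).2 h.le, (div_mem_iff V h4).2 h.ge, h4⟩

theorem top_val (hpk : ∀ k, pk u v k ≠ 0) {d : Fin 5 → ℕ} {e e' : Fin 10 → ℕ}
    (h : Top u v V d e) (h' : Top u v V d e') :
    V.valuation (mo u v e) = V.valuation (mo u v e') := by
  rw [top_iff V hpk] at h h'
  exact le_antisymm (h'.2 _ h.1) (h.2 _ h'.1)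

theorem exists_top (hpk : ∀ k, pk u v k ≠ 0) {d : Fin 5 → ℕ} (hd : ∃ e, Mon d e) :
    ∃ e, Top u v V d e := by
  obtain ⟨e, he, hm⟩ := Set.exists_max_image {e | Mon d e} (fun e => V.valuation (mo u v e))
    (mon_finite d) hd
  exact ⟨e, (top_iff V hpk d e).2 ⟨he, hm⟩⟩

theorem top_zero : Top u v V 0 0 := by
  constructor
  · intro i; simp [XV.mdeg]
  · intro e' he'
    have h : e' = 0 := by
      funext k
      have := mon_le he' k
      simpa using this
    rw [h, mo_zero, div_one]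
    exact one_mem _

theorem top_smul (hTOP : Stmt_TOP) (hpk : ∀ k, pk u v k ≠ 0) {d : Fin 5 → ℕ} {e : Fin 10 → ℕ}
    (hd : Nef d) (h : Top u v V d e) (n : ℕ) : Top u v V (n • d) (n • e) := by
  induction n with
  | zero => rw [zero_smul, zero_smul]; exact top_zero V
  | succ n ih =>
    rw [succ_nsmul, succ_nsmul]
    exact hTOP Ω u v hpk V _ _ _ _ (nef_smul hd n) hd ih h

end mono

/-! ## Sections -/

section sec

variable {k Ω : Type} [Field k] [Field Ω] [Algebra k Ω] {u v : Ω}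

theorem pa_mem (i : Fin 5) : pa u v i ∈ UV u v k := by
  have hu : u ∈ UV u v k := IntermediateField.subset_adjoin _ _ (by simp)
  have hv : v ∈ UV u v k := IntermediateField.subset_adjoin _ _ (by simp)
  fin_cases i
  · exact zero_mem _
  · exact one_mem _
  · exact one_mem _
  · exact hu
  · exact hv

theorem pb_mem (i : Fin 5) : pb (Ω := Ω) i ∈ UV u v k := by
  fin_cases i
  · exact one_mem _
  · exact one_mem _
  · exact zero_mem _
  · exact one_mem _
  · exact one_mem _

theorem pk_mem (i : Fin 10) : pk u v i ∈ UV u v k :=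
  sub_mem (mul_mem (pa_mem _) (pb_mem _)) (mul_mem (pa_mem _) (pb_mem _))

theorem mo_mem (e : Fin 10 → ℕ) : mo u v e ∈ UV u v k :=
  prod_mem fun i _ => pow_mem (pk_mem i) _

theorem sec_mem {d : Fin 5 → ℕ} {f : Ω} (hf : f ∈ Sec u v k d) : f ∈ UV u v k := by
  unfold Sec at hf
  induction hf using Submodule.span_induction with
  | mem x hx =>
    obtain ⟨e, _, rfl⟩ := hx
    exact mo_mem e
  | zero => exact zero_mem _
  | add x y _ _ hx hy => exact add_mem hx hy
  | smul a x _ hx => exact IntermediateField.smul_mem _ hx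

theorem mon_of_sec {d : Fin 5 → ℕ} {f : Ω} (hf : f ∈ Sec u v k d) (h0 : f ≠ 0) : ∃ e, Mon d e := by
  by_contra hcon
  push Not at hcon
  apply h0
  have h1 : {f | ∃ e, Mon d e ∧ f = mo u v e} = ∅ := by
    ext f
    simp only [Set.mem_ofPred_eq, Set.mem_empty_iff_false, iff_false]
    rintro ⟨e, he, _⟩
    exact hcon e he
  unfold Sec at hf
  rw [h1, Submodule.span_empty] at hf
  exact (Submodule.mem_bot k).1 hf

theorem kv_le {V : ValuationSubring Ω} (hV : KV k V) (a : k) :
    V.valuation (algebraMap k Ω a) ≤ 1 := (V.valuation_le_one_iff _).2 (hV a)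

theorem kv_eq {V : ValuationSubring Ω} (hV : KV k V) {a : k} (ha : a ≠ 0) :
    V.valuation (algebraMap k Ω a) = 1 := by
  refine le_antisymm (kv_le hV a) ?_
  have h1 := kv_le hV a⁻¹
  rw [map_inv₀, map_inv₀] at h1
  have h2 : V.valuation (algebraMap k Ω a) ≠ 0 :=
    (map_ne_zero _).2 ((map_ne_zero _).2 ha)
  exact (inv_le_one₀ (zero_lt_iff.2 h2)).1 h1

theorem sec_le (hpk : ∀ k, pk u v k ≠ 0) {V : ValuationSubring Ω} (hV : KV k V) {d : Fin 5 → ℕ}
    {e : Fin 10 → ℕ} (he : Top u v V d e) {f : Ω} (hf : f ∈ Sec u v k d) :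
    V.valuation f ≤ V.valuation (mo u v e) := by
  rw [top_iff V hpk] at he
  unfold Sec at hf
  induction hf using Submodule.span_induction with
  | mem x hx =>
    obtain ⟨e', he', rfl⟩ := hx
    exact he.2 e' he'
  | zero => simp
  | add x y _ _ hx hy => exact V.valuation.map_add_le hx hy
  | smul a x _ hx =>
    rw [Algebra.smul_def, map_mul]
    exact mul_le_of_le_one_of_le (kv_le hV a) hx

theorem sec_const {V : ValuationSubring Ω} (hV : KV k V) {d : Fin 5 → ℕ}
    {e : Fin 10 → ℕ} (hc : ∀ e', Mon d e' → ∃ a : k,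
      mo u v e' / mo u v e - algebraMap k Ω a ∈ V.nonunits) {f : Ω} (hf : f ∈ Sec u v k d) :
    ∃ a : k, V.valuation (f / mo u v e - algebraMap k Ω a) < 1 := by
  unfold Sec at hf
  induction hf using Submodule.span_induction with
  | mem x hx =>
    obtain ⟨e', he', rfl⟩ := hx
    obtain ⟨a, ha⟩ := hc e' he'
    exact ⟨a, V.mem_nonunits_iff.1 ha⟩
  | zero => exact ⟨0, by simp⟩
  | add x y _ _ hx hy =>
    obtain ⟨a, ha⟩ := hx
    obtain ⟨b, hb⟩ := hy
    refine ⟨a + b, ?_⟩
    have h : (x + y) / mo u v e - algebraMap k Ω (a + b) =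
        (x / mo u v e - algebraMap k Ω a) + (y / mo u v e - algebraMap k Ω b) := by
      rw [map_add]; ring
    rw [h]
    exact V.valuation.map_add_lt ha hb
  | smul c x _ hx =>
    obtain ⟨a, ha⟩ := hx
    refine ⟨c * a, ?_⟩
    have h : (c • x) / mo u v e - algebraMap k Ω (c * a) =
        algebraMap k Ω c * (x / mo u v e - algebraMap k Ω a) := by
      rw [map_mul, Algebra.smul_def]; ring
    rw [h, map_mul]
    exact lt_of_le_of_lt (mul_le_of_le_one_left' (kv_le hV c)) ha

/-- The coordinates of a plane over the moduli space: sizes, centre. -/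
theorem plane (hpk : ∀ k, pk u v k ≠ 0) {V : ValuationSubring Ω} {d : Fin 5 → ℕ}
    {τ : Fin 3 → Ω} (hτ : Free u v k d τ) (hne : ∀ i, τ i ≠ 0) (hP : PCurve k τ V)
    {e : Fin 10 → ℕ} (he : Top u v V d e) :
    (∀ i, (∀ i', τ i' / τ i ∈ V) → V.valuation (τ i) = V.valuation (mo u v e)) ∧
      ∃ e', Mon d e' ∧ ∀ a : k, mo u v e' / mo u v e - algebraMap k Ω a ∉ V.nonunits := by
  have hm : V.valuation (mo u v e) ≠ 0 := (map_ne_zero _).2 (mo_ne hpk e)
  have h1 : ∀ i, (∀ i', τ i' / τ i ∈ V) → V.valuation (τ i) = V.valuation (mo u v e) := by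
    intro i hi
    refine le_antisymm (sec_le hpk hP.kv he (hτ.sec i)) ?_
    obtain ⟨i1, h2, h3⟩ := hτ.nz V hP.kv e he
    exact le_trans ((div_mem_iff V h2).1 h3) ((div_mem_iff V (hne i)).1 (hi i1))
  refine ⟨h1, ?_⟩
  by_contra hcon
  push Not at hcon
  obtain ⟨i, hi, j, hj⟩ := hP.tr
  obtain ⟨a, ha⟩ := sec_const hP.kv hcon (hτ.sec i)
  obtain ⟨b, hb⟩ := sec_const hP.kv hcon (hτ.sec j)
  have h2 : V.valuation (τ i / mo u v e) = 1 := by
    rw [map_div₀, h1 i hi, div_self hm]
  have ha0 : a ≠ 0 := by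
    intro h
    rw [h, map_zero, sub_zero, h2] at ha
    exact lt_irrefl _ ha
  apply hj (b / a)
  rw [V.mem_nonunits_iff]
  have ha1 : algebraMap k Ω a ≠ 0 := (map_ne_zero _).2 ha0
  have h3 : τ j / τ i - algebraMap k Ω (b / a) =
      ((τ j / mo u v e - algebraMap k Ω b) -
        algebraMap k Ω (b / a) * (τ i / mo u v e - algebraMap k Ω a)) / (τ i / mo u v e) := by
    have h4 := hne i
    have h5 := mo_ne hpk e
    rw [map_div₀]
    field_simp
    ring
  rw [h3, map_div₀, h2, div_one]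
  refine lt_of_le_of_lt (V.valuation.map_sub _ _) (max_lt hb ?_)
  rw [map_mul]
  exact lt_of_le_of_lt (mul_le_of_le_one_left' (kv_le hP.kv _)) ha

end sec

/-! ## The brackets are not zero -/

section brackets

open MvPolynomial

theorem pk_ne {k Ω : Type} [Field k] [Field Ω] [Algebra k Ω] {u v : Ω}
    (h : AlgebraicIndependent k ![u, v]) (i : Fin 10) : pk u v i ≠ 0 := by
  have key : ∀ P : MvPolynomial (Fin 2) k, aeval ![u, v] P = 0 → P = 0 := fun P hP =>
    h (by rw [hP, map_zero])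
  have hu : u ≠ 0 := by
    intro h0
    have h1 := key (X 0) (by simp [h0])
    exact MvPolynomial.X_ne_zero _ h1
  have hv : v ≠ 0 := by
    intro h0
    have h1 := key (X 1) (by simp [h0])
    exact MvPolynomial.X_ne_zero _ h1
  have hu1 : 1 - u ≠ 0 := by
    intro h0
    have h1 := key (1 - X 0) (by simp [h0])
    have h2 := congrArg (eval (fun _ => (0 : k))) h1
    simp at h2
  have hv1 : 1 - v ≠ 0 := by
    intro h0
    have h1 := key (1 - X 1) (by simp [h0])
    have h2 := congrArg (eval (fun _ => (0 : k))) h1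
    simp at h2
  have huv : u - v ≠ 0 := by
    intro h0
    have h1 := key (X 0 - X 1) (by simp [h0])
    have h2 := congrArg (eval ![(1 : k), 0]) h1
    simp at h2
  fin_cases i <;> simp [pk, pa, pb, XV.eS, XV.eT, hu, hv, hu1, hv1, huv]

end brackets

/-! ## The class -/

/-- The class `n₀ (L + 2 D_i) - D_i - D_j`, `n₀ = m + 1`. -/
def dd (i j : Fin 10) (m : ℕ) (a : Fin 5) : ℕ := 4 * (m + 1) + (2 * m + 1) * chi i a - chi j a

theorem dd_add (i j : Fin 10) (m : ℕ) (a : Fin 5) :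
    dd i j m a + chi j a = 4 * (m + 1) + (2 * m + 1) * chi i a := by
  unfold dd
  have h := chi_le j a
  omega

theorem dd_sum (i j : Fin 10) (m : ℕ) : ∑ a, dd i j m a = 24 * m + 20 := by
  have h : ∑ a, (dd i j m a + chi j a) = ∑ a, (4 * (m + 1) + (2 * m + 1) * chi i a) :=
    Finset.sum_congr rfl fun a _ => dd_add i j m a
  have e1 : ∑ a, (2 * m + 1) * chi i a = (2 * m + 1) * 2 := by rw [← Finset.mul_sum, chi_sum]
  rw [Finset.sum_add_distrib, Finset.sum_add_distrib, e1, chi_sum, Finset.sum_const,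
    Finset.card_univ, Fintype.card_fin, smul_eq_mul] at h
  omega

theorem dd_sq (i j : Fin 10) (hij : XV.Disj i j) (m : ℕ) :
    ∑ a, dd i j m a ^ 2 = 120 * m ^ 2 + 200 * m + 84 := by
  have h0 : ∀ a, dd i j m a ^ 2 + (8 * (m + 1)) * chi j a =
      16 * (m + 1) ^ 2 + ((2 * m + 1) ^ 2 + 8 * (m + 1) * (2 * m + 1)) * chi i a + chi j a := by
    intro a
    have h1 := dd_add i j m a
    have h2 := chi_le i a
    have h3 := chi_le j a
    rcases chi_disj i j hij a with h4 | h4
    · rcases Nat.le_one_iff_eq_zero_or_eq_one.1 h3 with h5 | h5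
      · rw [h4, h5] at h1 ⊢
        rw [show dd i j m a = 4 * (m + 1) by omega]
        ring
      · rw [h4, h5] at h1 ⊢
        rw [show dd i j m a = 4 * m + 3 by omega]
        ring
    · rcases Nat.le_one_iff_eq_zero_or_eq_one.1 h2 with h5 | h5
      · rw [h4, h5] at h1 ⊢
        rw [show dd i j m a = 4 * (m + 1) by omega]
        ring
      · rw [h4, h5] at h1 ⊢
        rw [show dd i j m a = 6 * m + 5 by omega]
        ring
  have h : ∑ a, (dd i j m a ^ 2 + (8 * (m + 1)) * chi j a) = ∑ a, (16 * (m + 1) ^ 2 +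
      ((2 * m + 1) ^ 2 + 8 * (m + 1) * (2 * m + 1)) * chi i a + chi j a) :=
    Finset.sum_congr rfl fun a _ => h0 a
  have e1 : ∑ a, (8 * (m + 1)) * chi j a = (8 * (m + 1)) * 2 := by
    rw [← Finset.mul_sum, chi_sum]
  have e2 : ∑ a, ((2 * m + 1) ^ 2 + 8 * (m + 1) * (2 * m + 1)) * chi i a =
      ((2 * m + 1) ^ 2 + 8 * (m + 1) * (2 * m + 1)) * 2 := by
    rw [← Finset.mul_sum, chi_sum]
  rw [Finset.sum_add_distrib, Finset.sum_add_distrib, Finset.sum_add_distrib, e1, e2, chi_sum,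
    Finset.sum_const, Finset.card_univ, Fintype.card_fin, smul_eq_mul] at h
  nlinarith [h]

theorem dd_nef (i j : Fin 10) (m : ℕ) : Nef (dd i j m) := by
  constructor
  · rw [dd_sum]
    exact ⟨12 * m + 10, by ring⟩
  · intro k
    rw [dd_sum]
    have h1 := dd_add i j m (XV.eS k)
    have h2 := dd_add i j m (XV.eT k)
    have h3 := chi_le i (XV.eS k)
    have h4 := chi_le i (XV.eT k)
    have h5 : (2 * m + 1) * chi i (XV.eS k) ≤ (2 * m + 1) * 1 := Nat.mul_le_mul_left _ h3
    have h6 : (2 * m + 1) * chi i (XV.eT k) ≤ (2 * m + 1) * 1 := Nat.mul_le_mul_left _ h4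
    omega

theorem deg_ineq {m r : ℕ} (h : 4 * r + 4 * (120 * m ^ 2 + 200 * m + 84) ≤ (24 * m + 20) ^ 2) :
    r + 8 * (m + 1) ≤ 24 * (m + 1) ^ 2 := by
  nlinarith [h]

theorem dd_contr (i j : Fin 10) (hij : XV.Disj i j) (m : ℕ) :
    2 * (dd i j m (XV.eS i) + dd i j m (XV.eT i)) = ∑ a, dd i j m a := by
  rw [dd_sum]
  obtain ⟨h1, h2⟩ := chi_self i
  have h3 := dd_add i j m (XV.eS i)
  have h4 := dd_add i j m (XV.eT i)
  have h5 : chi j (XV.eS i) = 0 := by
    rcases chi_disj i j hij (XV.eS i) with h | h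
    · omega
    · exact h
  have h6 : chi j (XV.eT i) = 0 := by
    rcases chi_disj i j hij (XV.eT i) with h | h
    · omega
    · exact h
  rw [h5, h1] at h3
  rw [h6, h2] at h4
  omega

end PLC_

open PLC_ in
theorem plc_proof (hTOP : Stmt_TOP) (hCTR : Stmt_CTR) (hTRP : Stmt_TRP) (hRHO : Stmt_RHO) :
    Stmt_PLC := by
  intro k Ω _ _ _ _ u v l huv hl hlm i₀ j hij n₀ hn₀
  obtain ⟨m, rfl⟩ : ∃ m, n₀ = m + 1 := ⟨n₀ - 1, by omega⟩
  have hpk : ∀ i, pk u v i ≠ 0 := pk_ne huv
  obtain ⟨τ, hfree, hpl, hdeg⟩ := hTRP k Ω u v huv (dd i₀ j m) (dd_nef i₀ j m) (by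
    rw [dd_sum, dd_sq i₀ j hij]
    nlinarith [Nat.zero_le m])
  rw [dd_sum, dd_sq i₀ j hij] at hdeg
  set c : Ω := l ^ (m + 1) * pk u v j / pk u v i₀ ^ (2 * m + 1) with hc
  have hc0 : c ≠ 0 := by
    rw [hc]
    exact div_ne_zero (mul_ne_zero (pow_ne_zero _ hl) (hpk j)) (pow_ne_zero _ (hpk i₀))
  have hcm : c ∈ UV u v k := by
    rw [hc]
    exact div_mem (mul_mem (pow_mem hlm _) (pk_mem _)) (pow_mem (pk_mem _) _)
  have hrat : ∀ a b, c * τ a / (c * τ b) = τ a / τ b := fun a b => mul_div_mul_left _ _ hc0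
  have hdne : ∃ e, Mon (dd i₀ j m) e := mon_of_sec (hfree.sec 0) (hpl.ne 0)
  refine ⟨fun i => c * τ i, ⟨fun i => mul_ne_zero hc0 (hpl.ne i), ?_⟩,
    fun i => mul_mem hcm (sec_mem (hfree.sec i)), ?_, ?_⟩
  · simp only [hrat]
    exact hpl.indep
  · have h1 : PF k (fun i => c * τ i) = PF k τ := by
      unfold PF
      simp only [hrat]
    rw [h1]
    exact deg_ineq hdeg
  · intro V hP i hi
    simp only [hrat] at hi
    have hPτ : PCurve k τ V := ⟨hP.kv, by simpa only [hrat] using hP.tr⟩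
    obtain ⟨e3, he3⟩ := exists_top V hpk hdne
    obtain ⟨hval, e4, he4, hnc⟩ := plane hpk hfree hpl.ne hPτ he3
    have hon : ¬ On u v V i₀ := by
      intro hon
      obtain ⟨a, ha⟩ := hCTR k Ω u v huv V hP.kv i₀ hon (dd i₀ j m) (dd_nef i₀ j m)
        (dd_contr i₀ j hij m) e3 e4 he3 he4
      exact hnc a ha
    refine ⟨⟨hP.kv, dd i₀ j m, e3, e4, dd_nef i₀ j m, he3, he4, hnc⟩, hon, ?_⟩
    intro e e' he he'
    -- a maximal monomial of degree `4 + chi i₀`
    obtain ⟨e0, he0⟩ : ∃ e0, Top u v V (fun i => 4 + chi i₀ i) e0 := by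
      refine exists_top V hpk ⟨e + Pi.single i₀ 1, ?_⟩
      intro a
      rw [mdeg_add, he.1 a, mdeg_single]
    have hr := (hRHO Ω u v hpk V i₀ e e0 he he0).2 hon
    rw [sim_iff] at hr
    have hr1 : V.valuation (mo u v e0) = V.valuation (pk u v i₀) * V.valuation (mo u v e) := by
      have h1 := hr.2.2
      have h0 : V.valuation (mo u v e0) ≠ 0 := (map_ne_zero _).2 (mo_ne hpk e0)
      unfold rho at h1
      rw [map_div₀, map_one, div_eq_one_iff_eq h0, map_mul] at h1
      exact h1.symm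
    -- two maximal monomials of the same degree
    have hT1 : Top u v V (dd i₀ j m + (fun i => 4 + chi j i) + (2 * m + 1) • (fun _ => 4))
        (e3 + e' + (2 * m + 1) • e) :=
      hTOP Ω u v hpk V _ _ _ _ (nef_add (dd_nef _ _ _) (nef_chi j)) (nef_smul nef_four _)
        (hTOP Ω u v hpk V _ _ _ _ (dd_nef _ _ _) (nef_chi j) he3 he')
        (top_smul V hTOP hpk nef_four he _)
    have hT2 : Top u v V ((2 * m + 1) • (fun i => 4 + chi i₀ i) + (m + 2) • (fun _ => 4))
        ((2 * m + 1) • e0 + (m + 2) • e) :=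
      hTOP Ω u v hpk V _ _ _ _ (nef_smul (nef_chi i₀) _) (nef_smul nef_four _)
        (top_smul V hTOP hpk (nef_chi i₀) he0 _) (top_smul V hTOP hpk nef_four he _)
    have hdd : dd i₀ j m + (fun i => 4 + chi j i) + (2 * m + 1) • (fun _ => 4) =
        (2 * m + 1) • (fun i => 4 + chi i₀ i) + (m + 2) • (fun _ : Fin 5 => 4) := by
      funext a
      have h1 := dd_add i₀ j m a
      simp only [Pi.add_apply, Pi.smul_apply, smul_eq_mul]
      have h2 : (2 * m + 1) * (4 + chi i₀ a) = (2 * m + 1) * 4 + (2 * m + 1) * chi i₀ a := by ring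
      omega
    rw [hdd] at hT1
    have hv := top_val V hpk hT1 hT2
    rw [mo_add, mo_add, mo_smul, mo_add, mo_smul, mo_smul, map_mul, map_mul, map_mul, map_pow,
      map_pow, map_pow, hr1] at hv
    have hA : V.valuation (mo u v e) ≠ 0 := (map_ne_zero _).2 (mo_ne hpk e)
    have hB : V.valuation (mo u v e') ≠ 0 := (map_ne_zero _).2 (mo_ne hpk e')
    have hQ : V.valuation (pk u v i₀) ≠ 0 := (map_ne_zero _).2 (hpk i₀)
    rw [sim_iff]
    refine ⟨mul_ne_zero hc0 (hpl.ne i), ?_, ?_⟩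
    · unfold rho
      exact mul_ne_zero (pow_ne_zero _ (mul_ne_zero hl (mo_ne hpk e)))
        (div_ne_zero (mul_ne_zero (hpk j) (mo_ne hpk e)) (mo_ne hpk e'))
    · rw [map_mul, hval i hi, hc, map_div₀, map_mul, map_pow, map_pow]
      unfold rho
      rw [map_mul, map_pow, map_mul, map_div₀, map_mul]
      generalize V.valuation (mo u v e) = A at *
      generalize V.valuation (mo u v e') = B at *
      generalize V.valuation (pk u v i₀) = Q at *
      generalize V.valuation (mo u v e3) = D at *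
      generalize V.valuation (pk u v j) = R
      generalize V.valuation l = G
      have h1 : D * B = Q ^ (2 * m + 1) * A ^ (m + 2) := by
        have h2 : D * B * A ^ (2 * m + 1) = Q ^ (2 * m + 1) * A ^ (m + 2) * A ^ (2 * m + 1) := by
          rw [hv, mul_pow]
          generalize Q ^ (2 * m + 1) = Q'
          generalize A ^ (2 * m + 1) = A'
          generalize A ^ (m + 2) = A''
          ac_rfl
        exact mul_right_cancel₀ (pow_ne_zero _ hA) h2
      rw [div_mul_eq_mul_div, mul_div_assoc', eq_div_iff hB, div_mul_eq_mul_div,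
        div_eq_iff (pow_ne_zero _ hQ)]
      calc G ^ (m + 1) * R * D * B = G ^ (m + 1) * R * (D * B) := by ac_rfl
        _ = G ^ (m + 1) * R * (Q ^ (2 * m + 1) * A ^ (m + 2)) := by rw [h1]
        _ = (G * A) ^ (m + 1) * (R * A) * Q ^ (2 * m + 1) := by
          rw [mul_pow, pow_succ A (m + 1)]
          generalize Q ^ (2 * m + 1) = Q'
          generalize A ^ (m + 1) = A'
          generalize G ^ (m + 1) = G'
          ac_rfl

end Pool.Agent.SFB
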