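import Pool.Agent.SFB.Stmts

/-!
# Special fibre bounds: the modules on the exact surface

Recipes: `/team-store/MP_db3ab1_SFB.md`.
-/

set_option autoImplicit false

noncomputable section

namespace Pool.Agent.SFB

open scoped Classical
open Pool.Agent.EN2 Pool.Agent.SRF Pool.Agent.DIS IsLocalRing

/-! ## The facts on places (`Pool.Agent.EN2`) -/

/-- PFI: finitely many components, separated by functions. -/
def Stmt_PFI : Prop :=
  ∀ (K : Type) [Field K] [IsAlgClosed K] (O : ValuationSubring K), Arch O →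
    ∀ (F : Type) [Field F] [Algebra K F] (x y : F), IsSurf K x y →
    Finite (Comp O x y) ∧ Nonempty (Comp O x y) ∧ VG (fun c : Comp O x y => c.1) ∧
      ∀ c : Comp O x y, ∃ q : F, q ∈ c.1.W ∧ c.1.res q = 1 ∧
        ∀ c' : Comp O x y, c' ≠ c → q ∈ c'.1.W.nonunits

/-- MPR: the maximum principle. -/
def Stmt_MPR : Prop :=
  ∀ (K : Type) [Field K] [IsAlgClosed K] (O : ValuationSubring K), Arch O →
    ∀ (F : Type) [Field F] [Algebra K F] (x y : F), IsSurf K x y → ∀ (n : ℕ) (f : F),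
    f ∈ L K x y (fun e => n * H K x y e) → Bd O x y f → IntO O x y n f

/-- IOL: integral functions are sections. -/
def Stmt_IOL : Prop :=
  ∀ (K : Type) [Field K] (O : ValuationSubring K) (F : Type) [Field F] [Algebra K F] (x y : F),
    IsSurf K x y → ∀ (n : ℕ) (f : F), IntO O x y n f → f ∈ L K x y (fun e => n * H K x y e)

/-- XPL: a valuation ring over `K` contains a place over `O`. -/
def Stmt_XPL : Prop :=
  ∀ (K : Type) [Field K] (O : ValuationSubring K) (F : Type) [Field F] [Algebra K F]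
    (U : ValuationSubring F), (∀ a : K, algebraMap K F a ∈ U) → ∃ W : Pl O F, W.W ≤ U

/-- TUB: a form which vanishes on a curve of a tube. -/
def Stmt_TUB : Prop :=
  ∀ (p : ℕ) [Fact p.Prime] (J : Type) (E : FRM.Eqs p XV.N J) (T : ExactSurf E) (j : Edge)
    (e : PP T.K T.x T.y), T.Tub j e → ∀ i, 1 ≤ (XV.pt i).e j →
    ∃ (m : ℕ) (a : T.K) (P : MvPolynomial (Fin (XV.N + 1)) T.O), 0 < m ∧ a ∈ T.O.nonunits ∧
      P.IsHomogeneous m ∧
      (T.X i ^ m - a • MvPolynomial.aeval T.X P = 0 ∨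
        1 ≤ ord e.1 (T.X i ^ m - a • MvPolynomial.aeval T.X P) + m * H T.K T.x T.y e)

/-! ## General algebra -/

/-- CPP: composite places. -/
def Stmt_CPP : Prop :=
  ∀ (K : Type) [Field K] (O : ValuationSubring K) (F : Type) [Field F] [Algebra K F] (c : Pl O F)
    (V : ValuationSubring (ResidueField c.W)), KV (ResidueField O) V →
    (∃ W : Pl O F, W.W = cpW c V) ∧
      ∀ f ∈ c.W, (f ∈ cpW c V ↔ c.res f ∈ V) ∧ (f ∈ (cpW c V).nonunits ↔ c.res f ∈ V.nonunits)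

/-- INT: integrality from the valuation rings whose centre on the plane is not a closed point. -/
def Stmt_INT : Prop :=
  ∀ (k Ω : Type) [Field k] [Field Ω] [Algebra k Ω] (σ : Fin 3 → Ω), IsPl k σ →
    FiniteDimensional (PF k σ) Ω → ∀ (f : Ω) (n n₀ : ℕ),
    (∀ V : ValuationSubring Ω, PCurve k σ V → ∀ i, (∀ j, σ j / σ i ∈ V) →
      f ^ n₀ / σ i ^ n ∈ V) → IntS k σ n n₀ f

/-! ## Planes over the moduli space -/

section planes

variable {Ω : Type} [Field Ω]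

/-- The local equation of the curve `j` at `V`, for `Top V 4 e`, `Top V (4 + chi j) e'`. -/
def rho (u v : Ω) (j : Fin 10) (e e' : Fin 10 → ℕ) : Ω := pk u v j * mo u v e / mo u v e'

/-- `f` and `g` have the same size. -/
def Sim (V : ValuationSubring Ω) (f g : Ω) : Prop := g ≠ 0 ∧ f / g ∈ V ∧ g / f ∈ V ∧ f ≠ 0

end planes

/-- RHO: size of the local equation (uses TOP). -/
def Stmt_RHO : Prop :=
  ∀ (Ω : Type) [Field Ω] (u v : Ω), (∀ k, pk u v k ≠ 0) → ∀ (V : ValuationSubring Ω) (j : Fin 10)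
    (e e' : Fin 10 → ℕ), Top u v V (fun _ => 4) e → Top u v V (fun i => 4 + chi j i) e' →
    rho u v j e e' ∈ V ∧ (¬ On u v V j → Sim V (rho u v j e e') 1)

/-- PLM: a plane for the class `L + 2 D_j` (uses TOP, CTR, TRP). -/
def Stmt_PLM : Prop :=
  ∀ (k Ω : Type) [Field k] [IsAlgClosed k] [Field Ω] [Algebra k Ω] (u v l : Ω),
    AlgebraicIndependent k ![u, v] → l ≠ 0 → l ∈ UV u v k → ∀ j : Fin 10,
    ∃ σ : Fin 3 → Ω, IsPl k σ ∧ (∀ i, σ i ∈ UV u v k) ∧ (PF k σ).relfinrank (UV u v k) ≤ 24 ∧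
      ∀ V : ValuationSubring Ω, PCurve k σ V → ∀ i, (∀ i', σ i' / σ i ∈ V) →
        Curve u v k V ∧ ¬ On u v V j ∧
        ∀ e, Top u v V (fun _ => 4) e → Sim V (σ i) (l * mo u v e)

/-- PLZ: a plane for the class `n₀ L - D_j` (uses TOP, TRP). -/
def Stmt_PLZ : Prop :=
  ∀ (k Ω : Type) [Field k] [IsAlgClosed k] [Field Ω] [Algebra k Ω] (u v l : Ω),
    AlgebraicIndependent k ![u, v] → l ≠ 0 → l ∈ UV u v k → ∀ (j : Fin 10) (n₀ : ℕ), 1 ≤ n₀ →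
    ∃ σ : Fin 3 → Ω, IsPl k σ ∧ (∀ i, σ i ∈ UV u v k) ∧
      (PF k σ).relfinrank (UV u v k) + 4 * n₀ ≤ 20 * n₀ ^ 2 ∧
      ∀ V : ValuationSubring Ω, PCurve k σ V → ∀ i, (∀ i', σ i' / σ i ∈ V) →
        Curve u v k V ∧
        ∀ e e', Top u v V (fun _ => 4) e → Top u v V (fun i => 4 + chi j i) e' →
          Sim V (σ i) ((l * mo u v e) ^ n₀ * rho u v j e e')

/-- PLC: a plane for the class `n₀ (L + 2 D_i) - D_i - D_j`, `D_i` and `D_j` crossing (uses TOP,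
CTR, TRP). -/
def Stmt_PLC : Prop :=
  ∀ (k Ω : Type) [Field k] [IsAlgClosed k] [Field Ω] [Algebra k Ω] (u v l : Ω),
    AlgebraicIndependent k ![u, v] → l ≠ 0 → l ∈ UV u v k → ∀ i₀ j : Fin 10, XV.Disj i₀ j →
    ∀ n₀ : ℕ, 1 ≤ n₀ →
    ∃ σ : Fin 3 → Ω, IsPl k σ ∧ (∀ i, σ i ∈ UV u v k) ∧
      (PF k σ).relfinrank (UV u v k) + 8 * n₀ ≤ 24 * n₀ ^ 2 ∧
      ∀ V : ValuationSubring Ω, PCurve k σ V → ∀ i, (∀ i', σ i' / σ i ∈ V) →
        Curve u v k V ∧ ¬ On u v V i₀ ∧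
        ∀ e e', Top u v V (fun _ => 4) e → Top u v V (fun i => 4 + chi j i) e' →
          Sim V (σ i) ((l * mo u v e) ^ n₀ * rho u v j e e')

/-- ZEE: the space `Z` (uses TOP, ZED, RHO). -/
def Stmt_ZEE : Prop :=
  ∀ (k Ω : Type) [Field k] [IsAlgClosed k] [Field Ω] [Algebra k Ω] (u v l : Ω),
    AlgebraicIndependent k ![u, v] → l ≠ 0 → l ∈ UV u v k → ∀ (j : Fin 10) (n r : ℕ), r ≤ n →
    ∃ Z : Submodule k Ω, FiniteDimensional k Z ∧ r * (r + 1) ≤ 2 * Module.finrank k Z ∧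
      (∀ z ∈ Z, z ∈ UV u v k) ∧
      (∀ z ∈ Z, ∀ V : ValuationSubring Ω, KV k V → ¬ On u v V j →
        ∀ e, Top u v V (fun _ => 4) e → z / (l * mo u v e) ^ n ∈ V) ∧
      ∀ z ∈ Z, z ≠ 0 → ∀ V : ValuationSubring Ω, Curve u v k V → On u v V j →
        ∀ e e', Top u v V (fun _ => 4) e → Top u v V (fun i => 4 + chi j i) e' →
        (l * mo u v e) ^ n / (z * rho u v j e e' ^ (2 * n - r)) ∈ V

/-! ## Disjoint curves -/

/-- DSJ: curves with a common index do not meet (uses XV.TRI). -/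
def Stmt_DSJ : Prop :=
  ∀ (Ω : Type) [Field Ω] (s : XV.Pt → Ω), XV.IsSol s → (∀ c, 1 ≤ c.w → s c = 0) →
    (∃ c, s c ≠ 0) → ∀ i j : Fin 10, i ≠ j → ¬ XV.Disj i j → (∀ c, 1 ≤ c.e i → s c = 0) →
    (∀ c, 1 ≤ c.e j → s c = 0) → False

/-- PTC: the crossing points are rational (uses XV.TRI). -/
def Stmt_PTC : Prop :=
  ∀ i j : Fin 10, XV.Disj i j → ∃ ε : XV.Pt → ℤ, ∀ (Ω : Type) [Field Ω] (s : XV.Pt → Ω),
    XV.IsSol s → (∀ c, 1 ≤ c.w → s c = 0) → (∀ c, 1 ≤ c.e i → s c = 0) →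
    (∀ c, 1 ≤ c.e j → s c = 0) → ∃ t : Ω, ∀ c, s c = (ε c : Ω) * t

/-! ## The exact surface -/

section surface

variable {p : ℕ} [Fact p.Prime] {J : Type} {E : FRM.Eqs p XV.N J} (T : ExactSurf E)

/-- The coordinates as a finite set. -/
def GX : Finset T.F := Finset.univ.image T.X

/-- The five points on the component `c`: `res X_c = l p^e`. -/
structure Fv (c : Comp T.O T.x T.y) (u v l : ResidueField c.1.W) : Prop where
  l_ne : l ≠ 0
  ind : AlgebraicIndependent (ResidueField T.O) ![u, v]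
  mem : ∀ i, T.X i ∈ c.1.W
  sol0 : ∀ i, (XV.pt i).w = 0 → c.1.res (T.X i) = l * mo u v (XV.pt i).e
  sol1 : ∀ i, 1 ≤ (XV.pt i).w → c.1.res (T.X i) = 0
  rf : RF T.O c.1 (GX T) = UV u v (ResidueField T.O)
  lmem : l ∈ UV u v (ResidueField T.O)
  xmem : c.1.res T.x ∈ UV u v (ResidueField T.O)
  ymem : c.1.res T.y ∈ UV u v (ResidueField T.O)
  pl : IsPl (ResidueField T.O) (xi T.O T.x T.y c.1)
  free : Free u v (ResidueField T.O) (fun _ => 4) fun i => xi T.O T.x T.y c.1 i / l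

end surface

/-- SLW: the coordinates at a place over `O`: `X i / z i'` give a solution in the residue field. -/
def Stmt_SLW : Prop :=
  ∀ (p : ℕ) [Fact p.Prime] (J : Type) (E : FRM.Eqs p XV.N J), XV.GoodEqs E → ∀ T : ExactSurf E,
    ∀ (W : Pl T.O T.F) (a : Fin 3), z T.x T.y a ≠ 0 → (∀ b, z T.x T.y b / z T.x T.y a ∈ W.W) →
    (∀ i, T.X i / z T.x T.y a ∈ W.W) ∧
    XV.IsSol (fun c => W.res (T.X (XV.pt.symm c) / z T.x T.y a)) ∧
    (∀ c : XV.Pt, 1 ≤ c.w → W.res (T.X (XV.pt.symm c) / z T.x T.y a) = 0) ∧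
    (∃ c : XV.Pt, W.res (T.X (XV.pt.symm c) / z T.x T.y a) ≠ 0) ∧
    ∀ b, ∃ l : XV.Pt → ResidueField T.O, W.res (z T.x T.y b / z T.x T.y a) =
      ∑ i, algebraMap (ResidueField T.O) (ResidueField W.W) (l (XV.pt i)) *
        W.res (T.X i / z T.x T.y a)

/-- FIV: the five points on a component (uses SLW, GNS, CPP). -/
def Stmt_FIV : Prop :=
  ∀ (p : ℕ) [Fact p.Prime] (J : Type) (E : FRM.Eqs p XV.N J), XV.GoodEqs E → ∀ T : ExactSurf E,
    ∀ c : Comp T.O T.x T.y, ∃ u v l, Fv T c u v l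

/-- REG: reductions of functions without poles near `V` (uses SRF.SUP, MPR, TUB, CPP). -/
def Stmt_REG : Prop :=
  ∀ (p : ℕ) [Fact p.Prime] (J : Type) (E : FRM.Eqs p XV.N J) (T : ExactSurf E)
    (c : Comp T.O T.x T.y) (u v l : ResidueField c.1.W), Fv T c u v l →
    ∀ V : ValuationSubring (ResidueField c.1.W), KV (ResidueField T.O) V →
    ∀ e, Top u v V (fun _ => 4) e → ∀ (n : ℕ) (g : T.F), Bd T.O T.x T.y g →
    (g ∈ (sf T).WW ∅ n → c.1.res g / (l * mo u v e) ^ n ∈ V) ∧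
    ∀ j : Fin 10, ¬ On u v V j → g ∈ (sf T).WW {e | T.Tub j e} n →
      c.1.res g / (l * mo u v e) ^ n ∈ V

/-- FUL: full poles in the reductions (uses RED, DEG, FIV, REG, INT, PLM, ZEE, CRV). -/
def Stmt_FUL : Prop :=
  ∀ (p : ℕ) [Fact p.Prime] (J : Type) (E : FRM.Eqs p XV.N J), XV.GoodEqs E → ∀ T : ExactSurf E,
    T.Full → ∀ (j : Fin 10) (m : ℕ), 0 < m → ∃ q₀ : ℕ, ∀ q : ℕ, q₀ ≤ q →
    ∀ (c : Comp T.O T.x T.y) (u v l : ResidueField c.1.W), Fv T c u v l →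
    ∀ V : ValuationSubring (ResidueField c.1.W), Curve u v (ResidueField T.O) V → On u v V j →
    ∃ g ∈ (sf T).WW {e | T.Tub j e} q, Bd T.O T.x T.y g ∧ c.1.res g ≠ 0 ∧
      ∀ e e', Top u v V (fun _ => 4) e → Top u v V (fun i => 4 + chi j i) e' →
        (l * mo u v e) ^ q / (c.1.res g * rho u v j e e' ^ (2 * q - q / m)) ∈ V

/-- UPB: the upper bound for the sections with poles in one tube (uses RED, DEG, FIV, REG, INT,
PLM). -/
def Stmt_UPB : Prop :=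
  ∀ (p : ℕ) [Fact p.Prime] (J : Type) (E : FRM.Eqs p XV.N J), XV.GoodEqs E → ∀ T : ExactSurf E,
    ∀ j : Fin 10, ∃ d : ℕ, ∀ n : ℕ,
      FiniteDimensional (sf T).k ((sf T).WW {e | T.Tub j e} n) ∧
      20 * Module.finrank (sf T).k ((sf T).WW {e | T.Tub j e} n) ≤
        deg T.K T.x T.y * 24 * (n + d + 2).choose 2

/-- CRZ: zeros in one tube (uses RED, DEG, FIV, REG, INT, PLZ, FUL, RHO). -/
def Stmt_CRZ : Prop :=
  ∀ (p : ℕ) [Fact p.Prime] (J : Type) (E : FRM.Eqs p XV.N J), XV.GoodEqs E → ∀ T : ExactSurf E,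
    T.Full → ∀ j : Fin 10, ∃ d : ℕ, ∀ m : ℕ, 0 < m → ∃ q₀ : ℕ, ∀ n q : ℕ, q₀ ≤ q →
    ∀ n₀ : ℕ, 1 ≤ n₀ → n + d ≤ n₀ * (2 * q - q / m) →
      20 * Module.finrank (sf T).k ((sf T).WZ ∅ {e | T.Tub j e} n q) ≤
        deg T.K T.x T.y * (20 * n₀ ^ 2 - 4 * n₀) * ((n + d) / n₀ + 2).choose 2

/-- CRC: poles in one tube, zeros in a crossing tube (uses RED, DEG, FIV, REG, INT, PLC, FUL,
RHO, CRV). -/
def Stmt_CRC : Prop :=
  ∀ (p : ℕ) [Fact p.Prime] (J : Type) (E : FRM.Eqs p XV.N J), XV.GoodEqs E → ∀ T : ExactSurf E,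
    T.Full → ∀ i j : Fin 10, XV.Disj i j → ∃ d : ℕ, ∀ m : ℕ, 0 < m → ∃ q₀ : ℕ, ∀ n q : ℕ,
    q₀ ≤ q → ∀ n₀ : ℕ, 1 ≤ n₀ → n + d ≤ n₀ * (2 * q - q / m) →
      20 * Module.finrank (sf T).k ((sf T).WZ {e | T.Tub i e} {e | T.Tub j e} n q) ≤
        deg T.K T.x T.y * (24 * n₀ ^ 2 - 8 * n₀) * ((n + d) / n₀ + 2).choose 2

/-- SML: near the centre of a valuation ring on a curve of a tube the coordinates are small
(uses TUB, IOL, SLW, SRF.CEN, SRF.THC, SRF.SEC, SRF.HCH). -/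
def Stmt_SML : Prop :=
  ∀ (p : ℕ) [Fact p.Prime] (J : Type) (E : FRM.Eqs p XV.N J) (T : ExactSurf E) (j : Edge)
    (e : PP T.K T.x T.y), T.Tub j e → ∀ V : ValuationSubring T.F,
    (∀ a : T.K, algebraMap T.K T.F a ∈ V) → thr T.K T.x T.y e.1 V → ∀ W : Pl T.O T.F, W.W ≤ V →
    ∀ i, 1 ≤ (XV.pt i).e j → Small T.x T.y W.W (T.X i)

/-- NOM: curves in the tubes of disjoint curves do not meet (uses SML, XPL, SLW, DSJ). -/
def Stmt_NOM : Prop :=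
  ∀ (p : ℕ) [Fact p.Prime] (J : Type) (E : FRM.Eqs p XV.N J), XV.GoodEqs E → ∀ T : ExactSurf E,
    ∀ i j : Fin 10, i ≠ j → ¬ XV.Disj i j → ∀ e e' : PP T.K T.x T.y, T.Tub i e → T.Tub j e' →
    (sf T).NoMeet e e'

/-- DJT: a curve is in at most one tube (uses NOM, SML, SLW, PTC, XPL, SRF.NAL, SRF.AX3). -/
def Stmt_DJT : Prop :=
  ∀ (p : ℕ) [Fact p.Prime] (J : Type) (E : FRM.Eqs p XV.N J), XV.GoodEqs E → ∀ T : ExactSurf E,
    ∀ i j : Fin 10, i ≠ j → ∀ e : PP T.K T.x T.y, T.Tub i e → ¬ T.Tub j e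

/-! ## The asymptotics -/

/-- INQ: the inequality behind `cross0` and `cross` (`a = 20`, `b = 4` and `a = 24`, `b = 8`). -/
def Stmt_INQ : Prop :=
  ∀ a b : ℕ, 0 < b → b ≤ a → ∀ d : ℕ, ∃ C : ℝ, ∀ ε : ℝ, 0 < ε → ∃ m : ℕ, 0 < m ∧ ∀ q₀ : ℕ,
    ∃ n₁ : ℕ, q₀ ≤ n₁ ∧ ∀ n q : ℕ, n₁ ≤ q → q ≤ n → ∃ n₀ : ℕ, 1 ≤ n₀ ∧
      n + d ≤ n₀ * (2 * q - q / m) ∧
      (((a * n₀ ^ 2 - b * n₀) * ((n + d) / n₀ + 2).choose 2 : ℕ) : ℝ) ≤
        (a : ℝ) / 2 * n ^ 2 - b * q * n + ε * n ^ 2 + C * q ^ 2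

end Pool.Agent.SFB
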